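import Pool.Agent.H17.CF.A.Ult

/-!
# CF-A8b: Baumgartner-Malitz-Reinhardt in a ctm, second half (ultrafilter argument)

`N` is a ctm, `Ω = ω₁` of `N`, `E ∈ N` countable, `I ∈ N` a tree graph on the nodes `Nd Ω E` (see FDefs: `(x, y) ∈ I`
means that the nodes `x`, `y`, `x` on the lower level, are incomparable). Let `e(i, k)`, `i < Ω`, `k < n`, be nodes,
`e(i,k) ≠ e(j,l)` for `i ≠ j`, such that for all `i ≠ j` there are `k, l < n` such that `e(i, k)` and `e(j, l)` lie on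
different levels and are comparable. Then there is an unbounded chain in `N`.

FACTS. For `β < Ω` the set of the nodes of level `≤ β` is countable in `N` (`β` and `E` are countable: `Ctb.prod`).
A subset of `Ω` is unbounded iff it is not countable in `N` (`ctb_iff_bdd`, Tk5). Pigeonhole: `ctb_fibre` (Tk4).

PROOF. 1. Fix `i < Ω`. Let `β < Ω` be a bound of the levels of the finitely many `e(i, k)` (levels are elements of `Ω`;
 `IsOm1.succ_lt`, a finite maximum). The set of the `j < Ω` such that some `e(j, l)` has level `≤ β` is countable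
 (the map node ↦ the unique `j` with node `= e(j, l)` for some `l` is defined on a countable set: `Ctb.image`), so it
 is bounded in `Ω`. For all other `j ≠ i` there are `k, l < n` with `Bel (e(i,k)) (e(j,l))`, `(e(i,k), e(j,l)) ∉ I`
 (the other alternative is impossible because of the levels: use transitivity of `Ω` and of ordinals).
 The set of these `j` contains `Ω \ γ` for some `γ < Ω`, so it is in the uniform ultrafilter `U` of `exists_ult`.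
 Put `X(i,k,l) := {j : Bel (e(i,k)) (e(j,l)), (e(i,k), e(j,l)) ∉ I} ∈ N`. There are `k, l < n` with `X(i,k,l) ∈ U`:
 otherwise all the complements are in `U` and so is their finite intersection with `Ω \ γ` (induction on the
 number of pairs `(k, l)`), which is nonempty: contradiction.
2. Choose `i ↦ (k_i, l_i)` in `N` (`exists_choice`, Tk1); by `ctb_fibre` there is an uncountable `B ⊆ Ω` on which
 `(k_i, l_i) = (k, l)` is constant. Let `C = {e(i, k) : i ∈ B} ∈ N`. For `x = e(i,k)`, `y = e(i',k)` in `C` with `Bel x y`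
 take `j ∈ X(i,k,l) ∩ X(i',k,l)` (in `U`, so nonempty) and `z = e(j, l)`: `Bel x z`, `Bel y z`, `(x, z) ∉ I`,
 `(y, z) ∉ I`, so `(x, y) ∉ I` by `TG`. `C` is uncountable (`i ↦ e(i,k)` is injective), so its levels are unbounded:
 otherwise `C` is contained in the countable set of the nodes of level `≤ β`. So `Chn Ω E I C`.
-/

set_option autoImplicit false
set_option linter.unusedVariables false
set_option linter.unusedSectionVars false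
set_option linter.unusedSimpArgs false
set_option linter.unusedTactic false
set_option linter.unreachableTactic false

open Pool.Agent.H17.Omega Pool.Agent.H17.Omega.CTM Pool.Agent.H52.GC Pool.Agent.H7.IG

namespace Pool.Agent.H17.CF

theorem bmr2_lv {N : Set ZFSet.{0}} (hN : CTM N) {Ω : Ordinal.{0}} (hΩ : Ω.toZFSet ∈ N) : LvZ Ω ∈ N :=
  hN.sep_mem (p := fun a => omZ ⊆ a) (Dfn.subset (s := fun _ => (⟨omZ, hN.omZ_mem⟩ : N)) (DT.const _)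
    (DT.var _)) hΩ

theorem bmr2_nd {N : Set ZFSet.{0}} (hN : CTM N) {Ω : Ordinal.{0}} (hΩ : Ω.toZFSet ∈ N) {E : ZFSet.{0}}
    (hE : E ∈ N) : Nd Ω E ∈ N := hN.prod_mem (bmr2_lv hN hΩ) hE

/-- The comparability relation of `e(i, k)` and `e(j, l)`. -/
def XX2 (e I i k l j : ZFSet.{0}) : Prop :=
  ∃ a m b n, ZFSet.pair (ZFSet.pair i k) (ZFSet.pair a m) ∈ e ∧ ZFSet.pair (ZFSet.pair j l) (ZFSet.pair b n) ∈ e ∧
    a ∈ b ∧ ZFSet.pair (ZFSet.pair a m) (ZFSet.pair b n) ∉ I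

theorem XX2_dfn {N : Set ZFSet.{0}} {hN : CTM N} {e I : ZFSet.{0}} (he : e ∈ N) (hI : I ∈ N) :
    hN.Dfn (fun v : Fin 4 → N => XX2 e I (v 0).1 (v 1).1 (v 2).1 (v 3).1) := by
  have h : hN.Dfn (fun v : Fin 4 → N => ∃ a m b n : N,
      ZFSet.pair (ZFSet.pair (v 0).1 (v 1).1) (ZFSet.pair a.1 m.1) ∈ (⟨e, he⟩ : N).1 ∧
      ZFSet.pair (ZFSet.pair (v 3).1 (v 2).1) (ZFSet.pair b.1 n.1) ∈ (⟨e, he⟩ : N).1 ∧
      a.1 ∈ b.1 ∧ ¬ ZFSet.pair (ZFSet.pair a.1 m.1) (ZFSet.pair b.1 n.1) ∈ (⟨I, hI⟩ : N).1) := by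
    refine Dfn.ex (Dfn.ex (Dfn.ex (Dfn.ex (Dfn.and ?_ (Dfn.and ?_ (Dfn.and ?_ (Dfn.not ?_)))))))
    · exact Df.mem (PD.pair (PD.pair (PD.var _) (PD.var _)) (PD.pair (PD.var _) (PD.var _))) (PD.const he)
    · exact Df.mem (PD.pair (PD.pair (PD.var _) (PD.var _)) (PD.pair (PD.var _) (PD.var _))) (PD.const he)
    · exact Dfn.mem (DT.var _) (DT.var _)
    · exact Df.mem (PD.pair (PD.pair (PD.var _) (PD.var _)) (PD.pair (PD.var _) (PD.var _))) (PD.const hI)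
  refine h.congr fun v => ?_
  constructor
  · rintro ⟨a, m, b, n, h1, h2, h3, h4⟩
    exact ⟨a.1, m.1, b.1, n.1, h1, h2, h3, h4⟩
  · rintro ⟨a, m, b, n, h1, h2, h3, h4⟩
    have h5 := hN.of_pair_mem (hN.of_pair_mem (hN.mem_of_mem he h1)).2
    have h6 := hN.of_pair_mem (hN.of_pair_mem (hN.mem_of_mem he h2)).2
    exact ⟨⟨a, h5.1⟩, ⟨m, h5.2⟩, ⟨b, h6.1⟩, ⟨n, h6.2⟩, h1, h2, h3, h4⟩

theorem bmr2 {N : Set ZFSet.{0}} (hN : CTM N) {Ω : Ordinal.{0}} (hΩ : IsOm1 N Ω) {E I : ZFSet.{0}} (hE : E ∈ N)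
    (hEc : Ctb N E) (hI : I ∈ N) (hT : TG Ω E I) {n : ℕ} {e : ZFSet.{0}} (he : e ∈ N)
    (hfn : Fn e (ZFSet.prod Ω.toZFSet (natZ n)) (Nd Ω E))
    (hinj : ∀ i ∈ Ω.toZFSet, ∀ j ∈ Ω.toZFSet, i ≠ j → ∀ k ∈ natZ n, ∀ l ∈ natZ n,
        ap e (ZFSet.pair i k) ≠ ap e (ZFSet.pair j l))
    (hbad : ∀ i ∈ Ω.toZFSet, ∀ j ∈ Ω.toZFSet, i ≠ j → ∃ k ∈ natZ n, ∃ l ∈ natZ n,
        (Bel (ap e (ZFSet.pair i k)) (ap e (ZFSet.pair j l)) ∧
          ZFSet.pair (ap e (ZFSet.pair i k)) (ap e (ZFSet.pair j l)) ∉ I) ∨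
        (Bel (ap e (ZFSet.pair j l)) (ap e (ZFSet.pair i k)) ∧
          ZFSet.pair (ap e (ZFSet.pair j l)) (ap e (ZFSet.pair i k)) ∉ I)) :
    ∃ C ∈ N, Chn Ω E I C := by
  classical
  obtain ⟨U, hUN, hUs, hUult, hUi, hUup, hUunb, hUc⟩ := exists_ult hN hΩ
  have hΩN := hΩ.mem
  have hNd := bmr2_nd hN hΩN hE
  have hnN : natZ n ∈ N := hN.mem_of_mem hN.omZ_mem (natZ_mem_omZ n)
  -- elements of `Ω` and values of `e`
  have hval : ∀ i ∈ Ω.toZFSet, ∀ k ∈ natZ n, ∃ a ∈ Ω.toZFSet, ∃ m, omZ ⊆ a ∧ m ∈ E ∧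
      ap e (ZFSet.pair i k) = ZFSet.pair a m ∧ ZFSet.pair (ZFSet.pair i k) (ZFSet.pair a m) ∈ e := by
    intro i hi k hk
    have h1 := hfn.ap_mem (ZFSet.pair_mem_prod.2 ⟨hi, hk⟩)
    obtain ⟨a, ha, m, hm, h2⟩ := ZFSet.mem_prod.1 h1.1
    have h3 := ZFSet.mem_sep.1 ha
    refine ⟨a, h3.1, m, h3.2, hm, h2, ?_⟩
    rw [← h2]
    exact h1.2
  have hsub : ∀ i k x, ZFSet.pair (ZFSet.pair i k) x ∈ e → i ∈ Ω.toZFSet ∧ k ∈ natZ n ∧ x ∈ Nd Ω E ∧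
      ap e (ZFSet.pair i k) = x := by
    intro i k x hx
    obtain ⟨w, hw, y, hy, h1⟩ := hfn.sub _ hx
    obtain ⟨rfl, rfl⟩ := ZFSet.pair_inj.1 h1
    have h2 := ZFSet.pair_mem_prod.1 hw
    exact ⟨h2.1, h2.2, hy, hfn.ap_eq hx⟩
  have hXXi : ∀ i ∈ Ω.toZFSet, ∀ j ∈ Ω.toZFSet, ∀ k ∈ natZ n, ∀ l ∈ natZ n,
      Bel (ap e (ZFSet.pair i k)) (ap e (ZFSet.pair j l)) →
      ZFSet.pair (ap e (ZFSet.pair i k)) (ap e (ZFSet.pair j l)) ∉ I → XX2 e I i k l j := by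
    intro i hi j hj k hk l hl hb hn
    obtain ⟨a, ha, m, -, -, h1, h2⟩ := hval i hi k hk
    obtain ⟨b, hb', m', -, -, h3, h4⟩ := hval j hj l hl
    rw [h1, h3] at hb hn
    obtain ⟨a1, m1, b1, n1, h5, h6, h7⟩ := hb
    obtain ⟨rfl, rfl⟩ := ZFSet.pair_inj.1 h5
    obtain ⟨rfl, rfl⟩ := ZFSet.pair_inj.1 h6
    exact ⟨a, m, b, m', h2, h4, h7, hn⟩
  -- the sets `X(i, k, l)`
  have hX : ∀ i k l : N, ∃ X ∈ N, ∀ j, j ∈ X ↔ j ∈ Ω.toZFSet ∧ XX2 e I i.1 k.1 l.1 j := by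
    intro i k l
    obtain ⟨X, hXN, hX⟩ := hN.exists_sep (P := fun j => XX2 e I i.1 k.1 l.1 j.1)
      (substC (XX2_dfn (hN := hN) he hI) (t := ![fun _ => i, fun _ => k, fun _ => l, fun v => v 0]) (by
        intro q
        fin_cases q
        · exact DT.const _
        · exact DT.const _
        · exact DT.const _
        · exact DT.var _)) hΩN
    refine ⟨X, hXN, fun j => ?_⟩
    rw [hX]
    exact ⟨fun h => ⟨h.1, h.2.2⟩, fun h => ⟨h.1, hN.mem_of_mem hΩN h.1, h.2⟩⟩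
  have hmono : ∀ {x y : ZFSet.{0}} {β : Ordinal.{0}}, x ∈ y → y ∈ β.toZFSet → x ∈ β.toZFSet := by
    intro x y β hxy hy
    obtain ⟨b, hb, rfl⟩ := Ordinal.mem_toZFSet_iff.1 hy
    obtain ⟨a, ha, rfl⟩ := Ordinal.mem_toZFSet_iff.1 hxy
    exact Ordinal.mem_toZFSet_iff.2 ⟨a, ha.trans hb, rfl⟩
  -- step 1
  have step1 : ∀ i ∈ Ω.toZFSet, ∃ k ∈ natZ n, ∃ l ∈ natZ n, ∃ X ∈ U,
      ∀ j, j ∈ X ↔ j ∈ Ω.toZFSet ∧ XX2 e I i k l j := by
    intro i hi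
    have hiN := hN.mem_of_mem hΩN hi
    -- bound of the levels
    have hch : ∀ k : ℕ, ∃ a : ZFSet.{0}, a ∈ Ω.toZFSet ∧ (k < n → ∃ m, ap e (ZFSet.pair i (natZ k)) = ZFSet.pair a m) := by
      intro k
      by_cases hk : k < n
      · obtain ⟨a, ha, m, -, -, h1, -⟩ := hval i hi (natZ k) (natZ_mem.2 hk)
        exact ⟨a, ha, fun _ => ⟨m, h1⟩⟩
      · exact ⟨i, hi, fun h => absurd h hk⟩
    choose a ha ha' using hch
    obtain ⟨β, hβ, hβ'⟩ := tk5_finset_bdd hN hΩ ((Finset.range n).image a) (by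
      intro z hz
      obtain ⟨k, -, rfl⟩ := Finset.mem_image.1 hz
      exact ha k)
    have hWc : Ctb N (ZFSet.prod β.toZFSet E) := Ctb.prod hN (hΩ.ctb β hβ) hEc
    have hβN : β.toZFSet ∈ N := hN.toZFSet_mem_of_le hβ.le hΩN
    have hWN : ZFSet.prod β.toZFSet E ∈ N := hN.prod_mem hβN hE
    have hFd : hN.Dfn (fun v : Fin 2 → N => ∃ l ∈ natZ n, ZFSet.pair (ZFSet.pair (v 1).1 l) (v 0).1 ∈ e) :=
      Df.bex (P := fun v l => ZFSet.pair (ZFSet.pair (v 1).1 l) (v 0).1 ∈ e) (PD.const hnN)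
        (Df.mem (PD.pair (PD.pair (PD.var _) (PD.var _)) (PD.var _)) (PD.const he))
    obtain ⟨J, hJN, hJ⟩ := hN.exists_sep (P := fun j => ∃ x ∈ ZFSet.prod β.toZFSet E, ∃ l ∈ natZ n,
        ZFSet.pair (ZFSet.pair j.1 l) x ∈ e)
      (Df.bex (P := fun v x => ∃ l ∈ natZ n, ZFSet.pair (ZFSet.pair (v 0).1 l) x ∈ e) (PD.const hWN)
        (Df.bex (P := fun v l => ZFSet.pair (ZFSet.pair (v 0).1 l) (v 1).1 ∈ e) (PD.const hnN)
        (Df.mem (PD.pair (PD.pair (PD.var _) (PD.var _)) (PD.var _)) (PD.const he)))) hΩN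
    have hJc : Ctb N J := by
      refine Ctb.image hN hWc hWN (F := fun x j => ∃ l ∈ natZ n, ZFSet.pair (ZFSet.pair j.1 l) x.1 ∈ e) hFd ?_ ?_
      · rintro x hx y y' ⟨l, hl, h1⟩ ⟨l', hl', h2⟩
        have h3 := hsub _ _ _ h1
        have h4 := hsub _ _ _ h2
        by_contra hne
        exact hinj y.1 h3.1 y'.1 h4.1 (fun h => hne (Subtype.ext h)) l hl l' hl' (h3.2.2.2.trans h4.2.2.2.symm)
      · intro j hj
        obtain ⟨h1, h2, x, hx, l, hl, h3⟩ := (hJ j).1 hj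
        exact ⟨⟨x, hN.mem_of_mem hWN hx⟩, ⟨j, h2⟩, hx, rfl, l, hl, h3⟩
    obtain ⟨γ₀, hγ₀, hJγ⟩ := om1_bdd hN hΩ hJN hJc (fun j hj => ((hJ j).1 hj).1)
    obtain ⟨ι, hι, rfl⟩ := Ordinal.mem_toZFSet_iff.1 hi
    have hγ : max γ₀ (ι + 1) < Ω := max_lt hγ₀ (hΩ.succ_lt hN hι)
    -- far away
    have far : ∀ j ∈ Ω.toZFSet \ (max γ₀ (ι + 1)).toZFSet, ∃ k < n, ∃ l < n,
        XX2 e I ι.toZFSet (natZ k) (natZ l) j := by
      intro j hj
      obtain ⟨hjΩ, hjγ⟩ := ZFSet.mem_sdiff.1 hj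
      obtain ⟨η, hη, rfl⟩ := Ordinal.mem_toZFSet_iff.1 hjΩ
      rw [Ordinal.toZFSet_mem_toZFSet_iff, not_lt] at hjγ
      have hne : ι.toZFSet ≠ η.toZFSet := by
        intro h
        rw [Ordinal.toZFSet_injective.eq_iff] at h
        rw [← h] at hjγ
        exact absurd (lt_of_lt_of_le (lt_add_one ι) ((le_max_right _ _).trans hjγ)) (lt_irrefl _)
      have hnJ : η.toZFSet ∉ J := by
        intro h
        have := hJγ h
        rw [Ordinal.toZFSet_mem_toZFSet_iff] at this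
        exact absurd (this.trans_le ((le_max_left _ _).trans hjγ)) (lt_irrefl _)
      obtain ⟨k, hk, l, hl, h | h⟩ := hbad _ hi _ hjΩ hne
      · obtain ⟨k, hk', rfl⟩ := mem_natZ.1 hk
        obtain ⟨l, hl', rfl⟩ := mem_natZ.1 hl
        exact ⟨k, hk', l, hl', hXXi _ hi _ hjΩ _ hk _ hl h.1 h.2⟩
      · exfalso
        obtain ⟨k, hk', rfl⟩ := mem_natZ.1 hk
        obtain ⟨m, hm⟩ := ha' k hk'
        obtain ⟨b, hb, m', -, hm', h3, h4⟩ := hval _ hjΩ l hl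
        obtain ⟨a1, m1, b1, n1, h5, h6, h7⟩ := h.1
        rw [h3] at h5
        rw [hm] at h6
        obtain ⟨rfl, rfl⟩ := ZFSet.pair_inj.1 h5
        obtain ⟨rfl, rfl⟩ := ZFSet.pair_inj.1 h6
        have h8 : a k ∈ β.toZFSet := hβ' _ (Finset.mem_image.2 ⟨k, Finset.mem_range.2 hk', rfl⟩)
        exact hnJ ((hJ _).2 ⟨hjΩ, hN.mem_of_mem hΩN hjΩ, ZFSet.pair b m',
          ZFSet.pair_mem_prod.2 ⟨hmono h7 h8, hm'⟩, l, hl, h4⟩)
    -- some `X(i,k,l)` is in `U`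
    by_contra hcon
    push Not at hcon
    have key : ∀ s : Finset (ℕ × ℕ), (∀ q ∈ s, q.1 < n ∧ q.2 < n) → ∃ Z ∈ U,
        Z ⊆ Ω.toZFSet \ (max γ₀ (ι + 1)).toZFSet ∧
        ∀ q ∈ s, ∀ j ∈ Z, ¬ XX2 e I ι.toZFSet (natZ q.1) (natZ q.2) j := by
      intro s
      induction s using Finset.induction_on with
      | empty => exact fun _ => ⟨_, hUc _ hγ, fun x hx => hx, fun q hq => absurd hq (Finset.notMem_empty q)⟩
      | insert q s hqs ih =>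
        intro hs
        obtain ⟨Z, hZU, hZ, hZ'⟩ := ih fun r hr => hs r (Finset.mem_insert_of_mem hr)
        have hq := hs q (Finset.mem_insert_self _ _)
        have hk1 : natZ q.1 ∈ natZ n := natZ_mem.2 hq.1
        have hl1 : natZ q.2 ∈ natZ n := natZ_mem.2 hq.2
        obtain ⟨X, hXN, hX'⟩ := hX ⟨_, hiN⟩ ⟨_, hN.mem_of_mem hnN hk1⟩ ⟨_, hN.mem_of_mem hnN hl1⟩
        have hXU : X ∉ U := by
          intro h
          obtain ⟨j, hj⟩ := hcon _ hk1 _ hl1 X h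
          rcases hj with ⟨h1, h2⟩ | ⟨h1, h2⟩
          · have h3 := (hX' j).1 h1
            exact h2 h3.1 h3.2
          · exact h1 ((hX' j).2 h2)
        have hcU : Ω.toZFSet \ X ∈ U := by
          rcases hUult X hXN (fun j hj => ((hX' j).1 hj).1) with h | h
          · exact absurd h hXU
          · exact h
        refine ⟨Z ∩ (Ω.toZFSet \ X), hUi _ hZU _ hcU, fun j hj => hZ (ZFSet.mem_inter.1 hj).1, ?_⟩
        intro r hr j hj
        obtain ⟨hjZ, hjX⟩ := ZFSet.mem_inter.1 hj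
        rcases Finset.mem_insert.1 hr with rfl | hr
        · obtain ⟨h1, h2⟩ := ZFSet.mem_sdiff.1 hjX
          exact fun h3 => h2 ((hX' j).2 ⟨h1, h3⟩)
        · exact hZ' r hr j hjZ
    obtain ⟨Z, hZU, hZ, hZ'⟩ := key ((Finset.range n) ×ˢ (Finset.range n)) (by
      intro q hq
      obtain ⟨h1, h2⟩ := Finset.mem_product.1 hq
      exact ⟨Finset.mem_range.1 h1, Finset.mem_range.1 h2⟩)
    obtain ⟨j, hj, -, hjZ⟩ := hUunb Z hZU 0 (by
      have := hΩ.omega_lt hN 0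
      simpa using this)
    obtain ⟨k, hk, l, hl, hXX⟩ := far _ (hZ hjZ)
    exact hZ' (k, l) (Finset.mem_product.2 ⟨Finset.mem_range.2 hk, Finset.mem_range.2 hl⟩) _ hjZ hXX
  -- step 2
  have hFd : hN.Dfn (fun v : Fin 2 → N => ∃ k ∈ natZ n, ∃ l ∈ natZ n, ∃ X ∈ U, (v 1).1 = ZFSet.pair k l ∧
      ∀ j : N, j.1 ∈ X ↔ (j.1 ∈ Ω.toZFSet ∧ XX2 e I (v 0).1 k l j.1)) := by
    refine Df.bex (P := fun v k => ∃ l ∈ natZ n, ∃ X ∈ U, (v 1).1 = ZFSet.pair k l ∧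
      ∀ j : N, j.1 ∈ X ↔ (j.1 ∈ Ω.toZFSet ∧ XX2 e I (v 0).1 k l j.1)) (PD.const hnN) ?_
    refine Df.bex (P := fun v l => ∃ X ∈ U, (v 1).1 = ZFSet.pair (v 2).1 l ∧
      ∀ j : N, j.1 ∈ X ↔ (j.1 ∈ Ω.toZFSet ∧ XX2 e I (v 0).1 (v 2).1 l j.1)) (PD.const hnN) ?_
    refine Df.bex (P := fun v X => (v 1).1 = ZFSet.pair (v 2).1 (v 3).1 ∧
      ∀ j : N, j.1 ∈ X ↔ (j.1 ∈ Ω.toZFSet ∧ XX2 e I (v 0).1 (v 2).1 (v 3).1 j.1)) (PD.const hUN) ?_
    refine Dfn.and (Df.eq (PD.var _) (PD.pair (PD.var _) (PD.var _))) (Dfn.all (Dfn.iff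
      (Dfn.mem (DT.var _) (DT.var _)) (Dfn.and (Df.mem (PD.var _) (PD.const hΩN)) ?_)))
    exact reidxC (XX2_dfn (hN := hN) he hI) ![0, 2, 3, 5]
  obtain ⟨f, hf, hffn, hfF⟩ := exists_choice (hN := hN) (F := fun i w => ∃ k ∈ natZ n, ∃ l ∈ natZ n, ∃ X ∈ U,
      w.1 = ZFSet.pair k l ∧ ∀ j : N, j.1 ∈ X ↔ (j.1 ∈ Ω.toZFSet ∧ XX2 e I i.1 k l j.1)) hFd hΩN
      (hN.prod_mem hnN hnN) (by
    intro i hi
    obtain ⟨k, hk, l, hl, X, hXU, hX'⟩ := step1 i.1 hi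
    exact ⟨⟨ZFSet.pair k l, hN.pair_mem (hN.mem_of_mem hnN hk) (hN.mem_of_mem hnN hl)⟩,
      ZFSet.pair_mem_prod.2 ⟨hk, hl⟩, k, hk, l, hl, X, hXU, rfl, fun j => hX' j.1⟩)
  have hnc : Ctb N (natZ n) := (ctb_om hN).mono (by
    intro x hx
    obtain ⟨m, -, rfl⟩ := mem_natZ.1 hx
    exact natZ_mem_omZ m)
  obtain ⟨y, hy, hyu⟩ := ctb_fibre hN hΩN (hN.prod_mem hnN hnN) hf hffn (Ctb.prod hN hnc hnc) hΩ.unc
  obtain ⟨k, hk, l, hl, rfl⟩ := ZFSet.mem_prod.1 hy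
  set B := ZFSet.sep (fun x => ZFSet.pair x (ZFSet.pair k l) ∈ f) Ω.toZFSet with hBdef
  have hkN := hN.mem_of_mem hnN hk
  have hlN := hN.mem_of_mem hnN hl
  have hBN : B ∈ N := hN.sep_mem (p := fun x => ZFSet.pair x (ZFSet.pair k l) ∈ f)
    (Df.mem (PD.pair (PD.var _) (PD.pair (PD.const hkN) (PD.const hlN))) (PD.const hf)) hΩN
  have hB : ∀ i ∈ B, i ∈ Ω.toZFSet ∧ ∃ X ∈ U, ∀ j ∈ X, XX2 e I i k l j := by
    intro i hi
    obtain ⟨h1, h2⟩ := ZFSet.mem_sep.1 hi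
    refine ⟨h1, ?_⟩
    obtain ⟨k', hk', l', hl', X, hXU, h3, h4⟩ := hfF ⟨i, hN.mem_of_mem hΩN h1⟩
      ⟨ZFSet.pair k l, hN.pair_mem hkN hlN⟩ h2
    obtain ⟨rfl, rfl⟩ := ZFSet.pair_inj.1 h3
    refine ⟨X, hXU, fun j hj => ?_⟩
    exact ((h4 ⟨j, hN.mem_of_mem (hN.mem_of_mem hUN hXU) hj⟩).1 hj).2
  obtain ⟨C, hCN, hC⟩ := hN.exists_sep (P := fun x => ∃ i ∈ B, ZFSet.pair (ZFSet.pair i k) x.1 ∈ e)
    (Df.bex (P := fun v i => ZFSet.pair (ZFSet.pair i k) (v 0).1 ∈ e) (PD.const hBN)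
      (Df.mem (PD.pair (PD.pair (PD.var _) (PD.const hkN)) (PD.var _)) (PD.const he))) hNd
  refine ⟨C, hCN, fun x hx => ((hC x).1 hx).1, ?_, ?_⟩
  · intro x hx y hy hb hxy
    obtain ⟨hxN, _, i, hi, hix⟩ := (hC x).1 hx
    obtain ⟨hyN, _, i', hi', hiy⟩ := (hC y).1 hy
    obtain ⟨hiΩ, X, hXU, hXX⟩ := hB i hi
    obtain ⟨hiΩ', X', hXU', hXX'⟩ := hB i' hi'
    obtain ⟨j, hj, -, hjX⟩ := hUunb _ (hUi X hXU X' hXU') 0 (by
      have := hΩ.omega_lt hN 0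
      simpa using this)
    obtain ⟨hj1, hj2⟩ := ZFSet.mem_inter.1 hjX
    obtain ⟨a, m, b, m', h1, h2, h3, h4⟩ := hXX _ hj1
    obtain ⟨a', m1, b', m1', h1', h2', h3', h4'⟩ := hXX' _ hj2
    have e1 := (hsub _ _ _ h1).2.2.2.symm.trans (hsub _ _ _ hix).2.2.2
    have e2 : ZFSet.pair a' m1 = y := (hsub _ _ _ h1').2.2.2.symm.trans (hsub _ _ _ hiy).2.2.2
    have e3 := (hsub _ _ _ h2).2.2.2.symm.trans (hsub _ _ _ h2').2.2.2
    rw [e1] at h4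
    rw [e2] at h4'
    rw [← e3] at h4'
    have e4 := ZFSet.pair_inj.1 e3
    rcases hT x hxN y hyN _ (hsub _ _ _ h2).2.2.1 hb (by
      rw [← e2]
      exact ⟨a', m1, b, m', rfl, rfl, by rw [e4.1]; exact h3'⟩) hxy with h | h
    · exact h4 h
    · exact h4' h
  · intro β hβ
    by_contra hcon
    push Not at hcon
    apply hyu
    have hβ1 := hΩ.succ_lt hN hβ
    have hWc : Ctb N (ZFSet.prod (β + 1).toZFSet E) := Ctb.prod hN (hΩ.ctb _ hβ1) hEc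
    have hCW : C ⊆ ZFSet.prod (β + 1).toZFSet E := by
      intro x hx
      obtain ⟨a, ha, m, hm, rfl⟩ := ZFSet.mem_prod.1 ((hC x).1 hx).1
      have h1 := hcon a m hx
      obtain ⟨α, hα, rfl⟩ := Ordinal.mem_toZFSet_iff.1 (ZFSet.mem_sep.1 ha).1
      rw [Ordinal.toZFSet_mem_toZFSet_iff, not_lt] at h1
      refine ZFSet.pair_mem_prod.2 ⟨?_, hm⟩
      rw [Ordinal.toZFSet_mem_toZFSet_iff]
      exact lt_of_le_of_lt h1 (lt_add_one β)
    refine Ctb.image hN (hWc.mono hCW) hCN (F := fun x i => ZFSet.pair (ZFSet.pair i.1 k) x.1 ∈ e)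
      (Df.mem (PD.pair (PD.pair (PD.var _) (PD.const hkN)) (PD.var _)) (PD.const he)) ?_ ?_
    · intro x hx y y' h1 h2
      have h3 := hsub _ _ _ h1
      have h4 := hsub _ _ _ h2
      by_contra hne
      exact hinj y.1 h3.1 y'.1 h4.1 (fun h => hne (Subtype.ext h)) k hk k hk (h3.2.2.2.trans h4.2.2.2.symm)
    · intro i hi
      have hiB : i ∈ B := hi
      have hiΩ := (hB i hiB).1
      obtain ⟨a, ha, m, h1, h2, h3, h4⟩ := hval i hiΩ k hk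
      have hnd : ZFSet.pair a m ∈ Nd Ω E := (hsub _ _ _ h4).2.2.1
      have hxN := hN.mem_of_mem hNd hnd
      exact ⟨⟨_, hxN⟩, ⟨i, hN.mem_of_mem hΩN hiΩ⟩, (hC _).2 ⟨hnd, hxN, i, hiB, h4⟩, rfl, h4⟩

end Pool.Agent.H17.CF
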