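import Pool.Agent.H17.CF.A.Bmr1
import Pool.Agent.H17.CF.A.Bmr2

/-!
# CF-A8: Baumgartner-Malitz-Reinhardt in a ctm
-/

set_option autoImplicit false
set_option linter.unusedVariables false
set_option linter.unusedSectionVars false
set_option linter.unusedSimpArgs false
set_option linter.unusedTactic false
set_option linter.unreachableTactic false

open Pool.Agent.H17.Omega Pool.Agent.H17.Omega.CTM Pool.Agent.H52.GC Pool.Agent.H7.IG

namespace Pool.Agent.H17.CF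

theorem bmr {N : Set ZFSet.{0}} (hN : CTM N) {Ω : Ordinal.{0}} (hΩ : IsOm1 N Ω) {E I : ZFSet.{0}} (hE : E ∈ N)
    (hEc : Ctb N E) (hI : I ∈ N) (hT : TG Ω E I) (hno : ∀ C ∈ N, ¬ Chn Ω E I C)
    {B f : ZFSet.{0}} (hB : B ∈ N) (hBs : B ⊆ Ω.toZFSet) (hBu : ¬ Ctb N B) (hf : f ∈ N)
    (hfn : Fn f B (finS (ZFSet.prod (Nd Ω E) omZ))) (hQ : ∀ i ∈ B, QI Ω E I (ap f i)) :
    ∃ i ∈ B, ∃ j ∈ B, i ≠ j ∧ QI Ω E I (ap f i ∪ ap f j) := by
  by_contra hcon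
  push Not at hcon
  obtain ⟨n, e, he, h1, h2, h3⟩ := bmr1 hN hΩ hE hEc hI hB hBs hBu hf hfn hQ hcon
  obtain ⟨C, hC, hC'⟩ := bmr2 hN hΩ hE hEc hI hT he h1 h2 h3
  exact hno C hC hC'

end Pool.Agent.H17.CF
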