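import Pool.Agent.H17.CF.FDefs
import Pool.Agent.H7.IG.Tk7
import Pool.Agent.H7.IG.Tk1
import Pool.Agent.H7.IG.Tk5

/-!
# CF-A8a: Baumgartner-Malitz-Reinhardt in a ctm, first half (thinning out)

`N` is a ctm, `Ω = ω₁` of `N`, `E ∈ N` countable, `I ∈ N` a set of pairs of nodes of `Nd Ω E` (see FDefs: `(x, y) ∈ I`
means that the nodes `x`, `y`, `x` on the lower level, are incomparable). Let `f_i`, `i ∈ B`, be an uncountable family of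
conditions (finite partial functions from the nodes to `ω` with `QI`) such that no union of two different ones is
a condition.

FACTS. Pigeonhole for functions with countable range: `ctb_fibre` (Tk4). `Δ`-system: `delta_system` (Tk7).
`exists_inj_om1` (Tk5), `exists_choice` (Tk1), `Ctb.fin`.

PROOF. Let `d_i` = the domain of `f_i` (a finite set of nodes).
1. By `delta_system` for `i ↦ d_i` there is an uncountable `B₁ ⊆ B` and a finite `r` with `d_i ∩ d_j = r` for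
 `i ≠ j` in `B₁`. `f_i` restricted to `r` takes countably many values (finite subsets of the countable set `r × ω`,
 `Ctb.fin`), so by `ctb_fibre` we may assume that it does not depend on `i ∈ B₂`. Also the number `n` of the elements
 of `h_i := d_i \ r` does not depend on `i ∈ B₃` (choose in `N`, by `exists_choice`, for each `i` a function `e_i` from
 some natural number `n_i` onto `h_i`; `ctb_fibre` for `i ↦ n_i`).
2. For `i ≠ j` in `B₃`: `f_i ∪ f_j` is single valued (the common part of the domains is `r`, where they agree) and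
 finite, so it fails `QI` only because of `x, y` with the same colour, `Bel x y`, `(x, y) ∉ I`; since `f_i` and `f_j`
 are `QI`, one of `x, y` is in `d_i \ d_j = h_i` and the other in `d_j \ d_i = h_j`.
3. Let `b : Ω → B₃` be injective in `N` (`exists_inj_om1`). Put `e(i, k) := e_{b(i)}(k)`, `k < n`. The sets
 `h_{b(i)}` are pairwise disjoint, which gives the second conclusion. The third one is step 2.
-/

set_option autoImplicit false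
set_option linter.unusedVariables false
set_option linter.unusedSectionVars false
set_option linter.unusedSimpArgs false
set_option linter.unusedTactic false
set_option linter.unreachableTactic false

open Pool.Agent.H17.Omega Pool.Agent.H17.Omega.CTM Pool.Agent.H52.GC Pool.Agent.H7.IG

namespace Pool.Agent.H17.CF

theorem bmr1_fin {N : Set ZFSet.{0}} (hN : CTM N) {X : ZFSet.{0}} (hX : X ∈ N) : finS X ∈ N := by
  obtain ⟨Fi, hFi, hFi'⟩ := exists_fin hN hX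
  have : finS X = Fi := by
    ext a
    rw [mem_finS, hFi']
  rw [this]
  exact hFi

theorem bmr1_finZ_sub {s t : ZFSet.{0}} (hs : FinZ s) (h : t ⊆ s) : FinZ t := by
  classical
  obtain ⟨a, ha⟩ := hs
  refine ⟨a.filter (fun z => z ∈ t), fun z => ?_⟩
  rw [Finset.mem_filter]
  exact ⟨fun hz => ⟨(ha z).1 (h hz), hz⟩, fun hz => hz.2⟩

theorem bmr1_finZ_union {s t : ZFSet.{0}} (hs : FinZ s) (ht : FinZ t) : FinZ (s ∪ t) := by
  classical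
  obtain ⟨a, ha⟩ := hs
  obtain ⟨b, hb⟩ := ht
  refine ⟨a ∪ b, fun z => ?_⟩
  rw [ZFSet.mem_union, Finset.mem_union, ha, hb]

/-- The domain of a set of pairs, in `X`. -/
noncomputable def dmT (X w : ZFSet.{0}) : ZFSet.{0} := ZFSet.sep (fun z => ∃ m ∈ omZ, ZFSet.pair z m ∈ w) X

theorem mem_dmT {X w z : ZFSet.{0}} : z ∈ dmT X w ↔ z ∈ X ∧ ∃ m ∈ omZ, ZFSet.pair z m ∈ w := ZFSet.mem_sep

theorem dmT_fin {X w : ZFSet.{0}} (hw : FinZ w) : FinZ (dmT X w) := by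
  classical
  obtain ⟨s, hs⟩ := hw
  refine bmr1_finZ_sub (s := ZFSet.sep (fun x => x ∈ s.image (fun z => Classical.epsilon (fun x => ∃ m, z = ZFSet.pair x m))) X)
    ⟨(s.image (fun z => Classical.epsilon (fun x => ∃ m, z = ZFSet.pair x m))).filter (fun z => z ∈ X), ?_⟩ ?_
  · intro z
    rw [ZFSet.mem_sep, Finset.mem_filter, and_comm]
  · intro z hz
    obtain ⟨hzX, m, hm, h⟩ := mem_dmT.1 hz
    refine ZFSet.mem_sep.2 ⟨hzX, Finset.mem_image.2 ⟨_, (hs _).1 h, ?_⟩⟩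
    have h1 : ∃ x m', ZFSet.pair z m = ZFSet.pair x m' := ⟨z, m, rfl⟩
    obtain ⟨m', h2⟩ := Classical.epsilon_spec h1
    exact (ZFSet.pair_inj.1 h2).1.symm

theorem PD.dmT {N : Set ZFSet.{0}} {hN : CTM N} {X : ZFSet.{0}} (hX : X ∈ N) {n : ℕ}
    {s : (Fin n → N) → ZFSet.{0}} (hs : PD hN s) : PD hN (fun v => CF.dmT X (s v)) := by
  refine PD.sep (P := fun v z => ∃ m ∈ omZ, ZFSet.pair z m ∈ s v) (PD.const hX) ?_
  exact Df.bex (P := fun v m => ZFSet.pair (v (Fin.last n)).1 m ∈ s (fun i => v i.castSucc))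
    (PD.const hN.omZ_mem) (Df.mem (PD.pair (PD.var _) (PD.var _)) hs.lift.lift)

/-- Enumerations of finite sets in the model. -/
theorem bmr1_onto {N : Set ZFSet.{0}} (hN : CTM N) (s : Finset ZFSet.{0}) : ∀ h : ZFSet.{0},
    (∀ z, z ∈ h ↔ z ∈ s) → (∀ z ∈ h, z ∈ N) → ∃ n : ℕ, ∃ g ∈ N, Onto g (natZ n) h := by
  classical
  induction s using Finset.induction_on with
  | empty =>
    intro h hh hhN
    refine ⟨0, ∅, hN.empty_mem, ⟨⟨?_, ?_, ?_⟩, ?_⟩⟩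
    · intro z hz
      exact absurd hz (ZFSet.notMem_empty z)
    · intro x hx
      obtain ⟨m, hm, -⟩ := mem_natZ.1 hx
      exact absurd hm (Nat.not_lt_zero m)
    · intro x hx
      obtain ⟨m, hm, -⟩ := mem_natZ.1 hx
      exact absurd hm (Nat.not_lt_zero m)
    · intro y hy
      exact absurd ((hh y).1 hy) (Finset.notMem_empty y)
  | insert a s ha ih =>
    intro h hh hhN
    obtain ⟨n, g, hg, ⟨hgf, hgo⟩⟩ := ih (ZFSet.sep (fun z => z ≠ a) h) (by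
      intro z
      rw [ZFSet.mem_sep, hh, Finset.mem_insert]
      constructor
      · rintro ⟨h1 | h1, h2⟩
        · exact absurd h1 h2
        · exact h1
      · intro h1
        exact ⟨Or.inr h1, fun h2 => ha (h2 ▸ h1)⟩) (fun z hz => hhN z (ZFSet.mem_sep.1 hz).1)
    have hah : a ∈ h := (hh a).2 (Finset.mem_insert_self _ _)
    have haN : a ∈ N := hhN a hah
    have hnN : natZ n ∈ N := hN.mem_of_mem hN.omZ_mem (natZ_mem_omZ n)
    have hnn : natZ n ∉ natZ n := fun h1 => ZFSet.mem_irrefl _ h1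
    have hmem : ∀ x, x ∈ natZ (n + 1) ↔ x = natZ n ∨ x ∈ natZ n := by
      intro x
      rw [natZ, ZFSet.mem_insert_iff]
    refine ⟨n + 1, insert (ZFSet.pair (natZ n) a) g, hN.insert_mem (hN.pair_mem hnN haN) hg, ⟨⟨?_, ?_, ?_⟩, ?_⟩⟩
    · intro z hz
      rcases ZFSet.mem_insert_iff.1 hz with rfl | hz
      · exact ⟨natZ n, (hmem _).2 (Or.inl rfl), a, hah, rfl⟩
      · obtain ⟨x, hx, y, hy, h1⟩ := hgf.sub z hz
        exact ⟨x, (hmem _).2 (Or.inr hx), y, (ZFSet.mem_sep.1 hy).1, h1⟩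
    · intro x hx
      rcases (hmem x).1 hx with rfl | hx
      · exact ⟨a, hah, ZFSet.mem_insert_iff.2 (Or.inl rfl)⟩
      · obtain ⟨y, hy, h1⟩ := hgf.tot x hx
        exact ⟨y, (ZFSet.mem_sep.1 hy).1, ZFSet.mem_insert_iff.2 (Or.inr h1)⟩
    · intro x hx y hy y' hy' h1 h2
      have key : ∀ y, ZFSet.pair x y ∈ insert (ZFSet.pair (natZ n) a) g →
          (x = natZ n ∧ y = a) ∨ (x ∈ natZ n ∧ ZFSet.pair x y ∈ g) := by
        intro y h3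
        rcases ZFSet.mem_insert_iff.1 h3 with h3 | h3
        · exact Or.inl (ZFSet.pair_inj.1 h3)
        · obtain ⟨x', hx', y', hy', h4⟩ := hgf.sub _ h3
          rw [(ZFSet.pair_inj.1 h4).1]
          exact Or.inr ⟨hx', (ZFSet.pair_inj.1 h4).1 ▸ h3⟩
      rcases key y h1 with ⟨h3, h4⟩ | ⟨h3, h4⟩ <;> rcases key y' h2 with ⟨h5, h6⟩ | ⟨h5, h6⟩
      · rw [h4, h6]
      · exact absurd (h3 ▸ h5) hnn
      · exact absurd (h5 ▸ h3) hnn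
      · rw [← hgf.ap_eq h4, ← hgf.ap_eq h6]
    · intro y hy
      by_cases hya : y = a
      · exact ⟨natZ n, (hmem _).2 (Or.inl rfl), ZFSet.mem_insert_iff.2 (Or.inl (by rw [hya]))⟩
      · obtain ⟨x, hx, h1⟩ := hgo y (ZFSet.mem_sep.2 ⟨hy, hya⟩)
        exact ⟨x, (hmem _).2 (Or.inr hx), ZFSet.mem_insert_iff.2 (Or.inr h1)⟩

theorem bmr1_dfOnto {N : Set ZFSet.{0}} {hN : CTM N} {n : ℕ} {s t r : (Fin n → N) → ZFSet.{0}}
    (hs : PD hN s) (ht : PD hN t) (hr : PD hN r) : hN.Dfn (fun v => Onto (s v) (t v) (r v)) := by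
  have h : hN.Dfn (fun v : Fin 3 → N => Onto (v 0).1 (v 1).1 (v 2).1) :=
    UD.dfn (𝒞 := CtmC) ud_Onto hN hN
  refine PD.use (P := fun v x => Onto x (t v) (r v)) hs ?_
  refine PD.use (P := fun v y => Onto (v (Fin.last n)).1 y (r (fun i => v i.castSucc))) ht.lift ?_
  refine PD.use (P := fun v z => Onto (v (Fin.last n).castSucc).1 (v (Fin.last (n + 1))).1 z) hr.lift.lift ?_
  exact reidxC (n := n + 3) h ![(Fin.last n).castSucc.castSucc, (Fin.last (n + 1)).castSucc, Fin.last (n + 2)]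

/-- The relation between `i` and its enumeration. -/
def Bm1 (f W PW RO Nn r i w : ZFSet.{0}) : Prop :=
  ∃ u ∈ finS W, ∃ m ∈ omZ, ∃ g ∈ PW, ZFSet.pair i u ∈ f ∧ w = ZFSet.pair (ZFSet.pair (u ∩ RO) m) g ∧
    Onto g m (dmT Nn u \ r)

theorem Bm1_dfn {N : Set ZFSet.{0}} {hN : CTM N} {f W PW RO Nn r : ZFSet.{0}} (hf : f ∈ N) (hW : W ∈ N)
    (hPW : PW ∈ N) (hRO : RO ∈ N) (hNn : Nn ∈ N) (hr : r ∈ N) :
    hN.Dfn (fun v : Fin 2 → N => Bm1 f W PW RO Nn r (v 0).1 (v 1).1) := by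
  refine Df.bex (P := fun v u => ∃ m ∈ omZ, ∃ g ∈ PW, ZFSet.pair (v 0).1 u ∈ f ∧
        (v 1).1 = ZFSet.pair (ZFSet.pair (u ∩ RO) m) g ∧ Onto g m (dmT Nn u \ r)) (PD.const (bmr1_fin hN hW)) ?_
  refine Df.bex (n := 3) (P := fun v m => ∃ g ∈ PW, ZFSet.pair (v 0).1 (v 2).1 ∈ f ∧
        (v 1).1 = ZFSet.pair (ZFSet.pair ((v 2).1 ∩ RO) m) g ∧ Onto g m (dmT Nn (v 2).1 \ r))
        (PD.const hN.omZ_mem) ?_
  refine Df.bex (n := 4) (P := fun v g => ZFSet.pair (v 0).1 (v 2).1 ∈ f ∧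
        (v 1).1 = ZFSet.pair (ZFSet.pair ((v 2).1 ∩ RO) (v 3).1) g ∧ Onto g (v 3).1 (dmT Nn (v 2).1 \ r))
        (PD.const hPW) ?_
  refine Dfn.and (Df.mem (PD.pair (PD.var _) (PD.var _)) (PD.const hf)) (Dfn.and
        (Df.eq (PD.var _) (PD.pair (PD.pair (PD.inter (PD.var _) (PD.const hRO)) (PD.var _)) (PD.var _)))
        (bmr1_dfOnto (PD.var _) (PD.var _) (PD.sdiff (PD.dmT hNn (PD.var _)) (PD.const hr))))

/-- The graph of the final function. -/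
def Bm2 (Z n' B b c y PW w x : ZFSet.{0}) : Prop :=
  ∃ i ∈ Z, ∃ k ∈ n', ∃ j ∈ B, ∃ g ∈ PW, w = ZFSet.pair i k ∧ ZFSet.pair i j ∈ b ∧
    ZFSet.pair j (ZFSet.pair y g) ∈ c ∧ ZFSet.pair k x ∈ g

theorem Bm2_dfn {N : Set ZFSet.{0}} {hN : CTM N} {Z n' B b c y PW : ZFSet.{0}} (hZ : Z ∈ N) (hn : n' ∈ N)
    (hB : B ∈ N) (hb : b ∈ N) (hc : c ∈ N) (hy : y ∈ N) (hPW : PW ∈ N) :
    hN.Dfn (fun v : Fin 2 → N => Bm2 Z n' B b c y PW (v 0).1 (v 1).1) := by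
  refine Df.bex (P := fun v i => ∃ k ∈ n', ∃ j ∈ B, ∃ g ∈ PW, (v 0).1 = ZFSet.pair i k ∧ ZFSet.pair i j ∈ b ∧
      ZFSet.pair j (ZFSet.pair y g) ∈ c ∧ ZFSet.pair k (v 1).1 ∈ g) (PD.const hZ) ?_
  refine Df.bex (n := 3) (P := fun v k => ∃ j ∈ B, ∃ g ∈ PW, (v 0).1 = ZFSet.pair (v 2).1 k ∧ ZFSet.pair (v 2).1 j ∈ b ∧
      ZFSet.pair j (ZFSet.pair y g) ∈ c ∧ ZFSet.pair k (v 1).1 ∈ g) (PD.const hn) ?_
  refine Df.bex (n := 4) (P := fun v j => ∃ g ∈ PW, (v 0).1 = ZFSet.pair (v 2).1 (v 3).1 ∧ ZFSet.pair (v 2).1 j ∈ b ∧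
      ZFSet.pair j (ZFSet.pair y g) ∈ c ∧ ZFSet.pair (v 3).1 (v 1).1 ∈ g) (PD.const hB) ?_
  refine Df.bex (n := 5) (P := fun v g => (v 0).1 = ZFSet.pair (v 2).1 (v 3).1 ∧ ZFSet.pair (v 2).1 (v 4).1 ∈ b ∧
      ZFSet.pair (v 4).1 (ZFSet.pair y g) ∈ c ∧ ZFSet.pair (v 3).1 (v 1).1 ∈ g) (PD.const hPW) ?_
  exact Dfn.and (Df.eq (PD.var _) (PD.pair (PD.var _) (PD.var _))) (Dfn.and
      (Df.mem (PD.pair (PD.var _) (PD.var _)) (PD.const hb)) (Dfn.and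
      (Df.mem (PD.pair (PD.var _) (PD.pair (PD.const hy) (PD.var _))) (PD.const hc))
      (Df.mem (PD.pair (PD.var _) (PD.var _)) (PD.var _))))

theorem bmr1_nd {N : Set ZFSet.{0}} (hN : CTM N) {Ω : Ordinal.{0}} (hΩ : Ω.toZFSet ∈ N) {E : ZFSet.{0}}
    (hE : E ∈ N) : Nd Ω E ∈ N :=
  hN.prod_mem (hN.sep_mem (p := fun a => omZ ⊆ a) (Dfn.subset (s := fun _ => (⟨omZ, hN.omZ_mem⟩ : N)) (DT.const _)
    (DT.var _)) hΩ) hE

theorem bmr1 {N : Set ZFSet.{0}} (hN : CTM N) {Ω : Ordinal.{0}} (hΩ : IsOm1 N Ω) {E I : ZFSet.{0}} (hE : E ∈ N)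
    (hEc : Ctb N E) (hI : I ∈ N) {B f : ZFSet.{0}} (hB : B ∈ N) (hBs : B ⊆ Ω.toZFSet) (hBu : ¬ Ctb N B)
    (hf : f ∈ N) (hfn : Fn f B (finS (ZFSet.prod (Nd Ω E) omZ))) (hQ : ∀ i ∈ B, QI Ω E I (ap f i))
    (hbad : ∀ i ∈ B, ∀ j ∈ B, i ≠ j → ¬ QI Ω E I (ap f i ∪ ap f j)) :
    ∃ n : ℕ, ∃ e ∈ N, Fn e (ZFSet.prod Ω.toZFSet (natZ n)) (Nd Ω E) ∧
      (∀ i ∈ Ω.toZFSet, ∀ j ∈ Ω.toZFSet, i ≠ j → ∀ k ∈ natZ n, ∀ l ∈ natZ n,
        ap e (ZFSet.pair i k) ≠ ap e (ZFSet.pair j l)) ∧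
      ∀ i ∈ Ω.toZFSet, ∀ j ∈ Ω.toZFSet, i ≠ j → ∃ k ∈ natZ n, ∃ l ∈ natZ n,
        (Bel (ap e (ZFSet.pair i k)) (ap e (ZFSet.pair j l)) ∧
          ZFSet.pair (ap e (ZFSet.pair i k)) (ap e (ZFSet.pair j l)) ∉ I) ∨
        (Bel (ap e (ZFSet.pair j l)) (ap e (ZFSet.pair i k)) ∧
          ZFSet.pair (ap e (ZFSet.pair j l)) (ap e (ZFSet.pair i k)) ∉ I) := by
  classical
  have hΩN := hΩ.mem
  have hNd : Nd Ω E ∈ N := bmr1_nd hN hΩN hE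
  set W := ZFSet.prod (Nd Ω E) omZ with hW
  have hWN : W ∈ N := hN.prod_mem hNd hN.omZ_mem
  have hFS : finS W ∈ N := bmr1_fin hN hWN
  have hFD : finS (Nd Ω E) ∈ N := bmr1_fin hN hNd
  have hapB : ∀ i ∈ B, ap f i ∈ finS W ∧ ZFSet.pair i (ap f i) ∈ f := fun i hi => hfn.ap_mem hi
  have hdm : ∀ i ∈ B, ∀ x m, ZFSet.pair x m ∈ ap f i → x ∈ dmT (Nd Ω E) (ap f i) ∧ x ∈ Nd Ω E ∧ m ∈ omZ := by
    intro i hi x m hx
    have h1 := (mem_finS.1 (hapB i hi).1).1 hx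
    rw [hW, ZFSet.pair_mem_prod] at h1
    exact ⟨mem_dmT.2 ⟨h1.1, m, h1.2, hx⟩, h1.1, h1.2⟩
  -- the domains
  obtain ⟨d, hd, hdfn, hd'⟩ := exists_fn (hN := hN) (F := fun i y => ∃ w ∈ finS W, ZFSet.pair i.1 w ∈ f ∧
      y.1 = dmT (Nd Ω E) w)
    (Df.bex (P := fun v w => ZFSet.pair (v 0).1 w ∈ f ∧ (v 1).1 = dmT (Nd Ω E) w) (PD.const hFS)
      (Dfn.and (Df.mem (PD.pair (PD.var _) (PD.var _)) (PD.const hf))
        (Df.eq (PD.var _) (PD.dmT hNd (PD.var _))))) hB hFD (by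
    intro i hi
    have h1 := hapB i.1 hi
    have h2 : dmT (Nd Ω E) (ap f i.1) ∈ finS (Nd Ω E) :=
      mem_finS.2 ⟨fun z hz => (mem_dmT.1 hz).1, dmT_fin (mem_finS.1 h1.1).2⟩
    refine ⟨⟨_, hN.mem_of_mem hFD h2⟩, h2, ⟨_, h1.1, h1.2, rfl⟩, ?_⟩
    rintro y' - ⟨w, hw, h3, h4⟩
    apply Subtype.ext
    rw [h4, ← hfn.ap_eq h3])
  have hapd : ∀ i ∈ B, ap d i = dmT (Nd Ω E) (ap f i) := by
    intro i hi
    have h1 := hdfn.ap_mem hi
    obtain ⟨-, -, w, hw, h3, h4⟩ := (hd' ⟨i, hN.mem_of_mem hB hi⟩ ⟨_, hN.mem_of_mem hFD h1.1⟩).1 h1.2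
    have h5 : ap d i = dmT (Nd Ω E) w := h4
    have h6 : ap f i = w := hfn.ap_eq h3
    rw [h5, h6]
  obtain ⟨B₁, hB₁N, hB₁, hB₁u, r, hr, hr'⟩ := delta_system hN hB hFD hd hdfn
    (fun c hc => (mem_finS.1 hc).2) hBu
  have hrN : r ∈ N ∧ r ⊆ Nd Ω E := by
    obtain ⟨a, ha⟩ := tk7_ne hN hB₁u
    have : ∃ b ∈ B₁, a ≠ b := by
      by_contra hcon
      push Not at hcon
      have haN := hN.mem_of_mem hB₁N ha
      refine hB₁u ((tk7_fin_ctb hN (hN.singleton_mem haN) ⟨{a}, fun z => by simp⟩).mono ?_)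
      intro b hb
      rw [ZFSet.mem_singleton]
      exact (hcon b hb).symm
    obtain ⟨b, hb, hab⟩ := this
    have h1 := hr' a ha b hb hab
    have h2 : r ⊆ Nd Ω E := by
      intro z hz
      rw [← h1] at hz
      have := (ZFSet.mem_inter.1 hz).1
      rw [hapd a (hB₁ ha)] at this
      exact (mem_dmT.1 this).1
    exact ⟨FinZ.mem hN (X := r) hr (fun z hz => hN.mem_of_mem hNd (h2 hz)), h2⟩
  set RO := ZFSet.prod r omZ with hRO
  have hRON : RO ∈ N := hN.prod_mem hrN.1 hN.omZ_mem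
  have hROc : Ctb N RO := Ctb.prod hN (tk7_fin_ctb hN hrN.1 hr) (ctb_om hN)
  have hFR : finS RO ∈ N := bmr1_fin hN hRON
  have hFRc : Ctb N (finS RO) := Ctb.fin hN hROc (fun y hy => mem_finS.1 hy)
  obtain ⟨PW, hPW, hPW'⟩ := hN.exists_pow (hN.prod_mem hN.omZ_mem hNd)
  -- the choice of the enumerations
  have hY : ZFSet.prod (finS RO) omZ ∈ N := hN.prod_mem hFR hN.omZ_mem
  obtain ⟨c, hc, hcfn, hc'⟩ := exists_choice (hN := hN) (F := fun i w => Bm1 f W PW RO (Nd Ω E) r i.1 w.1)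
    (Bm1_dfn hf hWN hPW hRON hNd hrN.1) hB₁N (hN.prod_mem hY hPW) (by
    intro i hi
    have h1 := hapB i.1 (hB₁ hi)
    have h2 := mem_finS.1 h1.1
    have hff : FinZ (dmT (Nd Ω E) (ap f i.1) \ r) :=
      bmr1_finZ_sub (dmT_fin h2.2) (fun z hz => (ZFSet.mem_sdiff.1 hz).1)
    obtain ⟨s, hs⟩ := hff
    obtain ⟨m, g, hg, hgo⟩ := bmr1_onto hN s _ hs (fun z hz => hN.mem_of_mem hNd
      (mem_dmT.1 (ZFSet.mem_sdiff.1 hz).1).1)
    have hgP : g ∈ PW := by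
      refine (hPW' g).2 ⟨hg, ?_⟩
      intro z hz
      obtain ⟨x, hx, y, hy, rfl⟩ := hgo.1.sub z hz
      refine ZFSet.pair_mem_prod.2 ⟨?_, (mem_dmT.1 (ZFSet.mem_sdiff.1 hy).1).1⟩
      obtain ⟨k, -, rfl⟩ := mem_natZ.1 hx
      exact natZ_mem_omZ k
    have hIF : ap f i.1 ∩ RO ∈ finS RO :=
      mem_finS.2 ⟨fun z hz => (ZFSet.mem_inter.1 hz).2,
        bmr1_finZ_sub h2.2 (fun z hz => (ZFSet.mem_inter.1 hz).1)⟩
    have hmem : ZFSet.pair (ZFSet.pair (ap f i.1 ∩ RO) (natZ m)) g ∈ ZFSet.prod (ZFSet.prod (finS RO) omZ) PW :=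
      ZFSet.pair_mem_prod.2 ⟨ZFSet.pair_mem_prod.2 ⟨hIF, natZ_mem_omZ m⟩, hgP⟩
    exact ⟨⟨_, hN.mem_of_mem (hN.prod_mem hY hPW) hmem⟩, hmem, ap f i.1, h1.1, natZ m, natZ_mem_omZ m, g, hgP,
      h1.2, rfl, hgo⟩)
  have hcv : ∀ i ∈ B₁, ∃ m g, ZFSet.pair i (ZFSet.pair (ZFSet.pair (ap f i ∩ RO) (natZ m)) g) ∈ c ∧
      Onto g (natZ m) (dmT (Nd Ω E) (ap f i) \ r) := by
    intro i hi
    have h1 := hcfn.ap_mem hi
    obtain ⟨u, hu, m, hm, g, hg, h2, h3, h4⟩ := hc' ⟨i, hN.mem_of_mem hB₁N hi⟩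
      ⟨_, hN.mem_of_mem (hN.prod_mem hY hPW) h1.1⟩ h1.2
    obtain ⟨m, rfl⟩ := mem_omZ.1 hm
    have h5 : ap f i = u := hfn.ap_eq h2
    subst h5
    have h6 : ap c i = ZFSet.pair (ZFSet.pair (ap f i ∩ RO) (natZ m)) g := h3
    refine ⟨m, g, ?_, h4⟩
    rw [← h6]
    exact h1.2
  obtain ⟨c1, hc1, hc1fn, hc1'⟩ := exists_fn (hN := hN) (F := fun i y => ∃ g ∈ PW,
      ZFSet.pair i.1 (ZFSet.pair y.1 g) ∈ c)
    (Df.bex (P := fun v g => ZFSet.pair (v 0).1 (ZFSet.pair (v 1).1 g) ∈ c) (PD.const hPW)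
      (Df.mem (PD.pair (PD.var _) (PD.pair (PD.var _) (PD.var _))) (PD.const hc))) hB₁N hY (by
    intro i hi
    obtain ⟨m, g, h1, h2⟩ := hcv i.1 hi
    obtain ⟨x', hx', y', hy', h3⟩ := hcfn.sub _ h1
    obtain ⟨-, h4⟩ := ZFSet.pair_inj.1 h3
    rw [← h4] at hy'
    obtain ⟨h5, h6⟩ := ZFSet.pair_mem_prod.1 hy'
    refine ⟨⟨_, hN.mem_of_mem hY h5⟩, h5, ⟨g, h6, h1⟩, ?_⟩
    rintro y'' - ⟨g', hg', h7⟩
    have h8 := (hcfn.ap_eq h7).symm.trans (hcfn.ap_eq h1)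
    exact Subtype.ext (ZFSet.pair_inj.1 h8).1)
  obtain ⟨y, hy, hyu⟩ := ctb_fibre hN hB₁N hY hc1 hc1fn (Ctb.prod hN hFRc (ctb_om hN)) hB₁u
  obtain ⟨g₀, hg₀, n', hn', rfl⟩ := ZFSet.mem_prod.1 hy
  obtain ⟨n, rfl⟩ := mem_omZ.1 hn'
  set B₂ := ZFSet.sep (fun x => ZFSet.pair x (ZFSet.pair g₀ (natZ n)) ∈ c1) B₁ with hB₂
  have hyN := hN.mem_of_mem hY hy
  have hB₂N : B₂ ∈ N := hN.sep_mem (p := fun x => ZFSet.pair x (ZFSet.pair g₀ (natZ n)) ∈ c1)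
    (Df.mem (PD.pair (PD.var _) (PD.const hyN)) (PD.const hc1)) hB₁N
  have hB₂v : ∀ i ∈ B₂, i ∈ B₁ ∧ ap f i ∩ RO = g₀ ∧ ∃ g ∈ PW, ZFSet.pair i (ZFSet.pair (ZFSet.pair g₀ (natZ n)) g) ∈ c ∧
      Onto g (natZ n) (dmT (Nd Ω E) (ap f i) \ r) := by
    intro i hi
    obtain ⟨h1, h2⟩ := ZFSet.mem_sep.1 hi
    obtain ⟨-, -, g, hg, h3⟩ := (hc1' ⟨i, hN.mem_of_mem hB₁N h1⟩ ⟨_, hyN⟩).1 h2
    obtain ⟨m', g', h4, h5⟩ := hcv i h1
    have h6 := (hcfn.ap_eq h4).symm.trans (hcfn.ap_eq h3)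
    obtain ⟨h7, h8⟩ := ZFSet.pair_inj.1 h6
    obtain ⟨h9, h10⟩ := ZFSet.pair_inj.1 h7
    rw [h8, h10] at h5
    exact ⟨h1, h9, g, hg, h3, h5⟩
  obtain ⟨b, hb, hbfn, hbinj⟩ := exists_inj_om1 hN hΩ hB₂N hyu
  have hnN : natZ n ∈ N := hN.mem_of_mem hN.omZ_mem (natZ_mem_omZ n)
  -- the final function
  obtain ⟨e, he, hefn, he'⟩ := exists_fn (hN := hN) (F := fun w x => Bm2 Ω.toZFSet (natZ n) B₂ b c
      (ZFSet.pair g₀ (natZ n)) PW w.1 x.1)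
    (Bm2_dfn hΩN hnN hB₂N hb hc hyN hPW) (hN.prod_mem hΩN hnN) hNd (by
    intro w hw
    obtain ⟨i, hi, k, hk, hwik⟩ := ZFSet.mem_prod.1 hw
    have h1 := hbfn.ap_mem hi
    obtain ⟨h2, h3, g, hg, h4, h5⟩ := hB₂v _ h1.1
    have h6 := h5.1.ap_mem hk
    have h7 : ap g k ∈ Nd Ω E := (mem_dmT.1 (ZFSet.mem_sdiff.1 h6.1).1).1
    refine ⟨⟨_, hN.mem_of_mem hNd h7⟩, h7, ⟨i, hi, k, hk, _, h1.1, g, hg, hwik, h1.2, h4, h6.2⟩, ?_⟩
    rintro x' - ⟨i', hi', k', hk', j', hj', g', hg', h8, h9, h10, h11⟩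
    rw [hwik] at h8
    obtain ⟨rfl, rfl⟩ := ZFSet.pair_inj.1 h8
    have h12 : ap b i = j' := hbfn.ap_eq h9
    subst h12
    have h13 := (hcfn.ap_eq h10).symm.trans (hcfn.ap_eq h4)
    have h14 := (ZFSet.pair_inj.1 h13).2
    subst h14
    exact Subtype.ext (h5.1.ap_eq h11).symm)
  have hev : ∀ i ∈ Ω.toZFSet, ∀ k ∈ natZ n, ∃ g, Onto g (natZ n) (dmT (Nd Ω E) (ap f (ap b i)) \ r) ∧
      (∀ k ∈ natZ n, ap e (ZFSet.pair i k) = ap g k) := by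
    intro i hi k hk
    have h1 := hbfn.ap_mem hi
    obtain ⟨h2, h3, g, hg, h4, h5⟩ := hB₂v _ h1.1
    refine ⟨g, h5, ?_⟩
    intro k hk
    have h6 := h5.1.ap_mem hk
    have h7 : ap g k ∈ Nd Ω E := (mem_dmT.1 (ZFSet.mem_sdiff.1 h6.1).1).1
    refine hefn.ap_eq ?_
    have hikN : ZFSet.pair i k ∈ N := hN.pair_mem (hN.mem_of_mem hΩN hi) (hN.mem_of_mem hnN hk)
    exact (he' ⟨_, hikN⟩ ⟨_, hN.mem_of_mem hNd h7⟩).2 ⟨ZFSet.pair_mem_prod.2 ⟨hi, hk⟩, h7,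
      i, hi, k, hk, _, h1.1, g, hg, rfl, h1.2, h4, h6.2⟩
  have hbne : ∀ i ∈ Ω.toZFSet, ∀ j ∈ Ω.toZFSet, i ≠ j → ap b i ≠ ap b j := by
    intro i hi j hj hij h
    have h1 := (hbfn.ap_mem hi).2
    have h2 := (hbfn.ap_mem hj).2
    rw [← h] at h2
    exact hij (hbinj _ _ _ h1 h2)
  refine ⟨n, e, he, hefn, ?_, ?_⟩
  · intro i hi j hj hij k hk l hl heq
    obtain ⟨g, hg, hge⟩ := hev i hi k hk
    obtain ⟨g', hg', hge'⟩ := hev j hj l hl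
    rw [hge k hk, hge' l hl] at heq
    have h1 := ZFSet.mem_sdiff.1 (hg.1.ap_mem hk).1
    have h2 := ZFSet.mem_sdiff.1 (hg'.1.ap_mem hl).1
    have hbi := (hB₂v _ (hbfn.ap_mem hi).1).1
    have hbj := (hB₂v _ (hbfn.ap_mem hj).1).1
    have h3 := hr' _ hbi _ hbj (hbne i hi j hj hij)
    apply h1.2
    rw [← h3, ZFSet.mem_inter, hapd _ (hB₁ hbi), hapd _ (hB₁ hbj)]
    exact ⟨h1.1, heq ▸ h2.1⟩
  · intro i hi j hj hij
    have hbi := hB₂v _ (hbfn.ap_mem hi).1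
    have hbj := hB₂v _ (hbfn.ap_mem hj).1
    set a := ap b i with ha
    set a' := ap b j with ha'
    have haB := hB₁ hbi.1
    have haB' := hB₁ hbj.1
    have hne : a ≠ a' := hbne i hi j hj hij
    have hQa := hQ a haB
    have hQa' := hQ a' haB'
    -- values on the root
    have root : ∀ x m, x ∈ r → (ZFSet.pair x m ∈ ap f a ↔ ZFSet.pair x m ∈ ap f a') := by
      intro x m hx
      constructor
      · intro h
        have h1 := hdm a haB x m h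
        have h2 : ZFSet.pair x m ∈ ap f a ∩ RO := ZFSet.mem_inter.2 ⟨h, ZFSet.pair_mem_prod.2 ⟨hx, h1.2.2⟩⟩
        rw [hbi.2.1, ← hbj.2.1] at h2
        exact (ZFSet.mem_inter.1 h2).1
      · intro h
        have h1 := hdm a' haB' x m h
        have h2 : ZFSet.pair x m ∈ ap f a' ∩ RO := ZFSet.mem_inter.2 ⟨h, ZFSet.pair_mem_prod.2 ⟨hx, h1.2.2⟩⟩
        rw [hbj.2.1, ← hbi.2.1] at h2
        exact (ZFSet.mem_inter.1 h2).1
    have hrr : ∀ x, x ∈ dmT (Nd Ω E) (ap f a) → x ∈ dmT (Nd Ω E) (ap f a') → x ∈ r := by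
      intro x h1 h2
      rw [← hr' _ hbi.1 _ hbj.1 hne, ZFSet.mem_inter, hapd _ haB, hapd _ haB']
      exact ⟨h1, h2⟩
    have hpos : ∀ i ∈ Ω.toZFSet, ∀ x, x ∈ dmT (Nd Ω E) (ap f (ap b i)) → x ∉ r → ∃ k ∈ natZ n, ap e (ZFSet.pair i k) = x := by
      intro i hi x hx hxr
      by_cases hn0 : n = 0
      · exfalso
        obtain ⟨g, hg, hg', hg''⟩ := (hB₂v _ (hbfn.ap_mem hi).1).2.2
        obtain ⟨k, hk, -⟩ := hg''.2 x (ZFSet.mem_sdiff.2 ⟨hx, hxr⟩)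
        obtain ⟨m, hm, -⟩ := mem_natZ.1 hk
        omega
      · obtain ⟨g, hg, hge⟩ := hev i hi (natZ 0) (natZ_mem.2 (Nat.pos_of_ne_zero hn0))
        obtain ⟨k, hk, hkx⟩ := hg.2 x (ZFSet.mem_sdiff.2 ⟨hx, hxr⟩)
        exact ⟨k, hk, (hge k hk).trans (hg.1.ap_eq hkx)⟩
    have hbad' := hbad a haB a' haB' hne
    have hfinU : ap f a ∪ ap f a' ∈ finS W := by
      have h1 := mem_finS.1 (hapB a haB).1
      have h2 := mem_finS.1 (hapB a' haB').1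
      refine mem_finS.2 ⟨?_, bmr1_finZ_union h1.2 h2.2⟩
      intro z hz
      rcases ZFSet.mem_union.1 hz with h | h
      · exact h1.1 h
      · exact h2.1 h
    have hSv : Sv (ap f a ∪ ap f a') := by
      have key : ∀ x m m', ZFSet.pair x m ∈ ap f a → ZFSet.pair x m' ∈ ap f a' → m = m' := by
        intro x m m' h1 h2
        have h3 := hrr x (hdm a haB x m h1).1 (hdm a' haB' x m' h2).1
        exact hQa'.2.1 x m m' ((root x m h3).1 h1) h2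
      intro x m m' h1 h2
      rcases ZFSet.mem_union.1 h1 with h1 | h1 <;> rcases ZFSet.mem_union.1 h2 with h2 | h2
      · exact hQa.2.1 x m m' h1 h2
      · exact key x m m' h1 h2
      · exact (key x m' m h2 h1).symm
      · exact hQa'.2.1 x m m' h1 h2
    have hex : ∃ x y m, ZFSet.pair x m ∈ ap f a ∪ ap f a' ∧ ZFSet.pair y m ∈ ap f a ∪ ap f a' ∧ Bel x y ∧
        ZFSet.pair x y ∉ I := by
      by_contra hcon
      push Not at hcon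
      exact hbad' ⟨hfinU, hSv, fun x y m h1 h2 h3 => hcon x y m h1 h2 h3⟩
    obtain ⟨x, y, m, h1, h2, hxy, hI'⟩ := hex
    rcases ZFSet.mem_union.1 h1 with h1 | h1 <;> rcases ZFSet.mem_union.1 h2 with h2 | h2
    · exact absurd (hQa.2.2 x y m h1 h2 hxy) hI'
    · have hxr : x ∉ r := fun h => hI' (hQa'.2.2 x y m ((root x m h).1 h1) h2 hxy)
      have hyr : y ∉ r := fun h => hI' (hQa.2.2 x y m h1 ((root y m h).2 h2) hxy)
      obtain ⟨k, hk, hkx⟩ := hpos i hi x (hdm a haB x m h1).1 hxr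
      obtain ⟨l, hl, hly⟩ := hpos j hj y (hdm a' haB' y m h2).1 hyr
      refine ⟨k, hk, l, hl, Or.inl ?_⟩
      rw [hkx, hly]
      exact ⟨hxy, hI'⟩
    · have hxr : x ∉ r := fun h => hI' (hQa.2.2 x y m ((root x m h).2 h1) h2 hxy)
      have hyr : y ∉ r := fun h => hI' (hQa'.2.2 x y m h1 ((root y m h).1 h2) hxy)
      obtain ⟨k, hk, hky⟩ := hpos i hi y (hdm a haB y m h2).1 hyr
      obtain ⟨l, hl, hlx⟩ := hpos j hj x (hdm a' haB' x m h1).1 hxr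
      refine ⟨k, hk, l, hl, Or.inr ?_⟩
      rw [hky, hlx]
      exact ⟨hxy, hI'⟩
    · exact absurd (hQa'.2.2 x y m h1 h2 hxy) hI'

end Pool.Agent.H17.CF
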