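import Pool.Agent.H17.CF.FDefs
import Pool.Agent.H7.IG.Tk5
import Pool.Agent.H7.IG.Tk8

/-!
# CF-A4: cardinal arithmetic in a ctm

`κ` is an infinite ordinal of `N`.
`cvr_prod`: `Cvr N κ (κ × κ)`. Proof by the least counterexample among the ordinals `≤ κ` (a property of ordinals in
`Lean`, use `WellFounded.min` / strong induction): let `κ` be infinite and assume the claim for all infinite
`α < κ`. If `Cvr N α κ` for some `α < κ` (then we may take `α` infinite, since a finite set does not cover an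
infinite one): `κ × κ` is covered by `α × α` (product of the covering functions), which is covered by `α`, which is a
subset of `κ`. Otherwise `κ` is a cardinal: order `κ × κ` by the canonical (Goedel) order: first the maximum, then
lexicographic; the initial segment of `(ξ, η)` is contained in `μ × μ` with `μ = max(ξ, η) + 1 < κ` (`κ` is a limit),
which is covered by `μ` (if infinite, by induction) or finite. Avoid order types as follows: use `exists_enum`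
(Tk1): an ordinal `δ ∈ N` and an injective `f : δ → κ × κ` onto in `N`; alternatively define by recursion in `N`
(`exists_dep` / `exists_rec` of Tk2) the enumeration `e : κ → κ × κ` whose value at `ξ` is the canonical-least
pair not in `e[ξ]` (if there is one): at each step `ξ < κ` the set `e[ξ]` is an initial segment, and if
the enumeration does not exhaust `κ × κ` then all `e(ξ)` lie below some pair `(ξ₀, η₀)`, so `κ` injects into
`μ × μ`, `μ < κ`: contradiction.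
You may restrict the generality or look for an existing proof: H7/IG/Tk5 has `cvr_prod_om1` (the case `Ω`),
H52/GC has `exists_pairing` (the case `ω`).

`cvr_union`: a union of `κ` many sets of size at most `κ` has size at most `κ` (same proof as `cvr_union_om1` of Tk5).
`cvr_fin`: the finite subsets of a set of size at most `κ` (same as `cvr_fin_om1`).
`cvr_prod2`: products.
`bdd_of_cvr`: `lam = κ⁺` is regular: a subset of `lam` of size at most `κ` is bounded (same as `om1_bdd`).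
-/

set_option autoImplicit false
set_option linter.unusedVariables false
set_option linter.unusedSectionVars false
set_option linter.unusedSimpArgs false
set_option linter.unusedTactic false
set_option linter.unreachableTactic false

open Pool.Agent.H17.Omega Pool.Agent.H17.Omega.CTM Pool.Agent.H52.GC Pool.Agent.H7.IG

namespace Pool.Agent.H17.CF

theorem card_omZ : (omZ : ZFSet.{0}) = Ordinal.omega0.toZFSet := by
  ext z
  constructor
  · intro h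
    obtain ⟨n, rfl⟩ := mem_omZ.1 h
    rw [natZ_eq]
    exact Ordinal.toZFSet_mem_toZFSet_iff.2 (Ordinal.natCast_lt_omega0 n)
  · intro h
    obtain ⟨a, ha, rfl⟩ := Ordinal.mem_toZFSet_iff.1 h
    obtain ⟨n, rfl⟩ := Ordinal.lt_omega0.1 ha
    rw [← natZ_eq]
    exact mem_omZ.2 ⟨n, rfl⟩

theorem card_prod_map {N : Set ZFSet.{0}} (hN : CTM N) {A B X Y : ZFSet.{0}} (hA : A ∈ N) (hB : B ∈ N)
    (hX : X ∈ N) (hY : Y ∈ N) (hc : Cvr N A X) (hc' : Cvr N B Y) :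
    Cvr N (ZFSet.prod A B) (ZFSet.prod X Y) := by
  obtain ⟨f, hf, hf1, hf2⟩ := hc
  obtain ⟨g, hg, hg1, hg2⟩ := hc'
  refine cvr_of_dfn hN (F := fun p z => ∃ a b x y : N, p.1 = ZFSet.pair a.1 b.1 ∧
    z.1 = ZFSet.pair x.1 y.1 ∧ ZFSet.pair a.1 x.1 ∈ (⟨f, hf⟩ : N).1 ∧
    ZFSet.pair b.1 y.1 ∈ (⟨g, hg⟩ : N).1) (by
      (repeat' first
      | exact DT.var _ | exact DT.last | exact DT.const _ | assumption
      | refine Dfn.pairMem ?_ ?_ ?_ | refine Dfn.isPair ?_ ?_ ?_ | refine Dfn.mem ?_ ?_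
      | refine Dfn.eqv ?_ ?_ | refine Dfn.eq ?_ ?_ | refine Dfn.subset ?_ ?_
      | refine Dfn.isEmpty ?_ | refine Dfn.isTrans ?_ | refine Dfn.isOrd ?_ | refine Dfn.isNat ?_
      | refine Dfn.and ?_ ?_ | refine Dfn.or ?_ ?_ | refine Dfn.iff ?_ ?_ | refine Dfn.not ?_
      | refine Dfn.imp ?_ ?_ | refine Dfn.all ?_ | refine Dfn.ex ?_ | exact Dfn.false')) (hN.prod_mem hA hB) (hN.prod_mem hX hY) ?_ ?_
  · rintro p hp z z' ⟨a, b, x, y, h1, h2, h3, h4⟩ ⟨a', b', x', y', h1', h2', h3', h4'⟩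
    have hp' : p.1 ∈ ZFSet.prod A B := hp
    rw [h1, ZFSet.pair_mem_prod] at hp'
    have h5 := h1.symm.trans h1'
    rw [ZFSet.pair_inj] at h5
    rw [← h5.1] at h3'
    rw [← h5.2] at h4'
    have e1 : x.1 = x'.1 := hf1 a.1 hp'.1 _ _ h3 h3'
    have e2 : y.1 = y'.1 := hg1 b.1 hp'.2 _ _ h4 h4'
    exact Subtype.ext (by rw [h2, h2', e1, e2])
  · intro z hz
    obtain ⟨x, hx, y, hy, hxy⟩ := ZFSet.mem_prod.1 hz
    obtain ⟨a, ha, hax⟩ := hf2 x hx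
    obtain ⟨b, hb, hby⟩ := hg2 y hy
    have haN := hN.mem_of_mem hA ha
    have hbN := hN.mem_of_mem hB hb
    exact ⟨⟨_, hN.pair_mem haN hbN⟩, ZFSet.pair_mem_prod.2 ⟨ha, hb⟩, ⟨a, haN⟩, ⟨b, hbN⟩,
      ⟨x, hN.mem_of_mem hX hx⟩, ⟨y, hN.mem_of_mem hY hy⟩, rfl, hxy, hax, hby⟩

/-- If `κ × κ` has size `κ`, sets of size `κ` stay so after the addition of one element. -/
theorem card_insert {N : Set ZFSet.{0}} (hN : CTM N) {κ : Ordinal.{0}} (hκN : κ.toZFSet ∈ N)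
    (hκ : Ordinal.omega0 ≤ κ) (hp : Cvr N κ.toZFSet (ZFSet.prod κ.toZFSet κ.toZFSet)) {X X' a : ZFSet.{0}}
    (hX : X ∈ N) (hX' : X' ∈ N) (ha : a ∈ N) (hc : Cvr N κ.toZFSet X) (hs : ∀ z ∈ X', z = a ∨ z ∈ X) :
    Cvr N κ.toZFSet X' := by
  have hk : ∀ n : ℕ, natZ n ∈ κ.toZFSet := fun n => by
    rw [natZ_eq]
    exact Ordinal.toZFSet_mem_toZFSet_iff.2 ((Ordinal.natCast_lt_omega0 n).trans_le hκ)
  have hn : ∀ n : ℕ, (natZ n : ZFSet.{0}) ∈ N := fun n => hN.mem_of_mem hκN (hk n)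
  refine Cvr.trans hN hκN (hN.prod_mem hκN hκN) hX' hp ?_
  obtain ⟨f, hf, hf1, hf2⟩ := hc
  refine cvr_of_dfn hN (F := fun p z => ∃ i b : N, p.1 = ZFSet.pair i.1 b.1 ∧
    ((i.1 = (⟨_, hn 0⟩ : N).1 ∧ z.1 = (⟨a, ha⟩ : N).1) ∨
      (i.1 = (⟨_, hn 1⟩ : N).1 ∧ ZFSet.pair b.1 z.1 ∈ (⟨f, hf⟩ : N).1))) (by
      (repeat' first
      | exact DT.var _ | exact DT.last | exact DT.const _ | assumption
      | refine Dfn.pairMem ?_ ?_ ?_ | refine Dfn.isPair ?_ ?_ ?_ | refine Dfn.mem ?_ ?_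
      | refine Dfn.eqv ?_ ?_ | refine Dfn.eq ?_ ?_ | refine Dfn.subset ?_ ?_
      | refine Dfn.isEmpty ?_ | refine Dfn.isTrans ?_ | refine Dfn.isOrd ?_ | refine Dfn.isNat ?_
      | refine Dfn.and ?_ ?_ | refine Dfn.or ?_ ?_ | refine Dfn.iff ?_ ?_ | refine Dfn.not ?_
      | refine Dfn.imp ?_ ?_ | refine Dfn.all ?_ | refine Dfn.ex ?_ | exact Dfn.false')) (hN.prod_mem hκN hκN) hX' ?_ ?_
  · rintro p hp z z' ⟨i, b, h1, h2⟩ ⟨i', b', h1', h2'⟩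
    have hp' : p.1 ∈ ZFSet.prod κ.toZFSet κ.toZFSet := hp
    rw [h1, ZFSet.pair_mem_prod] at hp'
    have h5 := h1.symm.trans h1'
    rw [ZFSet.pair_inj] at h5
    rw [← h5.1, ← h5.2] at h2'
    rcases h2 with ⟨h2, h3⟩ | ⟨h2, h3⟩
    · rcases h2' with ⟨h2', h3'⟩ | ⟨h2', h3'⟩
      · exact Subtype.ext (h3.trans h3'.symm)
      · exact absurd (natZ_inj.1 (h2.symm.trans h2')) (by norm_num)
    · rcases h2' with ⟨h2', h3'⟩ | ⟨h2', h3'⟩
      · exact absurd (natZ_inj.1 (h2'.symm.trans h2)) (by norm_num)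
      · exact Subtype.ext (hf1 b.1 hp'.2 _ _ h3 h3')
  · intro z hz
    rcases hs z.1 hz with h | h
    · exact ⟨⟨_, hN.pair_mem (hn 0) (hn 0)⟩, ZFSet.pair_mem_prod.2 ⟨hk 0, hk 0⟩, ⟨_, hn 0⟩, ⟨_, hn 0⟩, rfl,
        Or.inl ⟨rfl, h⟩⟩
    · obtain ⟨b, hb, hbz⟩ := hf2 z.1 h
      have hbN := hN.mem_of_mem hκN hb
      exact ⟨⟨_, hN.pair_mem (hn 1) hbN⟩, ZFSet.pair_mem_prod.2 ⟨hk 1, hb⟩, ⟨_, hn 1⟩, ⟨b, hbN⟩, rfl,
        Or.inr ⟨rfl, hbz⟩⟩

theorem card_succ {N : Set ZFSet.{0}} (hN : CTM N) {μ κ : Ordinal.{0}} (hκN : κ.toZFSet ∈ N) (hμκ : μ < κ)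
    (hμ : Ordinal.omega0 ≤ μ) (hp : Cvr N μ.toZFSet (ZFSet.prod μ.toZFSet μ.toZFSet))
    (hcard : ¬ Cvr N μ.toZFSet κ.toZFSet) : μ + 1 < κ := by
  have hμN := hN.toZFSet_mem_of_le hμκ.le hκN
  by_contra h
  have h1 : κ ≤ μ + 1 := not_lt.1 h
  apply hcard
  refine card_insert hN hμN hμ hp hμN hκN hμN (cvr_of_subset hN hμN fun z hz => hz) ?_
  intro z hz
  obtain ⟨β, hβ, rfl⟩ := Ordinal.mem_toZFSet_iff.1 hz
  rcases (Order.lt_add_one_iff.1 (hβ.trans_le h1)).eq_or_lt with h2 | h2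
  · exact Or.inl (by rw [h2])
  · exact Or.inr (Ordinal.toZFSet_mem_toZFSet_iff.2 h2)

theorem card_step {N : Set ZFSet.{0}} (hN : CTM N) {δ : Ordinal.{0}} (hδ : δ.toZFSet ∈ N) {A : N}
    (hA : A.1 = ZFSet.prod δ.toZFSet δ.toZFSet) {α : Ordinal.{0}} (hα : α < δ)
    (hcard : ¬ Cvr N α.toZFSet δ.toZFSet)
    {g : N} (hg : Fn g.1 α.toZFSet A.1) : ∃ y : N, y.1 ∈ A.1 ∧ tk5Sel A g y := by
  classical
  have hm : ∀ β : Ordinal.{0}, β ≤ δ → β.toZFSet ∈ N := fun β h => hN.toZFSet_mem_of_le h hδ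
  have hex : ∃ β γ : Ordinal.{0}, β < δ ∧ γ < δ ∧
      ∀ x : N, ¬ ZFSet.pair x.1 (ZFSet.pair β.toZFSet γ.toZFSet) ∈ g.1 := by
    by_contra hcon
    push Not at hcon
    apply hcard
    refine cvr_of_dfn hN
      (F := fun x y => ∃ p : N, ZFSet.pair x.1 p.1 ∈ g.1 ∧ ∃ b : N, p.1 = ZFSet.pair y.1 b.1) (by
      (repeat' first
      | exact DT.var _ | exact DT.last | exact DT.const _ | assumption
      | refine Dfn.pairMem ?_ ?_ ?_ | refine Dfn.isPair ?_ ?_ ?_ | refine Dfn.mem ?_ ?_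
      | refine Dfn.eqv ?_ ?_ | refine Dfn.eq ?_ ?_ | refine Dfn.subset ?_ ?_
      | refine Dfn.isEmpty ?_ | refine Dfn.isTrans ?_ | refine Dfn.isOrd ?_ | refine Dfn.isNat ?_
      | refine Dfn.and ?_ ?_ | refine Dfn.or ?_ ?_ | refine Dfn.iff ?_ ?_ | refine Dfn.not ?_
      | refine Dfn.imp ?_ ?_ | refine Dfn.all ?_ | refine Dfn.ex ?_ | exact Dfn.false')) (hm _ hα.le) hδ ?_ ?_
    · rintro x - y y' ⟨p, h1, b, h2⟩ ⟨p', h1', b', h2'⟩
      have h3 : p.1 = p'.1 := (hg.ap_eq h1).symm.trans (hg.ap_eq h1')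
      rw [h2, h2', ZFSet.pair_inj] at h3
      exact Subtype.ext h3.1
    · rintro ⟨y, hyN⟩ hy
      obtain ⟨β, hβ, hβy⟩ := Ordinal.mem_toZFSet_iff.1 hy
      obtain ⟨x, hx⟩ := hcon β β hβ hβ
      obtain ⟨x', hx', y', _, h3⟩ := hg.sub _ hx
      rw [ZFSet.pair_inj] at h3
      have hb := hm _ hβ.le
      exact ⟨x, h3.1 ▸ hx', ⟨_, hN.pair_mem hb hb⟩, hx, ⟨_, hb⟩, by simp only [hβy]⟩
  obtain ⟨β₀, γ₀, hβ₀, hγ₀, hn₀⟩ := hex
  obtain ⟨ε, ⟨β, γ, hβ, hγ, hn, hmax⟩, hmin⟩ := WellFounded.has_min (r := (· < ·)) Ordinal.lt_wf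
    {ε : Ordinal.{0} | ∃ β γ : Ordinal.{0}, β < δ ∧ γ < δ ∧
      (∀ x : N, ¬ ZFSet.pair x.1 (ZFSet.pair β.toZFSet γ.toZFSet) ∈ g.1) ∧ max β γ = ε}
    ⟨max β₀ γ₀, β₀, γ₀, hβ₀, hγ₀, hn₀, rfl⟩
  have hyN : ZFSet.pair β.toZFSet γ.toZFSet ∈ N :=
    hN.pair_mem (hm _ hβ.le) (hm _ hγ.le)
  refine ⟨⟨_, hyN⟩, ?_, hn, ?_⟩
  · rw [hA, ZFSet.mem_prod]
    exact ⟨_, Ordinal.mem_toZFSet_iff.2 ⟨β, hβ, rfl⟩, _, Ordinal.mem_toZFSet_iff.2 ⟨γ, hγ, rfl⟩, rfl⟩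
  · intro z hz hnz a b c d hy hz' x hx
    have hy' : ZFSet.pair β.toZFSet γ.toZFSet = ZFSet.pair a.1 b.1 := hy
    rw [ZFSet.pair_inj] at hy'
    rw [hA, hz', ZFSet.pair_mem_prod] at hz
    obtain ⟨β', hβ', hcβ⟩ := Ordinal.mem_toZFSet_iff.1 hz.1
    obtain ⟨γ', hγ', hdγ⟩ := Ordinal.mem_toZFSet_iff.1 hz.2
    have h1 : ε ≤ max β' γ' := by
      by_contra h
      refine hmin (max β' γ') ⟨β', γ', hβ', hγ', ?_, rfl⟩ (not_le.1 h)
      intro w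
      rw [hcβ, hdγ, ← hz']
      exact hnz w
    have h2 : ∃ ξ : Ordinal.{0}, ξ < max β γ ∧ ξ.toZFSet = x.1 := by
      rw [← hy'.1, ← hy'.2] at hx
      rcases hx with hx | hx
      · obtain ⟨ξ, hξ, h3⟩ := Ordinal.mem_toZFSet_iff.1 hx
        exact ⟨ξ, hξ.trans_le (le_max_left _ _), h3⟩
      · obtain ⟨ξ, hξ, h3⟩ := Ordinal.mem_toZFSet_iff.1 hx
        exact ⟨ξ, hξ.trans_le (le_max_right _ _), h3⟩
    obtain ⟨ξ, hξ, h3⟩ := h2
    rw [hmax] at hξ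
    rw [← h3, ← hcβ, ← hdγ]
    rcases lt_max_iff.1 (hξ.trans_le h1) with h4 | h4
    · exact Or.inl (Ordinal.toZFSet_mem_toZFSet_iff.2 h4)
    · exact Or.inr (Ordinal.toZFSet_mem_toZFSet_iff.2 h4)

/-- The case of a cardinal. -/
theorem card_main {N : Set ZFSet.{0}} (hN : CTM N) {δ : Ordinal.{0}} (hδ : δ.toZFSet ∈ N)
    (hω : Ordinal.omega0 < δ) (hcard : ∀ α < δ, ¬ Cvr N α.toZFSet δ.toZFSet)
    (IH : ∀ α < δ, Ordinal.omega0 ≤ α → Cvr N α.toZFSet (ZFSet.prod α.toZFSet α.toZFSet)) :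
    Cvr N δ.toZFSet (ZFSet.prod δ.toZFSet δ.toZFSet) := by
  classical
  have hm : ∀ β : Ordinal.{0}, β ≤ δ → β.toZFSet ∈ N := fun β h => hN.toZFSet_mem_of_le h hδ
  have hA : ZFSet.prod δ.toZFSet δ.toZFSet ∈ N := hN.prod_mem hδ hδ
  obtain ⟨g, hg, hgs⟩ := exists_dep hN (tk5_sel_dfn hN ⟨_, hA⟩) hδ hA
    (fun α hα g hg _ => card_step hN hδ (A := ⟨_, hA⟩) rfl hα (hcard α hα) hg)
  refine ⟨g.1, g.2, ?_, ?_⟩
  · intro y _ x x' h1 h2
    exact (hg.ap_eq h1).symm.trans (hg.ap_eq h2)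
  intro z hz
  by_contra hcon
  push Not at hcon
  have hz' := hz
  rw [ZFSet.mem_prod] at hz'
  obtain ⟨c, hc, d, hd, rfl⟩ := hz'
  obtain ⟨β, hβ, rfl⟩ := Ordinal.mem_toZFSet_iff.1 hc
  obtain ⟨γ, hγ, rfl⟩ := Ordinal.mem_toZFSet_iff.1 hd
  obtain ⟨μ, hμe⟩ : ∃ μ, μ = max (max β γ) Ordinal.omega0 := ⟨_, rfl⟩
  have hμ : μ < δ := by rw [hμe]; exact max_lt (max_lt hβ hγ) hω
  have hμω : Ordinal.omega0 ≤ μ := by rw [hμe]; exact le_max_right _ _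
  have hμm : max β γ ≤ μ := by rw [hμe]; exact le_max_left _ _
  have hε : μ + 1 < δ := card_succ hN hδ hμ hμω (IH μ hμ hμω) (hcard μ hμ)
  have hεω : Ordinal.omega0 ≤ μ + 1 := hμω.trans (Order.lt_add_one_iff.2 le_rfl).le
  have hεN := hm _ hε.le
  apply hcard _ hε
  refine Cvr.trans hN hεN (hN.prod_mem hεN hεN) hδ (IH _ hε hεω) ?_
  refine cvr_of_dfn hN (F := fun p a => ZFSet.pair a.1 p.1 ∈ g.1) (by
      (repeat' first
      | exact DT.var _ | exact DT.last | exact DT.const _ | assumption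
      | refine Dfn.pairMem ?_ ?_ ?_ | refine Dfn.isPair ?_ ?_ ?_ | refine Dfn.mem ?_ ?_
      | refine Dfn.eqv ?_ ?_ | refine Dfn.eq ?_ ?_ | refine Dfn.subset ?_ ?_
      | refine Dfn.isEmpty ?_ | refine Dfn.isTrans ?_ | refine Dfn.isOrd ?_ | refine Dfn.isNat ?_
      | refine Dfn.and ?_ ?_ | refine Dfn.or ?_ ?_ | refine Dfn.iff ?_ ?_ | refine Dfn.not ?_
      | refine Dfn.imp ?_ ?_ | refine Dfn.all ?_ | refine Dfn.ex ?_ | exact Dfn.false')) (hN.prod_mem hεN hεN) hδ ?_ ?_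
  · intro p _ a a' h1 h2
    have key : ∀ a a' : N, ∀ p : N, ZFSet.pair a.1 p.1 ∈ g.1 → ZFSet.pair a'.1 p.1 ∈ g.1 →
        ∀ α α' : Ordinal.{0}, α' < δ → a.1 = α.toZFSet → a'.1 = α'.toZFSet → ¬ α < α' := by
      intro a a' p h1 h2 α α' hα' ha ha' hlt
      have h3 := (hgs α' hα' ⟨_, rs_mem hN g.2 (hm _ hα'.le)⟩ p rfl (by rw [← ha']; exact h2)).1 a
      apply h3
      show ZFSet.pair a.1 p.1 ∈ rs g.1 α'.toZFSet
      rw [pair_mem_rs]
      exact ⟨by rw [ha]; exact Ordinal.toZFSet_mem_toZFSet_iff.2 hlt, h1⟩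
    obtain ⟨x, hx, _, _, h3⟩ := hg.sub _ h1
    obtain ⟨x', hx', _, _, h4⟩ := hg.sub _ h2
    rw [ZFSet.pair_inj] at h3 h4
    rw [← h3.1] at hx
    rw [← h4.1] at hx'
    obtain ⟨α, hα, hα2⟩ := Ordinal.mem_toZFSet_iff.1 hx
    obtain ⟨α', hα', hα2'⟩ := Ordinal.mem_toZFSet_iff.1 hx'
    have h5 := key a a' p h1 h2 α α' hα' hα2.symm hα2'.symm
    have h6 := key a' a p h2 h1 α' α hα hα2'.symm hα2.symm
    have h7 : α = α' := le_antisymm (not_lt.1 h6) (not_lt.1 h5)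
    exact Subtype.ext (by rw [← hα2, ← hα2', h7])
  · rintro ⟨y, hyN⟩ hy
    obtain ⟨α, hα, hαy⟩ := Ordinal.mem_toZFSet_iff.1 hy
    have hαy' : α.toZFSet = y := hαy
    subst hαy'
    obtain ⟨p, hp, hpg⟩ := hg.tot _ hy
    have hpN : p ∈ N := hN.mem_of_mem hA hp
    have hαN := hm _ hα.le
    rw [ZFSet.mem_prod] at hp
    obtain ⟨a, ha, b, hb, rfl⟩ := hp
    obtain ⟨β', hβ', rfl⟩ := Ordinal.mem_toZFSet_iff.1 ha
    obtain ⟨γ', hγ', rfl⟩ := Ordinal.mem_toZFSet_iff.1 hb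
    refine ⟨⟨_, hpN⟩, ?_, hpg⟩
    have h1 := (hgs α hα ⟨_, rs_mem hN g.2 hαN⟩ ⟨_, hpN⟩ rfl hpg).2
      ⟨_, hN.mem_of_mem hA hz⟩ hz (by
        intro x hx
        have hx' : ZFSet.pair x.1 (ZFSet.pair β.toZFSet γ.toZFSet) ∈ rs g.1 α.toZFSet := hx
        rw [pair_mem_rs] at hx'
        obtain ⟨w, hw, _, _, h3⟩ := hg.sub _ hx'.2
        rw [ZFSet.pair_inj] at h3
        exact hcon x.1 (h3.1 ▸ hw) hx'.2)
      ⟨_, hN.mem_of_mem hδ ha⟩ ⟨_, hN.mem_of_mem hδ hb⟩ ⟨_, hN.mem_of_mem hδ hc⟩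
      ⟨_, hN.mem_of_mem hδ hd⟩ rfl rfl
    have hbd : ∀ ζ : Ordinal.{0}, ζ < δ → (∀ x : N, x.1 ∈ ζ.toZFSet → x.1 ∈ β.toZFSet ∨ x.1 ∈ γ.toZFSet) →
        ζ < μ + 1 := by
      intro ζ hζ h2
      by_contra h3
      have h4 : max β γ < ζ := lt_of_lt_of_le (Order.lt_add_one_iff.2 hμm) (not_lt.1 h3)
      rcases h2 ⟨(max β γ).toZFSet, hm _ (max_lt hβ hγ).le⟩
        (Ordinal.toZFSet_mem_toZFSet_iff.2 h4) with h5 | h5
      · exact absurd (Ordinal.toZFSet_mem_toZFSet_iff.1 h5) (not_lt.2 (le_max_left _ _))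
      · exact absurd (Ordinal.toZFSet_mem_toZFSet_iff.1 h5) (not_lt.2 (le_max_right _ _))
    show ZFSet.pair β'.toZFSet γ'.toZFSet ∈ _
    rw [ZFSet.pair_mem_prod]
    exact ⟨Ordinal.toZFSet_mem_toZFSet_iff.2 (hbd β' hβ' fun x hx => h1 x (Or.inl hx)),
      Ordinal.toZFSet_mem_toZFSet_iff.2 (hbd γ' hγ' fun x hx => h1 x (Or.inr hx))⟩

theorem card_all {N : Set ZFSet.{0}} (hN : CTM N) (κ : Ordinal.{0}) : κ.toZFSet ∈ N → Ordinal.omega0 ≤ κ →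
    Cvr N κ.toZFSet (ZFSet.prod κ.toZFSet κ.toZFSet) := by
  induction κ using WellFoundedLT.induction with
  | ind κ IH =>
    intro hκN hκ
    rcases hκ.eq_or_lt with h0 | h0
    · rw [← h0, ← card_omZ]
      exact (ctb_iff_cvr hN).1 (Ctb.prod hN (ctb_om hN) (ctb_om hN))
    · have IH' : ∀ α < κ, Ordinal.omega0 ≤ α → Cvr N α.toZFSet (ZFSet.prod α.toZFSet α.toZFSet) :=
        fun α hα h => IH α hα (hN.toZFSet_mem_of_le hα.le hκN) h
      by_cases hc : ∃ α < κ, Cvr N α.toZFSet κ.toZFSet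
      · obtain ⟨α, hα, h1⟩ := hc
        have hβ : max α Ordinal.omega0 < κ := max_lt hα h0
        have hαN := hN.toZFSet_mem_of_le hα.le hκN
        have hβN := hN.toZFSet_mem_of_le hβ.le hκN
        have h2 : Cvr N (max α Ordinal.omega0).toZFSet κ.toZFSet := by
          refine Cvr.trans hN hβN hαN hκN (cvr_of_subset hN hβN ?_) h1
          intro z hz
          obtain ⟨ξ, hξ, rfl⟩ := Ordinal.mem_toZFSet_iff.1 hz
          exact Ordinal.toZFSet_mem_toZFSet_iff.2 (hξ.trans_le (le_max_left _ _))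
        have h3 : Cvr N κ.toZFSet (max α Ordinal.omega0).toZFSet := by
          refine cvr_of_subset hN hκN ?_
          intro z hz
          obtain ⟨ξ, hξ, rfl⟩ := Ordinal.mem_toZFSet_iff.1 hz
          exact Ordinal.toZFSet_mem_toZFSet_iff.2 (hξ.trans hβ)
        refine Cvr.trans hN hκN hβN (hN.prod_mem hκN hκN) h3 ?_
        exact Cvr.trans hN hβN (hN.prod_mem hβN hβN) (hN.prod_mem hκN hκN) (IH' _ hβ (le_max_right _ _))
          (card_prod_map hN hβN hβN hκN hκN h2 h2)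
      · push Not at hc
        exact card_main hN hκN h0 hc IH'

/-- A set of `N` that is covered by `n + 1`: it is empty or of the form `{a} ∪ s'`, `s'` covered by `n`. -/
theorem card_fin_step {N : Set ZFSet.{0}} (hN : CTM N) {s : ZFSet.{0}} (hs : s ∈ N) {n : ℕ}
    (h : Cvr N (natZ (n + 1)) s) (hne : ∃ a, a ∈ s) :
    ∃ a ∈ s, ∃ s' ∈ N, s' ⊆ s ∧ Cvr N (natZ n) s' ∧ ∀ z, z ∈ s ↔ z = a ∨ z ∈ s' := by
  classical
  obtain ⟨f, hf, hf1, hf2⟩ := h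
  have hsub : ∀ y : ZFSet.{0}, y ∈ natZ (n + 1) → y = natZ n ∨ y ∈ (natZ n : ZFSet.{0}) := by
    intro y hy
    obtain ⟨m, hm, rfl⟩ := mem_natZ.1 hy
    rcases Nat.lt_succ_iff_lt_or_eq.1 hm with h | h
    · exact Or.inr (mem_natZ.2 ⟨m, h, rfl⟩)
    · exact Or.inl (by rw [h])
  have hup : ∀ y : ZFSet.{0}, y ∈ natZ n → y ∈ (natZ (n + 1) : ZFSet.{0}) := by
    intro y hy
    obtain ⟨m, hm, rfl⟩ := mem_natZ.1 hy
    exact mem_natZ.2 ⟨m, hm.trans (Nat.lt_succ_self n), rfl⟩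
  by_cases hc : ∃ a ∈ s, ZFSet.pair (natZ n) a ∈ f
  · obtain ⟨a, ha, haf⟩ := hc
    have haN := hN.mem_of_mem hs ha
    obtain ⟨s', hs', hs''⟩ := hN.exists_sep (P := fun z => ¬ z = (⟨a, haN⟩ : N)) (by
      (repeat' first
      | exact DT.var _ | exact DT.last | exact DT.const _ | assumption
      | refine Dfn.pairMem ?_ ?_ ?_ | refine Dfn.isPair ?_ ?_ ?_ | refine Dfn.mem ?_ ?_
      | refine Dfn.eqv ?_ ?_ | refine Dfn.eq ?_ ?_ | refine Dfn.subset ?_ ?_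
      | refine Dfn.isEmpty ?_ | refine Dfn.isTrans ?_ | refine Dfn.isOrd ?_ | refine Dfn.isNat ?_
      | refine Dfn.and ?_ ?_ | refine Dfn.or ?_ ?_ | refine Dfn.iff ?_ ?_ | refine Dfn.not ?_
      | refine Dfn.imp ?_ ?_ | refine Dfn.all ?_ | refine Dfn.ex ?_ | exact Dfn.false')) hs
    refine ⟨a, ha, s', hs', fun z hz => ((hs'' z).1 hz).1, ⟨f, hf, ?_, ?_⟩, ?_⟩
    · intro y hy x x' h1 h2
      exact hf1 y (hup y hy) x x' h1 h2
    · intro x hx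
      obtain ⟨h1, hxN, h2⟩ := (hs'' x).1 hx
      obtain ⟨y, hy, hyx⟩ := hf2 x h1
      rcases hsub y hy with h3 | h3
      · exfalso
        apply h2
        rw [h3] at hyx hy
        exact Subtype.ext (hf1 _ hy _ _ hyx haf)
      · exact ⟨y, h3, hyx⟩
    · intro z
      constructor
      · intro hz
        by_cases h : z = a
        · exact Or.inl h
        · exact Or.inr ((hs'' z).2 ⟨hz, hN.mem_of_mem hs hz, fun h' => h (congrArg Subtype.val h')⟩)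
      · rintro (h | h)
        · rw [h]; exact ha
        · exact ((hs'' z).1 h).1
  · push Not at hc
    obtain ⟨a, ha⟩ := hne
    refine ⟨a, ha, s, hs, fun z hz => hz, ⟨f, hf, ?_, ?_⟩, ?_⟩
    · intro y hy x x' h1 h2
      exact hf1 y (hup y hy) x x' h1 h2
    · intro x hx
      obtain ⟨y, hy, hyx⟩ := hf2 x hx
      rcases hsub y hy with h3 | h3
      · rw [h3] at hyx
        exact absurd hyx (hc x hx)
      · exact ⟨y, h3, hyx⟩
    · intro z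
      constructor
      · exact fun h => Or.inr h
      · rintro (h | h)
        · rw [h]; exact ha
        · exact h

/-- Finite sets of `N` are covered by natural numbers. -/
theorem card_fin_cvr {N : Set ZFSet.{0}} (hN : CTM N) (t : Finset ZFSet.{0}) :
    ∀ s ∈ N, (∀ z, z ∈ s ↔ z ∈ t) → ∃ n : ℕ, Cvr N (natZ n) s := by
  classical
  have hn : ∀ n : ℕ, (natZ n : ZFSet.{0}) ∈ N := fun n => by
    exact hN.mem_of_mem hN.omZ_mem (natZ_mem_omZ n)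
  induction t using Finset.induction_on with
  | empty =>
    intro s hs h
    refine ⟨0, cvr_of_subset hN (hn 0) ?_⟩
    intro z hz
    exact absurd ((h z).1 hz) (Finset.notMem_empty z)
  | insert a t hat ih =>
    intro s hs h
    have ha : a ∈ s := (h a).2 (Finset.mem_insert_self _ _)
    have haN := hN.mem_of_mem hs ha
    obtain ⟨s', hs', hs''⟩ := hN.exists_sep (P := fun z => ¬ z = (⟨a, haN⟩ : N)) (by
      (repeat' first
      | exact DT.var _ | exact DT.last | exact DT.const _ | assumption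
      | refine Dfn.pairMem ?_ ?_ ?_ | refine Dfn.isPair ?_ ?_ ?_ | refine Dfn.mem ?_ ?_
      | refine Dfn.eqv ?_ ?_ | refine Dfn.eq ?_ ?_ | refine Dfn.subset ?_ ?_
      | refine Dfn.isEmpty ?_ | refine Dfn.isTrans ?_ | refine Dfn.isOrd ?_ | refine Dfn.isNat ?_
      | refine Dfn.and ?_ ?_ | refine Dfn.or ?_ ?_ | refine Dfn.iff ?_ ?_ | refine Dfn.not ?_
      | refine Dfn.imp ?_ ?_ | refine Dfn.all ?_ | refine Dfn.ex ?_ | exact Dfn.false')) hs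
    obtain ⟨n, f, hf, hf1, hf2⟩ := ih s' hs' (by
      intro z
      rw [hs'']
      constructor
      · rintro ⟨h1, hzN, h2⟩
        rcases Finset.mem_insert.1 ((h z).1 h1) with h3 | h3
        · exact absurd (Subtype.ext h3) h2
        · exact h3
      · intro hz
        have h1 := (h z).2 (Finset.mem_insert_of_mem hz)
        refine ⟨h1, hN.mem_of_mem hs h1, fun h2 => ?_⟩
        have h3 : z = a := congrArg Subtype.val h2
        exact hat (h3 ▸ hz))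
    refine ⟨n + 1, cvr_of_dfn hN (F := fun y z => (y.1 = (⟨_, hn n⟩ : N).1 ∧ z.1 = (⟨a, haN⟩ : N).1) ∨
      (y.1 ∈ (⟨_, hn n⟩ : N).1 ∧ ZFSet.pair y.1 z.1 ∈ (⟨f, hf⟩ : N).1)) (by
      (repeat' first
      | exact DT.var _ | exact DT.last | exact DT.const _ | assumption
      | refine Dfn.pairMem ?_ ?_ ?_ | refine Dfn.isPair ?_ ?_ ?_ | refine Dfn.mem ?_ ?_
      | refine Dfn.eqv ?_ ?_ | refine Dfn.eq ?_ ?_ | refine Dfn.subset ?_ ?_
      | refine Dfn.isEmpty ?_ | refine Dfn.isTrans ?_ | refine Dfn.isOrd ?_ | refine Dfn.isNat ?_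
      | refine Dfn.and ?_ ?_ | refine Dfn.or ?_ ?_ | refine Dfn.iff ?_ ?_ | refine Dfn.not ?_
      | refine Dfn.imp ?_ ?_ | refine Dfn.all ?_ | refine Dfn.ex ?_ | exact Dfn.false')) (hn _) hs ?_ ?_⟩
    · have hnn : ¬ (natZ n : ZFSet.{0}) ∈ natZ n := ZFSet.mem_irrefl _
      rintro ⟨y, hyN⟩ hy ⟨x, hxN⟩ ⟨x', hxN'⟩ (⟨h1, h2⟩ | ⟨h1, h2⟩) (⟨h1', h2'⟩ | ⟨h1', h2'⟩)
      · exact Subtype.ext (h2.trans h2'.symm)
      · exact absurd (show (natZ n : ZFSet.{0}) ∈ natZ n by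
          have e : y = natZ n := h1
          have e' : y ∈ natZ n := h1'
          rwa [e] at e') hnn
      · exact absurd (show (natZ n : ZFSet.{0}) ∈ natZ n by
          have e : y = natZ n := h1'
          have e' : y ∈ natZ n := h1
          rwa [e] at e') hnn
      · exact Subtype.ext (hf1 y h1 _ _ h2 h2')
    · rintro ⟨x, hxN⟩ hx
      by_cases hxa : x = a
      · exact ⟨⟨_, hn n⟩, mem_natZ.2 ⟨n, Nat.lt_succ_self n, rfl⟩, Or.inl ⟨rfl, hxa⟩⟩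
      · obtain ⟨y, hy, hyx⟩ := hf2 x ((hs'' x).2 ⟨hx, hxN, fun h' => hxa (congrArg Subtype.val h')⟩)
        obtain ⟨m, hm, rfl⟩ := mem_natZ.1 hy
        exact ⟨⟨_, hn m⟩, mem_natZ.2 ⟨m, hm.trans (Nat.lt_succ_self n), rfl⟩, Or.inr ⟨hy, hyx⟩⟩

variable {N : Set ZFSet.{0}} (hN : CTM N) {κ : Ordinal.{0}} (hκN : κ.toZFSet ∈ N) (hκ : Ordinal.omega0 ≤ κ)

include hN hκN hκ

theorem cvr_prod : Cvr N κ.toZFSet (ZFSet.prod κ.toZFSet κ.toZFSet) := card_all hN κ hκN hκ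

theorem cvr_prod2 {X Y : ZFSet.{0}} (hX : X ∈ N) (hY : Y ∈ N) (h : Cvr N κ.toZFSet X) (h' : Cvr N κ.toZFSet Y) :
    Cvr N κ.toZFSet (ZFSet.prod X Y) :=
  Cvr.trans hN hκN (hN.prod_mem hκN hκN) (hN.prod_mem hX hY) (cvr_prod hN hκN hκ)
    (card_prod_map hN hκN hκN hX hY h h')

theorem cvr_union {I r X : ZFSet.{0}} (hI : I ∈ N) (hr : r ∈ N) (hX : X ∈ N) (hc : Cvr N κ.toZFSet I)
    (h : ∀ i ∈ I, ∃ Y ∈ N, Cvr N κ.toZFSet Y ∧ ∀ x ∈ X, ZFSet.pair i x ∈ r → x ∈ Y)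
    (hcov : ∀ x ∈ X, ∃ i ∈ I, ZFSet.pair i x ∈ r) : Cvr N κ.toZFSet X := by
  obtain ⟨B, hB, hB'⟩ := hN.exists_pow (hN.prod_mem hκN hX)
  obtain ⟨c, hcN, hcf, hcs⟩ := exists_choice hN
    (F := fun i f => (∀ y : N, y.1 ∈ (⟨_, hκN⟩ : N).1 → ∀ x x' : N, ZFSet.pair y.1 x.1 ∈ f.1 →
      ZFSet.pair y.1 x'.1 ∈ f.1 → x = x') ∧ ∀ x : N, x.1 ∈ (⟨X, hX⟩ : N).1 →
      ZFSet.pair i.1 x.1 ∈ (⟨r, hr⟩ : N).1 → ∃ y : N, y.1 ∈ (⟨_, hκN⟩ : N).1 ∧
      ZFSet.pair y.1 x.1 ∈ f.1) (by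
      (repeat' first
      | exact DT.var _ | exact DT.last | exact DT.const _ | assumption
      | refine Dfn.pairMem ?_ ?_ ?_ | refine Dfn.isPair ?_ ?_ ?_ | refine Dfn.mem ?_ ?_
      | refine Dfn.eqv ?_ ?_ | refine Dfn.eq ?_ ?_ | refine Dfn.subset ?_ ?_
      | refine Dfn.isEmpty ?_ | refine Dfn.isTrans ?_ | refine Dfn.isOrd ?_ | refine Dfn.isNat ?_
      | refine Dfn.and ?_ ?_ | refine Dfn.or ?_ ?_ | refine Dfn.iff ?_ ?_ | refine Dfn.not ?_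
      | refine Dfn.imp ?_ ?_ | refine Dfn.all ?_ | refine Dfn.ex ?_ | exact Dfn.false')) hI hB (by
      intro i hi
      obtain ⟨Y, hY, ⟨f, hf, hf1, hf2⟩, hYr⟩ := h i.1 hi
      have hf' : ZFSet.sep (fun z => z ∈ (⟨f, hf⟩ : N).1) (ZFSet.prod κ.toZFSet X) ∈ N :=
        hN.sep_mem (by
      (repeat' first
      | exact DT.var _ | exact DT.last | exact DT.const _ | assumption
      | refine Dfn.pairMem ?_ ?_ ?_ | refine Dfn.isPair ?_ ?_ ?_ | refine Dfn.mem ?_ ?_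
      | refine Dfn.eqv ?_ ?_ | refine Dfn.eq ?_ ?_ | refine Dfn.subset ?_ ?_
      | refine Dfn.isEmpty ?_ | refine Dfn.isTrans ?_ | refine Dfn.isOrd ?_ | refine Dfn.isNat ?_
      | refine Dfn.and ?_ ?_ | refine Dfn.or ?_ ?_ | refine Dfn.iff ?_ ?_ | refine Dfn.not ?_
      | refine Dfn.imp ?_ ?_ | refine Dfn.all ?_ | refine Dfn.ex ?_ | exact Dfn.false')) (hN.prod_mem hκN hX)
      refine ⟨⟨_, hf'⟩, (hB' _).2 ⟨hf', fun z hz => (ZFSet.mem_sep.1 hz).1⟩, ?_, ?_⟩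
      · intro y hy x x' h1 h2
        exact Subtype.ext (hf1 y.1 hy _ _ (ZFSet.mem_sep.1 h1).2 (ZFSet.mem_sep.1 h2).2)
      · intro x hx hxr
        obtain ⟨y, hy, hyx⟩ := hf2 x.1 (hYr x.1 hx hxr)
        exact ⟨⟨y, hN.mem_of_mem hκN hy⟩, hy,
          ZFSet.mem_sep.2 ⟨ZFSet.pair_mem_prod.2 ⟨hy, hx⟩, hyx⟩⟩)
  have h1 : Cvr N (ZFSet.prod κ.toZFSet I) X := by
    refine cvr_of_dfn hN (F := fun p x => ∃ y i f : N, p.1 = ZFSet.pair y.1 i.1 ∧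
      ZFSet.pair i.1 f.1 ∈ (⟨c, hcN⟩ : N).1 ∧ ZFSet.pair y.1 x.1 ∈ f.1) (by
      (repeat' first
      | exact DT.var _ | exact DT.last | exact DT.const _ | assumption
      | refine Dfn.pairMem ?_ ?_ ?_ | refine Dfn.isPair ?_ ?_ ?_ | refine Dfn.mem ?_ ?_
      | refine Dfn.eqv ?_ ?_ | refine Dfn.eq ?_ ?_ | refine Dfn.subset ?_ ?_
      | refine Dfn.isEmpty ?_ | refine Dfn.isTrans ?_ | refine Dfn.isOrd ?_ | refine Dfn.isNat ?_
      | refine Dfn.and ?_ ?_ | refine Dfn.or ?_ ?_ | refine Dfn.iff ?_ ?_ | refine Dfn.not ?_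
      | refine Dfn.imp ?_ ?_ | refine Dfn.all ?_ | refine Dfn.ex ?_ | exact Dfn.false')) (hN.prod_mem hκN hI) hX ?_ ?_
    · rintro p hp x x' ⟨y, i, f, h2, h3, h4⟩ ⟨y', i', f', h2', h3', h4'⟩
      have hp' : p.1 ∈ ZFSet.prod κ.toZFSet I := hp
      rw [h2, ZFSet.pair_mem_prod] at hp'
      have h5 := h2.symm.trans h2'
      rw [ZFSet.pair_inj] at h5
      rw [← h5.2] at h3'
      have h6 : f.1 = f'.1 := (hcf.ap_eq h3).symm.trans (hcf.ap_eq h3')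
      rw [← h5.1, ← h6] at h4'
      exact (hcs i f h3).1 y hp'.1 x x' h4 h4'
    · intro x hx
      obtain ⟨i, hi, hix⟩ := hcov x.1 hx
      obtain ⟨f, hf, hif⟩ := hcf.tot i hi
      have hiN := hN.mem_of_mem hI hi
      have hfN := hN.mem_of_mem hB hf
      obtain ⟨y, hy, hyx⟩ := (hcs ⟨i, hiN⟩ ⟨f, hfN⟩ hif).2 x hx hix
      exact ⟨⟨_, hN.pair_mem y.2 hiN⟩, ZFSet.pair_mem_prod.2 ⟨hy, hi⟩, y, ⟨i, hiN⟩, ⟨f, hfN⟩, rfl,
        hif, hyx⟩
  exact Cvr.trans hN hκN (hN.prod_mem hκN hI) hX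
    (cvr_prod2 hN hκN hκ hκN hI (cvr_of_subset hN hκN fun z hz => hz) hc) h1

theorem card_omZ_sub : (omZ : ZFSet.{0}) ⊆ κ.toZFSet := by
  intro z hz
  obtain ⟨n, rfl⟩ := mem_omZ.1 hz
  rw [natZ_eq]
  exact Ordinal.toZFSet_mem_toZFSet_iff.2 ((Ordinal.natCast_lt_omega0 n).trans_le hκ)

theorem ctb_cvr {X : ZFSet.{0}} (hX : X ∈ N) (h : Ctb N X) : Cvr N κ.toZFSet X :=
  Cvr.trans hN hκN hN.omZ_mem hX (cvr_of_subset hN hκN (card_omZ_sub hN hκN hκ)) ((ctb_iff_cvr hN).1 h)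

theorem cvr_fin {X Y : ZFSet.{0}} (hX : X ∈ N) (hY : Y ∈ N) (hc : Cvr N κ.toZFSet X)
    (h : ∀ y ∈ Y, y ⊆ X ∧ FinZ y) : Cvr N κ.toZFSet Y := by
  classical
  have hn : ∀ n : ℕ, (natZ n : ZFSet.{0}) ∈ N := fun n => hN.mem_of_mem hN.omZ_mem (natZ_mem_omZ n)
  obtain ⟨Fi, hFi, hFi'⟩ := exists_fin hN hX
  refine Cvr.mono ?_ (X := Fi) (fun y hy => (hFi' y).2 (h y hy))
  have hsec : ∀ n : ℕ, ∃ Z ∈ N, Cvr N κ.toZFSet Z ∧ ∀ s ∈ Fi, Cvr N (natZ n) s → s ∈ Z := by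
    intro n
    induction n with
    | zero =>
      refine ⟨{∅}, hN.singleton_mem hN.empty_mem, ?_, ?_⟩
      · refine ctb_cvr hN hκN hκ (hN.singleton_mem hN.empty_mem) ?_
        refine (ctb_iff_cvr hN).2 ?_
        refine cvr_of_subset hN hN.omZ_mem ?_
        intro z hz
        rw [ZFSet.mem_singleton] at hz
        have h0 : (natZ 0 : ZFSet.{0}) = ∅ := by
          rw [ZFSet.eq_empty]
          intro y hy
          obtain ⟨m, hm, _⟩ := mem_natZ.1 hy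
          exact absurd hm (Nat.not_lt_zero m)
        rw [hz, ← h0]
        exact natZ_mem_omZ 0
      · rintro s _ ⟨f, _, _, h2⟩
        rw [ZFSet.mem_singleton, ZFSet.eq_empty]
        intro y hy
        obtain ⟨m, hm, _⟩ := h2 y hy
        obtain ⟨k, hk, _⟩ := mem_natZ.1 hm
        exact absurd hk (Nat.not_lt_zero k)
    | succ n ih =>
      obtain ⟨Z, hZ, hcZ, hZ'⟩ := ih
      obtain ⟨Z', hZN', hZ''⟩ := hN.exists_sep (P := fun s => ∃ p a s' : N, p.1 = ZFSet.pair a.1 s'.1 ∧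
          p.1 ∈ (⟨_, hN.prod_mem hX hZ⟩ : N).1 ∧ ∀ z : N, z.1 ∈ s.1 ↔ z = a ∨ z.1 ∈ s'.1) (by
        (repeat' first
      | exact DT.var _ | exact DT.last | exact DT.const _ | assumption
      | refine Dfn.pairMem ?_ ?_ ?_ | refine Dfn.isPair ?_ ?_ ?_ | refine Dfn.mem ?_ ?_
      | refine Dfn.eqv ?_ ?_ | refine Dfn.eq ?_ ?_ | refine Dfn.subset ?_ ?_
      | refine Dfn.isEmpty ?_ | refine Dfn.isTrans ?_ | refine Dfn.isOrd ?_ | refine Dfn.isNat ?_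
      | refine Dfn.and ?_ ?_ | refine Dfn.or ?_ ?_ | refine Dfn.iff ?_ ?_ | refine Dfn.not ?_
      | refine Dfn.imp ?_ ?_ | refine Dfn.all ?_ | refine Dfn.ex ?_ | exact Dfn.false')) hFi
      have hcZ' : Cvr N κ.toZFSet Z' := by
        refine Cvr.trans hN hκN (hN.prod_mem hX hZ) hZN' (cvr_prod2 hN hκN hκ hX hZ hc hcZ) ?_
        refine cvr_of_dfn hN (F := fun p s => ∃ a s' : N, p.1 = ZFSet.pair a.1 s'.1 ∧
          ∀ z : N, z.1 ∈ s.1 ↔ z = a ∨ z.1 ∈ s'.1) (by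
          (repeat' first
      | exact DT.var _ | exact DT.last | exact DT.const _ | assumption
      | refine Dfn.pairMem ?_ ?_ ?_ | refine Dfn.isPair ?_ ?_ ?_ | refine Dfn.mem ?_ ?_
      | refine Dfn.eqv ?_ ?_ | refine Dfn.eq ?_ ?_ | refine Dfn.subset ?_ ?_
      | refine Dfn.isEmpty ?_ | refine Dfn.isTrans ?_ | refine Dfn.isOrd ?_ | refine Dfn.isNat ?_
      | refine Dfn.and ?_ ?_ | refine Dfn.or ?_ ?_ | refine Dfn.iff ?_ ?_ | refine Dfn.not ?_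
      | refine Dfn.imp ?_ ?_ | refine Dfn.all ?_ | refine Dfn.ex ?_ | exact Dfn.false')) (hN.prod_mem hX hZ) hZN' ?_ ?_
        · rintro p - s t ⟨a, s', h1, h2⟩ ⟨b, t', h1', h2'⟩
          have h3 := h1.symm.trans h1'
          rw [ZFSet.pair_inj] at h3
          have e1 : a = b := Subtype.ext h3.1
          have e2 : s' = t' := Subtype.ext h3.2
          subst e1 e2
          exact Subtype.ext (hN.ext' s.2 t.2 fun z => (h2 z).trans (h2' z).symm)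
        · intro s hs
          obtain ⟨-, _, p, a, s', h1, h2, h3⟩ := (hZ'' s.1).1 hs
          exact ⟨p, h2, a, s', h1, h3⟩
      have hNe : ({∅} : ZFSet.{0}) ∈ N := hN.singleton_mem hN.empty_mem
      obtain ⟨W, hW, hW'⟩ := hN.exists_sep (P := fun s => s.1 = (⟨_, hN.empty_mem⟩ : N).1 ∨
          s.1 ∈ (⟨Z', hZN'⟩ : N).1) (by
        (repeat' first
      | exact DT.var _ | exact DT.last | exact DT.const _ | assumption
      | refine Dfn.pairMem ?_ ?_ ?_ | refine Dfn.isPair ?_ ?_ ?_ | refine Dfn.mem ?_ ?_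
      | refine Dfn.eqv ?_ ?_ | refine Dfn.eq ?_ ?_ | refine Dfn.subset ?_ ?_
      | refine Dfn.isEmpty ?_ | refine Dfn.isTrans ?_ | refine Dfn.isOrd ?_ | refine Dfn.isNat ?_
      | refine Dfn.and ?_ ?_ | refine Dfn.or ?_ ?_ | refine Dfn.iff ?_ ?_ | refine Dfn.not ?_
      | refine Dfn.imp ?_ ?_ | refine Dfn.all ?_ | refine Dfn.ex ?_ | exact Dfn.false')) hFi
      refine ⟨W, hW, ?_, ?_⟩
      · refine card_insert hN hκN hκ (cvr_prod hN hκN hκ) hZN' hW hN.empty_mem hcZ' ?_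
        intro z hz
        exact ((hW' z).1 hz).2.2
      · intro s hs hsn
        have hsN := hN.mem_of_mem hFi hs
        refine (hW' s).2 ⟨hs, hsN, ?_⟩
        by_cases hne : ∃ a, a ∈ s
        · refine Or.inr ((hZ'' s).2 ⟨hs, hsN, ?_⟩)
          obtain ⟨a, ha, s', hs', hss, hc', hiff⟩ := card_fin_step hN hsN hsn hne
          have haN := hN.mem_of_mem hsN ha
          obtain ⟨h1, t, ht⟩ := (hFi' s).1 hs
          have hs'Z : s' ∈ Z := by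
            refine hZ' s' ((hFi' s').2 ⟨fun z hz => h1 (hss hz), t.filter (fun z => z ∈ s'), ?_⟩) hc'
            intro z
            rw [Finset.mem_filter]
            exact ⟨fun hz => ⟨(ht z).1 (hss hz), hz⟩, fun hz => hz.2⟩
          refine ⟨⟨_, hN.pair_mem haN hs'⟩, ⟨a, haN⟩, ⟨s', hs'⟩, rfl, ZFSet.pair_mem_prod.2 ⟨h1 ha, hs'Z⟩, ?_⟩
          intro z
          refine (hiff z.1).trans ?_
          constructor
          · rintro (h | h)
            · exact Or.inl (Subtype.ext h)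
            · exact Or.inr h
          · rintro (h | h)
            · exact Or.inl (congrArg Subtype.val h)
            · exact Or.inr h
        · refine Or.inl ?_
          show s = ∅
          rw [ZFSet.eq_empty]
          intro y hy
          exact hne ⟨y, hy⟩
  have hud := ud_Cvr
  obtain ⟨r, hr, hr'⟩ := hN.exists_sep (P := fun z => ∃ n s : N, z.1 = ZFSet.pair n.1 s.1 ∧ Cvr N n.1 s.1) (by
      refine Dfn.ex (Dfn.ex (Dfn.and (Dfn.isPair (DT.var _) (DT.var _) (DT.var _)) ?_))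
      exact UD.d2 (P := fun N x y => Cvr N x.1 y.1) ud_Cvr hN (DT.var _) (DT.var _)) (hN.prod_mem hN.omZ_mem hFi)
  refine cvr_union hN hκN hκ hN.omZ_mem hr hFi (cvr_of_subset hN hκN (card_omZ_sub hN hκN hκ)) ?_ ?_
  · intro i hi
    obtain ⟨n, rfl⟩ := mem_omZ.1 hi
    obtain ⟨Z, hZ, hcZ, hZ'⟩ := hsec n
    refine ⟨Z, hZ, hcZ, ?_⟩
    intro s hs hsr
    obtain ⟨-, _, m, t, h1, h2⟩ := (hr' _).1 hsr
    have h1' : ZFSet.pair (natZ n) s = ZFSet.pair m.1 t.1 := h1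
    rw [ZFSet.pair_inj] at h1'
    rw [← h1'.1, ← h1'.2] at h2
    exact hZ' s hs h2
  · intro s hs
    obtain ⟨-, t, ht⟩ := (hFi' s).1 hs
    have hsN := hN.mem_of_mem hFi hs
    obtain ⟨n, hnc⟩ := card_fin_cvr hN t s hsN ht
    exact ⟨natZ n, natZ_mem_omZ n, (hr' _).2 ⟨ZFSet.pair_mem_prod.2 ⟨natZ_mem_omZ n, hs⟩,
      hN.pair_mem (hn n) hsN, ⟨_, hn n⟩, ⟨s, hsN⟩, rfl, hnc⟩⟩

theorem bdd_of_cvr {lam : Ordinal.{0}} (hl : lam.toZFSet ∈ N) (h1 : ¬ Cvr N κ.toZFSet lam.toZFSet)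
    (h2 : ∀ α < lam, Cvr N κ.toZFSet α.toZFSet) {X : ZFSet.{0}} (hX : X ∈ N) (hc : Cvr N κ.toZFSet X)
    (hs : X ⊆ lam.toZFSet) : ∃ α < lam, X ⊆ α.toZFSet := by
  by_contra hcon
  push Not at hcon
  have hlim : ∀ α < lam, α + 1 < lam := by
    intro α hα
    by_contra h
    have h3 : lam ≤ α + 1 := not_lt.1 h
    have hαN := hN.toZFSet_mem_of_le hα.le hl
    apply h1
    refine card_insert hN hκN hκ (cvr_prod hN hκN hκ) hαN hl hαN (h2 α hα) ?_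
    intro z hz
    obtain ⟨β, hβ, rfl⟩ := Ordinal.mem_toZFSet_iff.1 hz
    rcases (Order.lt_add_one_iff.1 (hβ.trans_le h3)).eq_or_lt with h4 | h4
    · exact Or.inl (by rw [h4])
    · exact Or.inr (Ordinal.toZFSet_mem_toZFSet_iff.2 h4)
  apply h1
  obtain ⟨r, hr, hr'⟩ := hN.exists_sep (P := fun z => ∃ x y : N, z.1 = ZFSet.pair x.1 y.1 ∧ y.1 ∈ x.1) (by
      (repeat' first
      | exact DT.var _ | exact DT.last | exact DT.const _ | assumption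
      | refine Dfn.pairMem ?_ ?_ ?_ | refine Dfn.isPair ?_ ?_ ?_ | refine Dfn.mem ?_ ?_
      | refine Dfn.eqv ?_ ?_ | refine Dfn.eq ?_ ?_ | refine Dfn.subset ?_ ?_
      | refine Dfn.isEmpty ?_ | refine Dfn.isTrans ?_ | refine Dfn.isOrd ?_ | refine Dfn.isNat ?_
      | refine Dfn.and ?_ ?_ | refine Dfn.or ?_ ?_ | refine Dfn.iff ?_ ?_ | refine Dfn.not ?_
      | refine Dfn.imp ?_ ?_ | refine Dfn.all ?_ | refine Dfn.ex ?_ | exact Dfn.false')) (hN.prod_mem hX hl)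
  refine cvr_union hN hκN hκ hX hr hl hc ?_ ?_
  · intro x hx
    obtain ⟨α, hα, rfl⟩ := Ordinal.mem_toZFSet_iff.1 (hs hx)
    refine ⟨_, hN.toZFSet_mem_of_le hα.le hl, h2 α hα, ?_⟩
    intro y hy hyr
    obtain ⟨-, _, x', y', h3, h4⟩ := (hr' _).1 hyr
    have h3' : ZFSet.pair α.toZFSet y = ZFSet.pair x'.1 y'.1 := h3
    rw [ZFSet.pair_inj] at h3'
    rw [← h3'.1, ← h3'.2] at h4
    exact h4
  · intro y hy
    obtain ⟨β, hβ, rfl⟩ := Ordinal.mem_toZFSet_iff.1 hy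
    obtain ⟨x, hx, hxβ⟩ : ∃ x ∈ X, x ∉ (β + 1).toZFSet := by
      by_contra hno
      push Not at hno
      exact hcon (β + 1) (hlim β hβ) (fun x hx => hno x hx)
    obtain ⟨α, hα, rfl⟩ := Ordinal.mem_toZFSet_iff.1 (hs hx)
    have h3 : β + 1 ≤ α := by
      by_contra h
      exact hxβ (Ordinal.toZFSet_mem_toZFSet_iff.2 (not_le.1 h))
    have h4 : β < α := lt_of_lt_of_le (Order.lt_add_one_iff.2 le_rfl) h3
    have h5 : β.toZFSet ∈ α.toZFSet := Ordinal.toZFSet_mem_toZFSet_iff.2 h4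
    have hβN := hN.toZFSet_mem_of_le hβ.le hl
    have hαN := hN.toZFSet_mem_of_le hα.le hl
    exact ⟨α.toZFSet, hx, (hr' _).2 ⟨ZFSet.pair_mem_prod.2 ⟨hx, hy⟩, hN.pair_mem hαN hβN,
      ⟨_, hαN⟩, ⟨_, hβN⟩, rfl, h5⟩⟩

end Pool.Agent.H17.CF
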