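import Pool.Agent.H17.CF.A.Sub
import Pool.Agent.H7.IG.Tk5
import Pool.Agent.H7.IG.Tk8

/-!
# CF-A3: ccc forcing preserves cardinals

`h : Fr M P R g`, `hc : CC M P R`.

PROOF of `CC.cov_fn` (covering of functions). Let `f ∈ M[g]` be a function from `A` to `B` (`A, B ∈ M`). By
`exists_sname` (with `A × B`) there is an open name `ζ ∈ M` of `f`. By `Fr.forced` (or directly by genericity)
some `p₀ ∈ g` forces that `ζ` is single valued: claim: there is `p₀ ∈ g` such that there are no `r ≤ p₀`, `a`, `b ≠ b'`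
with `((a,b), r) ∈ ζ` and `((a,b'), r) ∈ ζ`. (Otherwise the set `D` of the `r` that are in such a configuration (`r` in
both) is dense below every element of `g`; more precisely the definable set
`D = {p : p is in such a configuration, or no r ≤ p is}` is dense, so `g` meets it (`Fr.gen_dfn`, any `p ∈ g`); if
`p ∈ g` is in a configuration then `(a,b), (a,b') ∈ f`, contradiction; otherwise `p` is the wanted `p₀`.)
Put `F = {(a, b) : ∃ r ≤ p₀, ((a, b), r) ∈ ζ} ∈ M`. Then `f ⊆ F` (if `((a,b), r) ∈ ζ`, `r ∈ g` take `r' ∈ g` below `r`,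
`p₀`; `ζ` is open). For `a ∈ A` the section is countable in `M`: apply `CC` to
`Z = {r ≤ p₀ : ∃ b, ((a, b), r) ∈ ζ}`: get a countable `C ⊆ Z`; for `b` in the section with witness `r` there is `w ∈ C`
compatible with `r`; if `((a, b'), w) ∈ ζ` then `b' = b` by the choice of `p₀` (common extension). So the section is the
image of `C` under the definable map `w ↦` the `b'` with `((a, b'), w) ∈ ζ` (unique for `w ≤ p₀`):
`Ctb.image`.

`CC.om1`: `Ω.toZFSet ∈ M[g]`; if `Ω` were countable in `M[g]` there is a surjection `f : ω → Ω` in `M[g]`; cover it by `F`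
with countable sections: `Ω = ⋃_n F(n)` is countable in `M` (`ctb_union`), contradiction. Every `α < Ω` is
countable in `M`, hence in `M[g]` (`ctb_up`). (See the definition of `IsOm1` in H52/GC/Cnt.)

`CC.card`: let `κ` be infinite, `¬ Cvr M α κ` for `α < κ`. Suppose `Cvr M[g] α κ`, `α < κ`, by `f ∈ M[g]`. If `κ = ω` it
is trivial (`α` finite: `Cvr` by a finite set: absolute); if `κ > ω`, w.l.o.g. `α ≥ ω` (`Cvr` is monotone in the
covering set: enlarge `α` to `max α ω < κ`). Make `f` a function from `α` to `κ` (cut and extend by `0`; separation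
in `M[g]`), cover it by `F ∈ M` with countable sections: `κ ⊆ ⋃_{ξ<α} F(ξ)`, so `Cvr M (α × ω) κ` (choose in `M`
enumerations of the sections, `exists_choice` of Tk1) and `Cvr M α (α × ω)` (`exists_inj`.. for an infinite ordinal;
a lemma `cvr_prod` is stated in CF/A/Card.lean: you may use it) so `Cvr M α κ`, contradiction.

`CC.reg`: `κ > ω` regular in `M` (every function of `M` from `α < κ` to `κ` is bounded below `κ`), same in `M[g]`: cover
`f : α → κ` by `F`; each section `F(ξ)` is countable, so bounded in `κ` (regularity applied to a surjection of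
`ω` onto it); `ξ ↦ sup F(ξ)` is a function in `M` (`exists_fn`), so bounded.
-/

set_option autoImplicit false
set_option linter.unusedVariables false
set_option linter.unusedSectionVars false
set_option linter.unusedSimpArgs false
set_option linter.unusedTactic false
set_option linter.unreachableTactic false

open Pool.Agent.H17.Omega Pool.Agent.H17.Omega.CTM Pool.Agent.H52.GC Pool.Agent.H7.IG

namespace Pool.Agent.H17.CF

variable {M : Set ZFSet.{0}} {P R : ZFSet.{0}} {g : Set ZFSet.{0}}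

/-- Functions of a ccc extension are covered. -/
theorem CC.cov_fn (h : Fr M P R g) (hc : CC M P R) {f A B : ZFSet.{0}} (hf : f ∈ ExtZ M g) (hA : A ∈ M)
    (hB : B ∈ M) (hfn : Fn f A B) :
    ∃ F ∈ M, F ⊆ ZFSet.prod A B ∧ f ⊆ F ∧ ∀ a ∈ A, Ctb M (ZFSet.sep (fun b => ZFSet.pair a b ∈ F) B) := by
  have hM := h.hM
  have hfs : f ⊆ ZFSet.prod A B := by
    intro z hz
    obtain ⟨x, hx, y, hy, rfl⟩ := hfn.sub z hz
    exact ZFSet.pair_mem_prod.2 ⟨hx, hy⟩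
  obtain ⟨ζ, hζ, hζs, hop, hvv⟩ := exists_sname h (hM.prod_mem hA hB) hf hfs
  have hcomp : ∀ {a b r : ZFSet.{0}}, ZFSet.pair (ZFSet.pair a b) r ∈ ζ → a ∈ M ∧ b ∈ M ∧ r ∈ M ∧ r ∈ P ∧
      a ∈ A ∧ b ∈ B := by
    intro a b r hz
    have h1 := hM.of_pair_mem (hM.mem_of_mem hζ hz)
    have h2 := hM.of_pair_mem h1.1
    have h3 := ZFSet.pair_mem_prod.1 (hζs hz)
    have h4 := ZFSet.pair_mem_prod.1 h3.1
    exact ⟨h2.1, h2.2, h1.2, h3.2, h4.1, h4.2⟩
  -- a condition that forces that the name is single valued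
  obtain ⟨p₀, hp₀, hsv⟩ : ∃ p₀ ∈ g, ∀ r, ZFSet.pair r p₀ ∈ R → ∀ a b b', ZFSet.pair (ZFSet.pair a b) r ∈ ζ →
      ZFSet.pair (ZFSet.pair a b') r ∈ ζ → b = b' := by
    obtain ⟨p, hp⟩ := h.gen.ne
    obtain ⟨q, hq, hqD⟩ := h.gen_dfn (D := fun q => (∃ a b b' : M, ¬ b = b' ∧
        ZFSet.pair (ZFSet.pair a.1 b.1) q.1 ∈ ζ ∧ ZFSet.pair (ZFSet.pair a.1 b'.1) q.1 ∈ ζ) ∨
      (∀ r : M, ZFSet.pair r.1 q.1 ∈ R → ∀ a b b' : M, ZFSet.pair (ZFSet.pair a.1 b.1) r.1 ∈ ζ →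
        ZFSet.pair (ZFSet.pair a.1 b'.1) r.1 ∈ ζ → b = b')) (by
        have hz : ∀ {n : ℕ} {s t r : (Fin n → M) → ZFSet.{0}}, PD hM s → PD hM t → PD hM r →
            hM.Dfn (fun v => ZFSet.pair (ZFSet.pair (s v) (t v)) (r v) ∈ ζ) := fun hs ht hr =>
          Df.mem (PD.pair (PD.pair hs ht) hr) (PD.const hζ)
        refine Dfn.or ?_ ?_
        · refine Dfn.ex (Dfn.ex (Dfn.ex ?_))
          refine Dfn.and (Dfn.not (Dfn.eq (DT.var _) (DT.var _))) (Dfn.and ?_ ?_)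
          · exact hz (PD.var _) (PD.var _) (PD.var _)
          · exact hz (PD.var _) (PD.var _) (PD.var _)
        · refine Dfn.all (Dfn.imp (Df.mem (PD.pair (PD.var _) (PD.var _)) (PD.const h.hR)) ?_)
          refine Dfn.all (Dfn.all (Dfn.all ?_))
          refine Dfn.imp ?_ (Dfn.imp ?_ (Dfn.eq (DT.var _) (DT.var _)))
          · exact hz (PD.var _) (PD.var _) (PD.var _)
          · exact hz (PD.var _) (PD.var _) (PD.var _)) hp (by
        intro r hr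
        by_cases hcon : ∃ q : M, ZFSet.pair q.1 r.1 ∈ R ∧ ∃ a b b' : M, ¬ b = b' ∧
            ZFSet.pair (ZFSet.pair a.1 b.1) q.1 ∈ ζ ∧ ZFSet.pair (ZFSet.pair a.1 b'.1) q.1 ∈ ζ
        · obtain ⟨q, hq, hq'⟩ := hcon
          exact ⟨q, hq, Or.inl hq'⟩
        · refine ⟨r, h.po.refl _ (h.po.mem hr).1, Or.inr ?_⟩
          intro q hq a b b' h1 h2
          by_contra h3
          exact hcon ⟨q, hq, a, b, b', h3, h1, h2⟩)
    refine ⟨q.1, hq, ?_⟩
    rcases hqD with ⟨a, b, b', h1, h2, h3⟩ | h1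
    · exfalso
      have h4 : ZFSet.pair a.1 b.1 ∈ f := by rw [← hvv, mem_vv]; exact ⟨_, hq, h2⟩
      have h5 : ZFSet.pair a.1 b'.1 ∈ f := by rw [← hvv, mem_vv]; exact ⟨_, hq, h3⟩
      exact h1 (Subtype.ext ((hfn.ap_eq h4).symm.trans (hfn.ap_eq h5)))
    · intro r hr a b b' h2 h3
      obtain ⟨ha, hb, hrM, _⟩ := hcomp h2
      obtain ⟨_, hb', _⟩ := hcomp h3
      exact congrArg Subtype.val (h1 ⟨r, hrM⟩ hr ⟨a, ha⟩ ⟨b, hb⟩ ⟨b', hb'⟩ h2 h3)
  have hp₀M : p₀ ∈ M := hM.mem_of_mem h.hP (h.gen.sub _ hp₀)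
  refine ⟨ZFSet.sep (fun z => ∃ r ∈ P, ZFSet.pair r p₀ ∈ R ∧ ZFSet.pair z r ∈ ζ) (ZFSet.prod A B), ?_, ?_, ?_, ?_⟩
  · refine (PD.sep (n := 0) (hN := hM) (s := fun _ => ZFSet.prod A B)
      (P := fun v z => ∃ r ∈ P, ZFSet.pair r p₀ ∈ R ∧ ZFSet.pair z r ∈ ζ) (PD.const (hM.prod_mem hA hB)) ?_).1
      Fin.elim0
    refine Df.bex (P := fun v r => ZFSet.pair r p₀ ∈ R ∧ ZFSet.pair (v (Fin.last 0)).1 r ∈ ζ) (PD.const h.hP) ?_
    exact Dfn.and (Df.mem (PD.pair (PD.var _) (PD.const hp₀M)) (PD.const h.hR))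
      (Df.mem (PD.pair (PD.var _) (PD.var _)) (PD.const hζ))
  · exact fun z hz => (ZFSet.mem_sep.1 hz).1
  · intro z hz
    rw [ZFSet.mem_sep]
    refine ⟨hfs hz, ?_⟩
    rw [← hvv, mem_vv] at hz
    obtain ⟨q, hq, hzq⟩ := hz
    obtain ⟨r, hr, h1, h2⟩ := h.gen.dir _ hq _ hp₀
    exact ⟨r, h.gen.sub _ hr, h2, hop _ _ _ hzq h1⟩
  · intro a ha
    have haM := hM.mem_of_mem hA ha
    obtain ⟨C, hC, hCZ, hCc, hCw⟩ := hc (ZFSet.sep (fun r => ZFSet.pair r p₀ ∈ R ∧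
      ∃ b ∈ B, ZFSet.pair (ZFSet.pair a b) r ∈ ζ) P) (by
      refine (PD.sep (n := 0) (hN := hM) (s := fun _ => P)
        (P := fun v r => ZFSet.pair r p₀ ∈ R ∧ ∃ b ∈ B, ZFSet.pair (ZFSet.pair a b) r ∈ ζ) (PD.const h.hP) ?_).1
        Fin.elim0
      refine Dfn.and (Df.mem (PD.pair (PD.var _) (PD.const hp₀M)) (PD.const h.hR)) ?_
      refine Df.bex (P := fun v b => ZFSet.pair (ZFSet.pair a b) (v (Fin.last 0)).1 ∈ ζ) (PD.const hB) ?_
      exact Df.mem (PD.pair (PD.pair (PD.const haM) (PD.var _)) (PD.var _)) (PD.const hζ))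
      (fun z hz => (ZFSet.mem_sep.1 hz).1)
    refine Ctb.image hM hCc hC (F := fun w b => ZFSet.pair (ZFSet.pair a b.1) w.1 ∈ ζ) ?_ ?_ ?_
    · exact Df.mem (PD.pair (PD.pair (PD.const haM) (PD.var _)) (PD.var _)) (PD.const hζ)
    · intro w hw y y' h1 h2
      exact Subtype.ext (hsv w.1 (ZFSet.mem_sep.1 (hCZ hw)).2.1 a y.1 y'.1 h1 h2)
    · intro b hb
      rw [ZFSet.mem_sep, ZFSet.mem_sep] at hb
      obtain ⟨hbB, _, r, hrP, hr, hbr⟩ := hb
      obtain ⟨w, hw, s, hsr, hsw⟩ := hCw r (ZFSet.mem_sep.2 ⟨hrP, hr, b, hbB, hbr⟩)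
      obtain ⟨hwP, hwp, b', hb', hbw⟩ := ZFSet.mem_sep.1 (hCZ hw)
      have h1 := hop _ _ _ hbr hsr
      have h2 := hop _ _ _ hbw hsw
      have h3 := hsv s (h.po.trans _ _ _ hsr hr) a b b' h1 h2
      refine ⟨⟨w, hM.mem_of_mem hC hw⟩, ⟨b, hM.mem_of_mem hB hbB⟩, hw, rfl, ?_⟩
      show ZFSet.pair (ZFSet.pair a b) w ∈ ζ
      rw [h3]; exact hbw

theorem CC.om1 (h : Fr M P R g) (hc : CC M P R) {Ω : Ordinal.{0}} (hΩ : IsOm1 M Ω) : IsOm1 (ExtZ M g) Ω := by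
  have hM := h.hM
  refine ⟨h.sub hΩ.mem, fun hcon => ?_, fun α hα => ctb_up h.sub (hΩ.ctb α hα)⟩
  rw [ctb_iff_cvr h.ctm] at hcon
  obtain ⟨f, hf, hfo⟩ := cvr_onto h.ctm (h.sub hM.omZ_mem) (h.sub hΩ.mem) hcon
    ⟨(0 : Ordinal.{0}).toZFSet, Ordinal.toZFSet_mem_toZFSet_iff.2 (by
      have := hΩ.omega_lt hM 0
      simpa using this)⟩
  obtain ⟨F, hF, hFs, hfF, hFc⟩ := CC.cov_fn h hc hf hM.omZ_mem hΩ.mem hfo.1
  apply hΩ.unc
  refine ctb_union hM hM.omZ_mem hF hΩ.mem (ctb_om hM) ?_ ?_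
  · intro i hi
    refine ⟨_, ?_, hFc i hi, fun x hx hix => ZFSet.mem_sep.2 ⟨hx, hix⟩⟩
    refine (PD.sep (n := 0) (hN := hM) (s := fun _ => Ω.toZFSet)
      (P := fun v b => ZFSet.pair i b ∈ F) (PD.const hΩ.mem) ?_).1 Fin.elim0
    exact Df.mem (PD.pair (PD.const (hM.mem_of_mem hM.omZ_mem hi)) (PD.var _)) (PD.const hF)
  · intro x hx
    obtain ⟨i, hi, hix⟩ := hfo.2 x hx
    exact ⟨i, hi, hfF hix⟩

end Pool.Agent.H17.CF
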