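import Pool.Agent.H17.CF.FDefs
import Pool.Agent.H7.IG.Tk5

/-!
# CF-A10: if the iteration with the specialization is ccc then there is no name of an unbounded chain

PROOF. Suppose `FC Ω E P R O q ζ`. For every `β < Ω` there are `r ≤ q` and a node `x` of level `> β` with `(x, r) ∈ ζ` (`unb` with
`r := q`). Let `Z := {(r, {(x, 0)}) : (r, q) ∈ R, (x, r) ∈ ζ} ∈ M`, a subset of `QQ Ω E P O` (a function with one element
has `Sv` and there are no `x, y` in its domain with `Bel x y`: the level of `x` is not an element of itself).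
`CC` gives a countable `C ⊆ Z`, `C ∈ M`, such that every `z ∈ Z` is compatible with some `w ∈ C`. Since `C` is
countable there is `β < Ω` such that all the levels of the nodes `x_w`, `w ∈ C`, are `< β` (`IsOm1.bdd` of H52/GC/Cnt or
`om1_bdd` of Tk5 for the set of these levels, which is the image of `C`). Take `z = (r, {(x, 0)}) ∈ Z` with level of `x`
`> β`, `w = (r', {(y, 0)}) ∈ C` and a common extension `(u, f) ∈ QQ Ω E P O`: `(x, 0), (y, 0) ∈ f` and `Bel y x`, so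
`((y, x), u) ∈ O`. But `u ≤ r, r' ≤ q`, so `(x, u), (y, u) ∈ ζ` (openness): contradiction to `FC.ch` (with `x := y`,
`y := x`, `r := u`).
-/

set_option autoImplicit false
set_option linter.unusedVariables false
set_option linter.unusedSectionVars false
set_option linter.unusedSimpArgs false
set_option linter.unusedTactic false
set_option linter.unreachableTactic false

open Pool.Agent.H17.Omega Pool.Agent.H17.Omega.CTM Pool.Agent.H52.GC Pool.Agent.H7.IG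

namespace Pool.Agent.H17.CF

theorem E1_finS {M : Set ZFSet.{0}} (hM : CTM M) {X : ZFSet.{0}} (hX : X ∈ M) : finS X ∈ M := by
  obtain ⟨Fi, hFi, h⟩ := exists_fin hM hX
  have e : finS X = Fi := by
    ext a
    rw [mem_finS, h]
  rw [e]
  exact hFi

theorem E1_irr {x : ZFSet.{0}} (h : Bel x x) : False := by
  obtain ⟨a, m, b, n, h1, h2, h3⟩ := h
  rw [h1, ZFSet.pair_inj] at h2
  rw [h2.1] at h3
  exact ZFSet.mem_irrefl _ h3

theorem qq_nochain {M : Set ZFSet.{0}} (hM : CTM M) {P R : ZFSet.{0}} (hP : P ∈ M) (hR : R ∈ M) (po : Pre P R)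
    {Ω : Ordinal.{0}} (hΩ : IsOm1 M Ω) {E O : ZFSet.{0}} (hE : E ∈ M) (hO : O ∈ M)
    (hc : CC M (QQ Ω E P O) (RQ Ω E P R O)) {q ζ : ZFSet.{0}} (hζ : ζ ∈ M) : ¬ FC Ω E P R O q ζ := by
  intro hf
  have hom : omZ ∈ M := hM.omZ_mem
  have hL : LvZ Ω ∈ M := hM.sep_mem (Df.sub (PD.const hom) (PD.var _)) hΩ.mem
  have hD : Nd Ω E ∈ M := hM.prod_mem hL hE
  have hFS : finS (ZFSet.prod (Nd Ω E) omZ) ∈ M := E1_finS hM (hM.prod_mem hD hom)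
  have hqM : q ∈ M := hM.mem_of_mem hP hf.q_mem
  have h0M : natZ 0 ∈ M := hM.mem_of_mem hom (natZ_mem_omZ 0)
  have hZ : ZFSet.sep (fun z => ∃ r ∈ P, ∃ x ∈ Nd Ω E, z = ZFSet.pair r {ZFSet.pair x (natZ 0)} ∧
      ZFSet.pair r q ∈ R ∧ ZFSet.pair x r ∈ ζ) (ZFSet.prod P (finS (ZFSet.prod (Nd Ω E) omZ))) ∈ M := by
    refine hM.sep_mem ?_ (hM.prod_mem hP hFS)
    (repeat' first
    | exact PD.var _ | exact PD.const ‹_› | refine PD.pair ?_ ?_ | refine PD.singleton ?_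
    | refine Df.bex ?_ ?_ | refine Df.ball ?_ ?_ | refine Df.eq ?_ ?_ | refine Df.mem ?_ ?_ | refine Df.sub ?_ ?_
    | refine Dfn.and ?_ ?_ | refine Dfn.or ?_ ?_ | refine Dfn.not ?_ | refine Dfn.imp ?_ ?_)
  have hfin : ∀ x ∈ Nd Ω E, ({ZFSet.pair x (natZ 0)} : ZFSet.{0}) ∈ finS (ZFSet.prod (Nd Ω E) omZ) := by
    intro x hx
    rw [mem_finS]
    refine ⟨?_, {ZFSet.pair x (natZ 0)}, ?_⟩
    · intro z hz
      rw [ZFSet.mem_singleton] at hz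
      rw [hz, ZFSet.pair_mem_prod]
      exact ⟨hx, natZ_mem_omZ 0⟩
    · intro z
      rw [ZFSet.mem_singleton, Finset.mem_singleton]
  have hmem : ∀ r ∈ P, ∀ x ∈ Nd Ω E, ZFSet.pair r q ∈ R → ZFSet.pair x r ∈ ζ →
      ZFSet.pair r {ZFSet.pair x (natZ 0)} ∈ ZFSet.sep (fun z => ∃ r ∈ P, ∃ x ∈ Nd Ω E,
        z = ZFSet.pair r {ZFSet.pair x (natZ 0)} ∧
        ZFSet.pair r q ∈ R ∧ ZFSet.pair x r ∈ ζ) (ZFSet.prod P (finS (ZFSet.prod (Nd Ω E) omZ))) := by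
    intro r hr x hx h1 h2
    rw [ZFSet.mem_sep, ZFSet.pair_mem_prod]
    exact ⟨⟨hr, hfin x hx⟩, r, hr, x, hx, rfl, h1, h2⟩
  obtain ⟨C, hC, hCZ, hCc, hCd⟩ := hc _ hZ (by
    intro z hz
    rw [ZFSet.mem_sep] at hz
    obtain ⟨h1, r, hr, x, hx, rfl, h2, h3⟩ := hz
    rw [QQ, ZFSet.mem_sep]
    refine ⟨h1, r, _, rfl, ?_, ?_⟩
    · intro x1 m n hm hn
      rw [ZFSet.mem_singleton, ZFSet.pair_inj] at hm hn
      rw [hm.2, hn.2]
    · intro x1 y1 n h4 h5 h6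
      rw [ZFSet.mem_singleton, ZFSet.pair_inj] at h4 h5
      rw [h4.1, h5.1] at h6
      exact (E1_irr h6).elim)
  obtain ⟨α, hα, hb⟩ := hΩ.bdd hM hC hCc (F := fun z a => ∃ r m : M,
      z.1 = ZFSet.pair r.1 {ZFSet.pair (ZFSet.pair a.1 m.1) (natZ 0)}) (by
    refine Dfn.ex (P := fun v r => ∃ m : M, (v 0).1 = ZFSet.pair r.1 {ZFSet.pair (ZFSet.pair (v 1).1 m.1) (natZ 0)}) ?_
    refine Dfn.ex (P := fun v m => (v 0).1 = ZFSet.pair (v 2).1 {ZFSet.pair (ZFSet.pair (v 1).1 m.1) (natZ 0)}) ?_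
    exact Df.eq (PD.var 0) (PD.pair (PD.var 2) (PD.singleton (PD.pair (PD.pair (PD.var 1) (PD.var 3)) (PD.const h0M)))))
    (by
      rintro x - y y' ⟨r, m, h1⟩ ⟨r', m', h2⟩
      rw [h1, ZFSet.pair_inj] at h2
      have h3 : ZFSet.pair (ZFSet.pair y.1 m.1) (natZ 0) ∈
          ({ZFSet.pair (ZFSet.pair y'.1 m'.1) (natZ 0)} : ZFSet.{0}) := by
        rw [← h2.2]; exact ZFSet.mem_singleton.2 rfl
      rw [ZFSet.mem_singleton, ZFSet.pair_inj, ZFSet.pair_inj] at h3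
      exact Subtype.ext h3.1.1)
  obtain ⟨r, hrq, a, m, har, hαa⟩ := hf.unb q (po.refl q hf.q_mem) α hα
  have hx := hf.sub har
  rw [ZFSet.pair_mem_prod] at hx
  obtain ⟨w, hw, u, hu1, hu2⟩ := hCd _ (hmem r hx.2 _ hx.1 hrq har)
  have hwZ := hCZ hw
  rw [ZFSet.mem_sep] at hwZ
  obtain ⟨-, r', hr', x', hx', rfl, hr'q, hx'r⟩ := hwZ
  rw [RQ, ZFSet.mem_sep] at hu1 hu2
  obtain ⟨hq1, p, f, q1, g, e1, hpr, hgf⟩ := hu1
  obtain ⟨hq2, p', f', q2, g', e2, hpr', hgf'⟩ := hu2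
  rw [ZFSet.pair_inj, ZFSet.pair_inj] at e1 e2
  obtain ⟨rfl, rfl, rfl⟩ := e1
  obtain ⟨e2, rfl, rfl⟩ := e2
  rw [ZFSet.pair_inj] at e2
  obtain ⟨rfl, rfl⟩ := e2
  rw [ZFSet.pair_mem_prod] at hq1
  have hq := hq1.1
  rw [QQ, ZFSet.mem_sep] at hq
  obtain ⟨_, p1, f1, e3, _, h6⟩ := hq
  rw [ZFSet.pair_inj] at e3
  obtain ⟨rfl, rfl⟩ := e3
  rw [Nd, ZFSet.mem_prod] at hx'
  obtain ⟨b, hb1, n, hn, rfl⟩ := hx'
  have hbΩ : b ∈ Ω.toZFSet := (ZFSet.mem_sep.1 hb1).1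
  have haΩ : a ∈ Ω.toZFSet := by
    have h7 := hx.1
    rw [Nd, ZFSet.pair_mem_prod] at h7
    exact (ZFSet.mem_sep.1 h7.1).1
  obtain ⟨β, hβ, rfl⟩ := Ordinal.mem_toZFSet_iff.1 hbΩ
  obtain ⟨γ, hγ, rfl⟩ := Ordinal.mem_toZFSet_iff.1 haΩ
  have hβα : β ≤ α := by
    refine hb ⟨_, hM.mem_of_mem hC hw⟩ hw ⟨β.toZFSet, hM.mem_of_mem hΩ.mem hbΩ⟩
      ⟨⟨r', hM.mem_of_mem hP hr'⟩, ⟨n, hM.mem_of_mem hE hn⟩, rfl⟩ β hβ rfl
  have hαγ : α < γ := Ordinal.toZFSet_mem_toZFSet_iff.1 hαa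
  have hβγ : β.toZFSet ∈ γ.toZFSet := Ordinal.toZFSet_mem_toZFSet_iff.2 (hβα.trans_lt hαγ)
  have h8 := h6 (ZFSet.pair β.toZFSet n) (ZFSet.pair γ.toZFSet m) (natZ 0)
    (hgf' (ZFSet.mem_singleton.2 rfl)) (hgf (ZFSet.mem_singleton.2 rfl)) ⟨_, _, _, _, rfl, rfl, hβγ⟩
  exact hf.ch _ _ _ (po.trans _ _ _ hpr hrq) (hf.op _ _ _ hx'r hpr') (hf.op _ _ _ har hpr) h8

end Pool.Agent.H17.CF
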