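import Pool.Agent.H17.CF.FDefs
import Pool.Agent.H7.IG.Tk5
import Pool.Agent.H7.IG.Tk2

/-!
# CF-A6: ccc posets and sequences of length `ω₁`

PROOF of `exists_unb`. Let `f : Ω → P` be in `M`, `(P, R)` ccc. Say `p` is bad if there is `β < Ω` such that for all
`i ∈ [β, Ω)` the conditions `f(i)` and `p` have no common extension. Claim: there is `p ∈ P` such that no `r ≤ p` is bad.
Otherwise the set `D ∈ M` of the bad conditions is dense. By `CC` there is a countable `C ⊆ D` in `M` such that every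
`z ∈ D` is compatible with some `w ∈ C`. For `w ∈ C` let `β_w` be the least witness; since `C` is countable in `M` there is
`β* < Ω` with `β_w ≤ β*` for all `w ∈ C` (`IsOm1.bdd` of H52/GC/Cnt, or `om1_bdd` of Tk5 applied to the set of the `β_w`).
Let `z ≤ f(β*)` be bad (density), `r ≤ z, w` with `w ∈ C`: `r` is a common extension of `f(β*)` and `w`, `β* ≥ β_w`:
contradiction. So let `p` be as claimed, `g ∋ p` generic, `β < Ω`. The definable set `{r : ∃ i ∈ [β, Ω), (r, f(i)) ∈ R}` is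
dense below `p` (if `r ≤ p` then `r` is not bad, so `r` and some `f(i)`, `i ≥ β`, have a common extension).
`Fr.gen_dfn` and `gen.up` give `f(i) ∈ g`.

PROOF of `exists_anti`. Suppose `(P, R)` is not ccc in `M`: there is `Z ∈ M`, `Z ⊆ P`, such that for every countable
`C ⊆ Z` in `M` some `z ∈ Z` is incompatible with all `w ∈ C`. By `exists_dep` (H7/IG/Tk2; add the import) with length
`Ω` and values in `Z`: at stage `α < Ω` the set of the previous values is countable (`α` is countable), so there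
is a next value that is incompatible with all previous ones. (`Φ g y`: `y` is incompatible with all values of `g`.)
-/

set_option autoImplicit false
set_option linter.unusedVariables false
set_option linter.unusedSectionVars false
set_option linter.unusedSimpArgs false
set_option linter.unusedTactic false
set_option linter.unreachableTactic false

open Pool.Agent.H17.Omega Pool.Agent.H17.Omega.CTM Pool.Agent.H52.GC Pool.Agent.H7.IG

namespace Pool.Agent.H17.CF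

variable {M : Set ZFSet.{0}} {P R : ZFSet.{0}}

theorem exists_unb (hM : CTM M) (hP : P ∈ M) (hR : R ∈ M) (po : Pre P R) {Ω : Ordinal.{0}} (hΩ : IsOm1 M Ω)
    (hc : CC M P R) {f : ZFSet.{0}} (hf : f ∈ M) (hfn : Fn f Ω.toZFSet P) :
    ∃ p ∈ P, ∀ g, Fr M P R g → p ∈ g → ∀ β < Ω, ∃ i < Ω, β ≤ i ∧ ap f i.toZFSet ∈ g := by
  classical
  have hΩM := hΩ.mem
  have hno : ∀ {α β : Ordinal.{0}}, β ≤ α → α.toZFSet ∉ β.toZFSet := by
    intro α β h1 h2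
    exact absurd (Ordinal.toZFSet_mem_toZFSet_iff.1 h2) (not_lt.2 h1)
  let Bd : M → M → Prop := fun p b => ∀ i y r : M, i.1 ∈ (⟨_, hΩM⟩ : M).1 → ¬ i.1 ∈ b.1 →
    ZFSet.pair i.1 y.1 ∈ (⟨f, hf⟩ : M).1 → ZFSet.pair r.1 y.1 ∈ (⟨R, hR⟩ : M).1 →
      ¬ ZFSet.pair r.1 p.1 ∈ (⟨R, hR⟩ : M).1
  have hBd : hM.Dfn (fun v : Fin 2 → M => Bd (v 0) (v 1)) := (by
    (repeat' first
        | exact DT.var _ | exact DT.last | exact DT.const _ | assumption
        | refine Dfn.pairMem ?_ ?_ ?_ | refine Dfn.isPair ?_ ?_ ?_ | refine Dfn.mem ?_ ?_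
        | refine Dfn.eqv ?_ ?_ | refine Dfn.eq ?_ ?_ | refine Dfn.subset ?_ ?_
        | refine Dfn.isEmpty ?_ | refine Dfn.isTrans ?_ | refine Dfn.isOrd ?_
        | refine Dfn.isNat ?_ | refine Dfn.and ?_ ?_ | refine Dfn.or ?_ ?_ | refine Dfn.iff ?_ ?_
        | refine Dfn.not ?_ | refine Dfn.imp ?_ ?_ | refine Dfn.all ?_ | refine Dfn.ex ?_
        | exact Dfn.false'))
  obtain ⟨D, hD, hD'⟩ := hM.exists_sep (P := fun p => ∃ b : M, b.1 ∈ (⟨_, hΩM⟩ : M).1 ∧ Bd p b) (by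
    refine Dfn.ex (Dfn.and (Dfn.mem (DT.var _) (DT.const _)) ?_)
    exact Dfn.subst2 hBd (DT.var _) (DT.var _)) hP
  have hclaim : ∃ p ∈ P, ∀ r, ZFSet.pair r p ∈ R → r ∉ D := by
    by_contra hcon
    push Not at hcon
    obtain ⟨C, hC, hCD, hCc, hCm⟩ := hc D hD (fun z hz => ((hD' z).1 hz).1)
    obtain ⟨c, hcM, hcf, hcs⟩ := exists_choice hM (F := fun w b => b.1 ∈ (⟨_, hΩM⟩ : M).1 ∧ Bd w b) (by
      refine Dfn.and (Dfn.mem (DT.var _) (DT.const _)) ?_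
      exact Dfn.subst2 hBd (DT.var _) (DT.var _)) hC hΩM (by
      intro x hx
      obtain ⟨h1, h2, b, h3, h4⟩ := (hD' x.1).1 (hCD hx)
      exact ⟨b, h3, h3, h4⟩)
    obtain ⟨α, hα, hαb⟩ := hΩ.bdd hM hC hCc (F := fun w b => ZFSet.pair w.1 b.1 ∈ (⟨c, hcM⟩ : M).1) (by
    (repeat' first
        | exact DT.var _ | exact DT.last | exact DT.const _ | assumption
        | refine Dfn.pairMem ?_ ?_ ?_ | refine Dfn.isPair ?_ ?_ ?_ | refine Dfn.mem ?_ ?_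
        | refine Dfn.eqv ?_ ?_ | refine Dfn.eq ?_ ?_ | refine Dfn.subset ?_ ?_
        | refine Dfn.isEmpty ?_ | refine Dfn.isTrans ?_ | refine Dfn.isOrd ?_
        | refine Dfn.isNat ?_ | refine Dfn.and ?_ ?_ | refine Dfn.or ?_ ?_ | refine Dfn.iff ?_ ?_
        | refine Dfn.not ?_ | refine Dfn.imp ?_ ?_ | refine Dfn.all ?_ | refine Dfn.ex ?_
        | exact Dfn.false')) (by
      intro x hx y y' h1 h2
      exact Subtype.ext ((hcf.ap_eq h1).symm.trans (hcf.ap_eq h2)))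
    have hαΩ : α.toZFSet ∈ Ω.toZFSet := Ordinal.toZFSet_mem_toZFSet_iff.2 hα
    have hy0 := hfn.ap_mem hαΩ
    obtain ⟨z, hz1, hz2⟩ := hcon _ hy0.1
    obtain ⟨w, hw, r, hr1, hr2⟩ := hCm z hz2
    have hr3 := po.trans _ _ _ hr1 hz1
    have hw1 := hcf.ap_mem hw
    have hwM := hM.mem_of_mem hC hw
    have hbM := hM.mem_of_mem hΩM hw1.1
    have h1 := hcs ⟨w, hwM⟩ ⟨_, hbM⟩ hw1.2
    obtain ⟨β, hβ, hβe⟩ := Ordinal.mem_toZFSet_iff.1 hw1.1
    have h2 := hαb ⟨w, hwM⟩ hw ⟨_, hbM⟩ hw1.2 β hβ hβe.symm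
    have hyM := hM.mem_of_mem hP hy0.1
    have hrM := hM.mem_of_mem hP (po.mem hr1).1
    refine h1.2 ⟨_, hM.mem_of_mem hΩM hαΩ⟩ ⟨_, hyM⟩ ⟨r, hrM⟩ hαΩ ?_ hy0.2 hr3 hr2
    change ¬ α.toZFSet ∈ ap c w
    rw [← hβe]
    exact hno h2
  obtain ⟨p, hp, hpD⟩ := hclaim
  refine ⟨p, hp, fun g hg hpg β hβ => ?_⟩
  have hβM : β.toZFSet ∈ M := hM.mem_of_mem hΩM (Ordinal.toZFSet_mem_toZFSet_iff.2 hβ)
  obtain ⟨q, hq, i, y, h1, h2, h3, h4⟩ := hg.gen_dfn (D := fun r => ∃ i y : M, i.1 ∈ (⟨_, hΩM⟩ : M).1 ∧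
    ¬ i.1 ∈ (⟨_, hβM⟩ : M).1 ∧ ZFSet.pair i.1 y.1 ∈ (⟨f, hf⟩ : M).1 ∧
      ZFSet.pair r.1 y.1 ∈ (⟨R, hR⟩ : M).1) (by
    (repeat' first
        | exact DT.var _ | exact DT.last | exact DT.const _ | assumption
        | refine Dfn.pairMem ?_ ?_ ?_ | refine Dfn.isPair ?_ ?_ ?_ | refine Dfn.mem ?_ ?_
        | refine Dfn.eqv ?_ ?_ | refine Dfn.eq ?_ ?_ | refine Dfn.subset ?_ ?_
        | refine Dfn.isEmpty ?_ | refine Dfn.isTrans ?_ | refine Dfn.isOrd ?_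
        | refine Dfn.isNat ?_ | refine Dfn.and ?_ ?_ | refine Dfn.or ?_ ?_ | refine Dfn.iff ?_ ?_
        | refine Dfn.not ?_ | refine Dfn.imp ?_ ?_ | refine Dfn.all ?_ | refine Dfn.ex ?_
        | exact Dfn.false')) hpg (by
    intro r hr
    by_contra hcon
    push Not at hcon
    refine hpD r.1 hr ((hD' _).2 ⟨(po.mem hr).1, r.2, ⟨_, hβM⟩,
      Ordinal.toZFSet_mem_toZFSet_iff.2 hβ, fun i y r' h1 h2 h3 h4 h5 => ?_⟩)
    exact hcon r' h5 i y h1 h2 h3 h4)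
  obtain ⟨γ, hγ, hγe⟩ := Ordinal.mem_toZFSet_iff.1 h1
  refine ⟨γ, hγ, ?_, ?_⟩
  · by_contra hlt
    apply h2
    change i.1 ∈ β.toZFSet
    rw [← hγe]
    exact Ordinal.toZFSet_mem_toZFSet_iff.2 (not_le.1 hlt)
  · have h5 : ap f γ.toZFSet = y.1 := by
      rw [hγe]; exact hfn.ap_eq h3
    rw [h5]
    exact hg.gen.up _ hq _ h4

theorem exists_anti (hM : CTM M) (hP : P ∈ M) (hR : R ∈ M) {Ω : Ordinal.{0}} (hΩ : IsOm1 M Ω)
    (hc : ¬ CC M P R) :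
    ∃ f ∈ M, Fn f Ω.toZFSet P ∧ ∀ i < Ω, ∀ j < Ω, i ≠ j →
      ∀ r, ZFSet.pair r (ap f i.toZFSet) ∈ R → ZFSet.pair r (ap f j.toZFSet) ∉ R := by
  classical
  unfold CC at hc
  push Not at hc
  obtain ⟨Z, hZ, hZP, hZc⟩ := hc
  obtain ⟨g, hg, hgs⟩ := exists_dep hM (Φ := fun g y => ∀ x w r : M, ZFSet.pair x.1 w.1 ∈ g.1 →
    ZFSet.pair r.1 y.1 ∈ (⟨R, hR⟩ : M).1 → ¬ ZFSet.pair r.1 w.1 ∈ (⟨R, hR⟩ : M).1) (by
    (repeat' first
        | exact DT.var _ | exact DT.last | exact DT.const _ | assumption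
        | refine Dfn.pairMem ?_ ?_ ?_ | refine Dfn.isPair ?_ ?_ ?_ | refine Dfn.mem ?_ ?_
        | refine Dfn.eqv ?_ ?_ | refine Dfn.eq ?_ ?_ | refine Dfn.subset ?_ ?_
        | refine Dfn.isEmpty ?_ | refine Dfn.isTrans ?_ | refine Dfn.isOrd ?_
        | refine Dfn.isNat ?_ | refine Dfn.and ?_ ?_ | refine Dfn.or ?_ ?_ | refine Dfn.iff ?_ ?_
        | refine Dfn.not ?_ | refine Dfn.imp ?_ ?_ | refine Dfn.all ?_ | refine Dfn.ex ?_
        | exact Dfn.false')) hΩ.mem hZ (by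
    intro α hα g hg _
    obtain ⟨C, hC, hC'⟩ := hM.exists_sep (P := fun w => ∃ x : M, ZFSet.pair x.1 w.1 ∈ g.1) (by
    (repeat' first
        | exact DT.var _ | exact DT.last | exact DT.const _ | assumption
        | refine Dfn.pairMem ?_ ?_ ?_ | refine Dfn.isPair ?_ ?_ ?_ | refine Dfn.mem ?_ ?_
        | refine Dfn.eqv ?_ ?_ | refine Dfn.eq ?_ ?_ | refine Dfn.subset ?_ ?_
        | refine Dfn.isEmpty ?_ | refine Dfn.isTrans ?_ | refine Dfn.isOrd ?_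
        | refine Dfn.isNat ?_ | refine Dfn.and ?_ ?_ | refine Dfn.or ?_ ?_ | refine Dfn.iff ?_ ?_
        | refine Dfn.not ?_ | refine Dfn.imp ?_ ?_ | refine Dfn.all ?_ | refine Dfn.ex ?_
        | exact Dfn.false')) hZ
    have hαM : α.toZFSet ∈ M := hM.mem_of_mem hΩ.mem (Ordinal.toZFSet_mem_toZFSet_iff.2 hα)
    have hCc : Ctb M C := by
      refine Ctb.image hM (hΩ.ctb α hα) hαM (F := fun x w => ZFSet.pair x.1 w.1 ∈ g.1) (by
    (repeat' first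
        | exact DT.var _ | exact DT.last | exact DT.const _ | assumption
        | refine Dfn.pairMem ?_ ?_ ?_ | refine Dfn.isPair ?_ ?_ ?_ | refine Dfn.mem ?_ ?_
        | refine Dfn.eqv ?_ ?_ | refine Dfn.eq ?_ ?_ | refine Dfn.subset ?_ ?_
        | refine Dfn.isEmpty ?_ | refine Dfn.isTrans ?_ | refine Dfn.isOrd ?_
        | refine Dfn.isNat ?_ | refine Dfn.and ?_ ?_ | refine Dfn.or ?_ ?_ | refine Dfn.iff ?_ ?_
        | refine Dfn.not ?_ | refine Dfn.imp ?_ ?_ | refine Dfn.all ?_ | refine Dfn.ex ?_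
        | exact Dfn.false')) ?_ ?_
      · intro x _ y y' h1 h2
        exact Subtype.ext ((hg.ap_eq h1).symm.trans (hg.ap_eq h2))
      · intro w hw
        obtain ⟨h1, h2, x, hx⟩ := (hC' w).1 hw
        obtain ⟨x', hx', y', hy', he⟩ := hg.sub _ hx
        rw [ZFSet.pair_inj] at he
        exact ⟨x, ⟨w, h2⟩, by rw [he.1]; exact hx', rfl, hx⟩
    obtain ⟨z, hz, hz'⟩ := hZc C hC (fun w hw => ((hC' w).1 hw).1) hCc
    refine ⟨⟨z, hM.mem_of_mem hZ hz⟩, hz, fun x w r h1 h2 h3 => ?_⟩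
    obtain ⟨x', hx', y', hy', he⟩ := hg.sub _ h1
    rw [ZFSet.pair_inj] at he
    exact hz' w.1 ((hC' _).2 ⟨by rw [he.2]; exact hy', w.2, x, h1⟩) r.1 h2 h3)
  have hgP : Fn g.1 Ω.toZFSet P := by
    refine ⟨fun z hz => ?_, fun x hx => ?_, fun x hx y hy y' hy' h1 h2 => ?_⟩
    · obtain ⟨x, hx, y, hy, he⟩ := hg.sub z hz
      exact ⟨x, hx, y, hZP hy, he⟩
    · obtain ⟨y, hy, hxy⟩ := hg.tot x hx
      exact ⟨y, hZP hy, hxy⟩
    · exact (hg.ap_eq h1).symm.trans (hg.ap_eq h2)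
  have key : ∀ i < Ω, ∀ j < Ω, i < j → ∀ r, ZFSet.pair r (ap g.1 j.toZFSet) ∈ R →
      ZFSet.pair r (ap g.1 i.toZFSet) ∉ R := by
    intro i hi j hj hij r hr
    have hiΩ : i.toZFSet ∈ Ω.toZFSet := Ordinal.toZFSet_mem_toZFSet_iff.2 hi
    have hjΩ : j.toZFSet ∈ Ω.toZFSet := Ordinal.toZFSet_mem_toZFSet_iff.2 hj
    have hiM := hM.mem_of_mem hΩ.mem hiΩ
    have hjM := hM.mem_of_mem hΩ.mem hjΩ
    have h1 := hgP.ap_mem hiΩ
    have h2 := hgP.ap_mem hjΩ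
    have hrM : r ∈ M := (hM.of_pair_mem (hM.mem_of_mem hR hr)).1
    have hijz : i.toZFSet ∈ j.toZFSet := Ordinal.toZFSet_mem_toZFSet_iff.2 hij
    exact hgs j hj ⟨_, rs_mem hM g.2 hjM⟩ ⟨_, hM.mem_of_mem hP h2.1⟩ rfl h2.2 ⟨_, hiM⟩
      ⟨_, hM.mem_of_mem hP h1.1⟩ ⟨r, hrM⟩ (pair_mem_rs.2 ⟨hijz, h1.2⟩) hr
  refine ⟨g.1, g.2, hgP, fun i hi j hj hij r h1 h2 => ?_⟩
  rcases lt_or_gt_of_ne hij with h3 | h3
  · exact key i hi j hj h3 r h2 h1
  · exact key j hj i hi h3 r h1 h2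

end Pool.Agent.H17.CF
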