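import Pool.Agent.H17.CF.A.Fc
import Pool.Agent.H17.CF.A.Ccc
import Pool.Agent.H17.CF.A.Unb
import Pool.Agent.H17.CF.A.Bmr

/-!
# CF-A11: if there is no name of an unbounded chain then the iteration with the specialization is ccc

PROOF. `QQ Ω E P O` and `RQ Ω E P R O` belong to `M` (lemmas `QQ_mem`, `RQ_mem`: also to be proved here, with `PD`/`sep_mem`
and `finS_mem`: `X ∈ M → finS X ∈ M` from `exists_fin` of H52/GC/Fin). Suppose that `QQ` is not ccc in `M`. By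
`exists_anti` there is in `M` a sequence `(p_i, f_i)`, `i < Ω`, of pairwise incompatible elements of `QQ`. By
`exists_unb` for `i ↦ p_i` there are `p ∈ P` such that for every generic `g ∋ p` the set `B = {i < Ω : p_i ∈ g}` is
unbounded in `Ω`. Fix such a `g` (`exists_genZ`). In the ctm `N = M[g]` we have `IsOm1 N Ω` (`CC.om1`), `B ∈ N` (separation
with `h.mem_g`), `B` is uncountable in `N` (`ctb_iff_bdd`, Tk5), `I := vv g O ∈ N` (`vv_mem`), `Ctb N E` (`ctb_up`, Tk8).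
`I` is a tree graph: let `Bel x y`, `Bel y z`, `(x,y) ∈ I`, so `((x,y), p) ∈ O` for a `p ∈ g`; by `TGN` (and openness, for all
`r ≤ p`) the definable set `{r : ((x,z), r) ∈ O or ((y,z), r) ∈ O}` is dense below `p`, so it meets `g` (`Fr.gen_dfn`).
There is no unbounded chain of `I` in `N`: by `fc_of_chain` there would be `q`, `ζ` with `FC Ω E P R O q ζ`.
The `f_i`, `i ∈ B`, satisfy `QI Ω E I`: if `(x, n), (y, n) ∈ f_i`, `Bel x y`, then `((x,y), p_i) ∈ O`, `p_i ∈ g`.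
By `bmr` there are `i ≠ j` in `B` such that `f_i ∪ f_j` is `QI Ω E I`. For each of the finitely many pairs `(x, y)` with
`Bel x y` and the same colour in `f_i ∪ f_j` there is a `q ∈ g` with `((x, y), q) ∈ O`; let `r ∈ g` be below all these `q` and
`p_i`, `p_j` (induction on the finite set: `gen.dir`). By openness `((x, y), r) ∈ O` for all these pairs. So
`(r, f_i ∪ f_j) ∈ QQ` is a common extension of `(p_i, f_i)` and `(p_j, f_j)`: contradiction.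
-/

set_option autoImplicit false
set_option linter.unusedVariables false
set_option linter.unusedSectionVars false
set_option linter.unusedSimpArgs false
set_option linter.unusedTactic false
set_option linter.unreachableTactic false

open Pool.Agent.H17.Omega Pool.Agent.H17.Omega.CTM Pool.Agent.H52.GC Pool.Agent.H7.IG

namespace Pool.Agent.H17.CF

variable {M : Set ZFSet.{0}} (hM : CTM M)

include hM

omit hM in
/-- bounded form of `Bel` -/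
def E2_Bel (L E x y : ZFSet.{0}) : Prop :=
  ∃ a ∈ L, ∃ m ∈ E, ∃ b ∈ L, ∃ n ∈ E, x = ZFSet.pair a m ∧ y = ZFSet.pair b n ∧ a ∈ b

omit hM in
theorem E2_Bel_iff {Ω : Ordinal.{0}} {E x y : ZFSet.{0}} (hx : x ∈ Nd Ω E) (hy : y ∈ Nd Ω E) :
    E2_Bel (LvZ Ω) E x y ↔ Bel x y := by
  constructor
  · rintro ⟨a, _, m, _, b, _, n, _, h1, h2, h3⟩
    exact ⟨a, m, b, n, h1, h2, h3⟩
  · rintro ⟨a, m, b, n, rfl, rfl, h3⟩
    rw [Nd, ZFSet.pair_mem_prod] at hx hy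
    exact ⟨a, hx.1, m, hx.2, b, hy.1, n, hy.2, rfl, rfl, h3⟩

/-- The set of the finite subsets belongs to the model. -/
theorem finS_mem {X : ZFSet.{0}} (hX : X ∈ M) : finS X ∈ M := by
  obtain ⟨Fi, hFi, h⟩ := exists_fin hM hX
  have e : finS X = Fi := by
    ext a
    rw [mem_finS, h]
  rw [e]
  exact hFi

theorem E2_Lv_mem {Ω : Ordinal.{0}} (hΩ : Ω.toZFSet ∈ M) : LvZ Ω ∈ M :=
  hM.sep_mem (Df.sub (PD.const hM.omZ_mem) (PD.var _)) hΩ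

theorem E2_Nd_mem {Ω : Ordinal.{0}} (hΩ : Ω.toZFSet ∈ M) {E : ZFSet.{0}} (hE : E ∈ M) : Nd Ω E ∈ M :=
  hM.prod_mem (E2_Lv_mem hM hΩ) hE

omit hM in
theorem E2_fs {Ω : Ordinal.{0}} {E f x n : ZFSet.{0}} (hf : f ∈ finS (ZFSet.prod (Nd Ω E) omZ))
    (h : ZFSet.pair x n ∈ f) : x ∈ Nd Ω E ∧ n ∈ omZ := by
  have h1 := (mem_finS.1 hf).1 h
  rwa [ZFSet.pair_mem_prod] at h1

omit hM in
theorem E2_QQ {Ω : Ordinal.{0}} {E P O p f : ZFSet.{0}} : ZFSet.pair p f ∈ QQ Ω E P O ↔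
    p ∈ P ∧ f ∈ finS (ZFSet.prod (Nd Ω E) omZ) ∧ Sv f ∧
      ∀ x y n, ZFSet.pair x n ∈ f → ZFSet.pair y n ∈ f → Bel x y → ZFSet.pair (ZFSet.pair x y) p ∈ O := by
  rw [QQ, ZFSet.mem_sep, ZFSet.pair_mem_prod]
  constructor
  · rintro ⟨⟨h1, h2⟩, p', f', h3, h4⟩
    rw [ZFSet.pair_inj] at h3
    rw [← h3.1, ← h3.2] at h4
    exact ⟨h1, h2, h4⟩
  · rintro ⟨h1, h2, h3⟩
    exact ⟨⟨h1, h2⟩, p, f, rfl, h3⟩

omit hM in
theorem E2_QQ' {Ω : Ordinal.{0}} {E P O z : ZFSet.{0}} (h : z ∈ QQ Ω E P O) :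
    ∃ p f, z = ZFSet.pair p f := by
  rw [QQ, ZFSet.mem_sep] at h
  obtain ⟨_, p, f, h3, _⟩ := h
  exact ⟨p, f, h3⟩

theorem QQ_mem {Ω : Ordinal.{0}} (hΩ : Ω.toZFSet ∈ M) {E P O : ZFSet.{0}} (hE : E ∈ M) (hP : P ∈ M) (hO : O ∈ M) :
    QQ Ω E P O ∈ M := by
  have hL : LvZ Ω ∈ M := E2_Lv_mem hM hΩ
  have hD : Nd Ω E ∈ M := E2_Nd_mem hM hΩ hE
  have hom : omZ ∈ M := hM.omZ_mem
  have hFS : finS (ZFSet.prod (Nd Ω E) omZ) ∈ M := finS_mem hM (hM.prod_mem hD hom)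
  have h1 : ZFSet.sep (fun z => ∃ p ∈ P, ∃ f ∈ finS (ZFSet.prod (Nd Ω E) omZ), z = ZFSet.pair p f ∧
      (∀ x ∈ Nd Ω E, ∀ m ∈ omZ, ∀ n ∈ omZ, ZFSet.pair x m ∈ f → ZFSet.pair x n ∈ f → m = n) ∧
      ∀ x ∈ Nd Ω E, ∀ y ∈ Nd Ω E, ∀ n ∈ omZ, ZFSet.pair x n ∈ f → ZFSet.pair y n ∈ f →
        E2_Bel (LvZ Ω) E x y → ZFSet.pair (ZFSet.pair x y) p ∈ O)
      (ZFSet.prod P (finS (ZFSet.prod (Nd Ω E) omZ))) ∈ M := by
    refine hM.sep_mem ?_ (hM.prod_mem hP hFS)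
    unfold E2_Bel
    (repeat' first
    | exact PD.var _ | exact PD.const ‹_› | refine PD.pair ?_ ?_
    | refine Df.bex ?_ ?_ | refine Df.ball ?_ ?_ | refine Df.eq ?_ ?_ | refine Df.mem ?_ ?_ | refine Df.sub ?_ ?_
    | refine Dfn.and ?_ ?_ | refine Dfn.or ?_ ?_ | refine Dfn.not ?_ | refine Dfn.imp ?_ ?_)
  have e : QQ Ω E P O = ZFSet.sep (fun z => ∃ p ∈ P, ∃ f ∈ finS (ZFSet.prod (Nd Ω E) omZ), z = ZFSet.pair p f ∧
      (∀ x ∈ Nd Ω E, ∀ m ∈ omZ, ∀ n ∈ omZ, ZFSet.pair x m ∈ f → ZFSet.pair x n ∈ f → m = n) ∧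
      ∀ x ∈ Nd Ω E, ∀ y ∈ Nd Ω E, ∀ n ∈ omZ, ZFSet.pair x n ∈ f → ZFSet.pair y n ∈ f →
        E2_Bel (LvZ Ω) E x y → ZFSet.pair (ZFSet.pair x y) p ∈ O)
      (ZFSet.prod P (finS (ZFSet.prod (Nd Ω E) omZ))) := by
    ext z
    constructor
    · intro hz
      obtain ⟨p, f, rfl⟩ := E2_QQ' hz
      obtain ⟨h2, h3, h4, h5⟩ := E2_QQ.1 hz
      rw [ZFSet.mem_sep, ZFSet.pair_mem_prod]
      refine ⟨⟨h2, h3⟩, p, h2, f, h3, rfl, fun x _ m _ n _ hm hn => h4 x m n hm hn, ?_⟩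
      intro x hx y hy n _ h6 h7 h8
      exact h5 x y n h6 h7 ((E2_Bel_iff hx hy).1 h8)
    · intro hz
      rw [ZFSet.mem_sep] at hz
      obtain ⟨_, p, h2, f, h3, rfl, h4, h5⟩ := hz
      refine E2_QQ.2 ⟨h2, h3, ?_, ?_⟩
      · intro x m n hm hn
        exact h4 x (E2_fs h3 hm).1 m (E2_fs h3 hm).2 n (E2_fs h3 hn).2 hm hn
      · intro x y n h6 h7 h8
        exact h5 x (E2_fs h3 h6).1 y (E2_fs h3 h7).1 n (E2_fs h3 h6).2 h6 h7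
          ((E2_Bel_iff (E2_fs h3 h6).1 (E2_fs h3 h7).1).2 h8)
  rw [e]
  exact h1

omit hM in
theorem E2_RQ {Ω : Ordinal.{0}} {E P R O p f q g : ZFSet.{0}} :
    ZFSet.pair (ZFSet.pair p f) (ZFSet.pair q g) ∈ RQ Ω E P R O ↔
    ZFSet.pair p f ∈ QQ Ω E P O ∧ ZFSet.pair q g ∈ QQ Ω E P O ∧ ZFSet.pair p q ∈ R ∧ g ⊆ f := by
  rw [RQ, ZFSet.mem_sep, ZFSet.pair_mem_prod]
  constructor
  · rintro ⟨⟨h1, h2⟩, p', f', q', g', h3, h4⟩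
    rw [ZFSet.pair_inj, ZFSet.pair_inj, ZFSet.pair_inj] at h3
    obtain ⟨⟨rfl, rfl⟩, rfl, rfl⟩ := h3
    exact ⟨h1, h2, h4⟩
  · rintro ⟨h1, h2, h3⟩
    exact ⟨⟨h1, h2⟩, p, f, q, g, rfl, h3⟩

theorem RQ_mem {Ω : Ordinal.{0}} (hΩ : Ω.toZFSet ∈ M) {E P R O : ZFSet.{0}} (hE : E ∈ M) (hP : P ∈ M) (hR : R ∈ M)
    (hO : O ∈ M) : RQ Ω E P R O ∈ M := by
  have hQ : QQ Ω E P O ∈ M := QQ_mem hM hΩ hE hP hO
  have hD : Nd Ω E ∈ M := E2_Nd_mem hM hΩ hE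
  have hFS : finS (ZFSet.prod (Nd Ω E) omZ) ∈ M := finS_mem hM (hM.prod_mem hD hM.omZ_mem)
  have h1 : ZFSet.sep (fun z => ∃ p ∈ P, ∃ f ∈ finS (ZFSet.prod (Nd Ω E) omZ), ∃ q ∈ P,
      ∃ g ∈ finS (ZFSet.prod (Nd Ω E) omZ), z = ZFSet.pair (ZFSet.pair p f) (ZFSet.pair q g) ∧
      ZFSet.pair p q ∈ R ∧ g ⊆ f) (ZFSet.prod (QQ Ω E P O) (QQ Ω E P O)) ∈ M := by
    refine hM.sep_mem ?_ (hM.prod_mem hQ hQ)
    (repeat' first
    | exact PD.var _ | exact PD.const ‹_› | refine PD.pair ?_ ?_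
    | refine Df.bex ?_ ?_ | refine Df.ball ?_ ?_ | refine Df.eq ?_ ?_ | refine Df.mem ?_ ?_ | refine Df.sub ?_ ?_
    | refine Dfn.and ?_ ?_ | refine Dfn.or ?_ ?_ | refine Dfn.not ?_ | refine Dfn.imp ?_ ?_)
  have e : RQ Ω E P R O = ZFSet.sep (fun z => ∃ p ∈ P, ∃ f ∈ finS (ZFSet.prod (Nd Ω E) omZ), ∃ q ∈ P,
      ∃ g ∈ finS (ZFSet.prod (Nd Ω E) omZ), z = ZFSet.pair (ZFSet.pair p f) (ZFSet.pair q g) ∧
      ZFSet.pair p q ∈ R ∧ g ⊆ f) (ZFSet.prod (QQ Ω E P O) (QQ Ω E P O)) := by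
    ext z
    rw [RQ, ZFSet.mem_sep, ZFSet.mem_sep]
    constructor
    · rintro ⟨h2, p, f, q, g, rfl, h3, h4⟩
      rw [ZFSet.pair_mem_prod] at h2
      have h5 := E2_QQ.1 h2.1
      have h6 := E2_QQ.1 h2.2
      exact ⟨ZFSet.pair_mem_prod.2 h2, p, h5.1, f, h5.2.1, q, h6.1, g, h6.2.1, rfl, h3, h4⟩
    · rintro ⟨h2, p, _, f, _, q, _, g, _, h3, h4⟩
      exact ⟨h2, p, f, q, g, h3, h4⟩
  rw [e]
  exact h1

omit hM in
/-- Finitely many requirements are decided by one element of the filter. -/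
theorem E2_down {P R : ZFSet.{0}} {g : Set ZFSet.{0}} (h : Fr M P R g) {ι : Type 1} (S : Finset ι)
    (φ : ι → ZFSet.{0} → Prop) (hop : ∀ w r r', φ w r → ZFSet.pair r' r ∈ R → φ w r')
    (hS : ∀ w ∈ S, ∃ q ∈ g, φ w q) {r₀ : ZFSet.{0}} (hr₀ : r₀ ∈ g) :
    ∃ r ∈ g, ZFSet.pair r r₀ ∈ R ∧ ∀ w ∈ S, φ w r := by
  classical
  induction S using Finset.induction_on with
  | empty => exact ⟨r₀, hr₀, h.po.refl _ (h.gen.sub _ hr₀), fun w hw => (Finset.notMem_empty w hw).elim⟩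
  | insert w S hw ih =>
    obtain ⟨r, hr, h1, h2⟩ := ih fun w' hw' => hS w' (Finset.mem_insert_of_mem hw')
    obtain ⟨q, hq, h3⟩ := hS w (Finset.mem_insert_self _ _)
    obtain ⟨t, ht, h4, h5⟩ := h.gen.dir r hr q hq
    refine ⟨t, ht, h.po.trans _ _ _ h4 h1, fun w' hw' => ?_⟩
    rcases Finset.mem_insert.1 hw' with rfl | hw'
    · exact hop _ _ _ h3 h5
    · exact hop _ _ _ (h2 w' hw') h4

theorem qq_ccc {P R : ZFSet.{0}} (hP : P ∈ M) (hR : R ∈ M) (po : Pre P R)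
    {Ω : Ordinal.{0}} (hΩ : IsOm1 M Ω) {E O : ZFSet.{0}} (hE : E ∈ M) (hEc : Ctb M E) (hO : O ∈ M)
    (ho : OpN Ω E P R O) (ht : TGN Ω E R O) (hc : CC M P R) (hn : ∀ q, ∀ ζ ∈ M, ¬ FC Ω E P R O q ζ) :
    CC M (QQ Ω E P O) (RQ Ω E P R O) := by
  classical
  by_contra hncc
  have hΩm : Ω.toZFSet ∈ M := hΩ.mem
  obtain ⟨F, hF, hFn, hanti⟩ := exists_anti hM (QQ_mem hM hΩ.mem hE hP hO) (RQ_mem hM hΩ.mem hE hP hR hO) hΩ hncc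
  obtain ⟨FS, hFSe⟩ : ∃ FS, FS = finS (ZFSet.prod (Nd Ω E) omZ) := ⟨_, rfl⟩
  have hFS : FS ∈ M := by
    rw [hFSe]
    exact finS_mem hM (hM.prod_mem (E2_Nd_mem hM hΩ.mem hE) hM.omZ_mem)
  -- the components
  have hcomp : ∀ i ∈ Ω.toZFSet, ∃ p f, ap F i = ZFSet.pair p f ∧ p ∈ P ∧ f ∈ FS ∧ Sv f ∧
      ∀ x y n, ZFSet.pair x n ∈ f → ZFSet.pair y n ∈ f → Bel x y → ZFSet.pair (ZFSet.pair x y) p ∈ O := by
    intro i hi
    have h1 := (hFn.ap_mem hi).1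
    obtain ⟨p, f, h2⟩ := E2_QQ' h1
    rw [h2] at h1
    obtain ⟨h3, h4, h5, h6⟩ := E2_QQ.1 h1
    exact ⟨p, f, h2, h3, hFSe ▸ h4, h5, h6⟩
  obtain ⟨fp, hfpe⟩ : ∃ fp, fp = ZFSet.sep (fun z => ∃ i ∈ Ω.toZFSet, ∃ p ∈ P, ∃ f ∈ FS, z = ZFSet.pair i p ∧
    ZFSet.pair i (ZFSet.pair p f) ∈ F) (ZFSet.prod Ω.toZFSet P) := ⟨_, rfl⟩
  obtain ⟨ff, hffe⟩ : ∃ ff, ff = ZFSet.sep (fun z => ∃ i ∈ Ω.toZFSet, ∃ p ∈ P, ∃ f ∈ FS, z = ZFSet.pair i f ∧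
    ZFSet.pair i (ZFSet.pair p f) ∈ F) (ZFSet.prod Ω.toZFSet FS) := ⟨_, rfl⟩
  have hfp : fp ∈ M := by
    rw [hfpe]
    refine hM.sep_mem ?_ (hM.prod_mem hΩm hP)
    (repeat' first
    | exact PD.var _ | exact PD.const ‹_› | refine PD.pair ?_ ?_
    | refine Df.bex ?_ ?_ | refine Df.ball ?_ ?_ | refine Df.eq ?_ ?_ | refine Df.mem ?_ ?_ | refine Df.sub ?_ ?_
    | refine Dfn.and ?_ ?_ | refine Dfn.or ?_ ?_ | refine Dfn.not ?_ | refine Dfn.imp ?_ ?_)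
  have hff : ff ∈ M := by
    rw [hffe]
    refine hM.sep_mem ?_ (hM.prod_mem hΩm hFS)
    (repeat' first
    | exact PD.var _ | exact PD.const ‹_› | refine PD.pair ?_ ?_
    | refine Df.bex ?_ ?_ | refine Df.ball ?_ ?_ | refine Df.eq ?_ ?_ | refine Df.mem ?_ ?_ | refine Df.sub ?_ ?_
    | refine Dfn.and ?_ ?_ | refine Dfn.or ?_ ?_ | refine Dfn.not ?_ | refine Dfn.imp ?_ ?_)
  have hfp' : ∀ i ∈ Ω.toZFSet, ∀ y, ZFSet.pair i y ∈ fp ↔ ∃ f, ap F i = ZFSet.pair y f := by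
    intro i hi y
    rw [hfpe, ZFSet.mem_sep]
    constructor
    · rintro ⟨_, i', _, p, _, f, _, h1, h2⟩
      rw [ZFSet.pair_inj] at h1
      obtain ⟨rfl, rfl⟩ := h1
      exact ⟨f, hFn.ap_eq h2⟩
    · rintro ⟨f, h1⟩
      obtain ⟨p', f', h2, h3, h4, _⟩ := hcomp i hi
      rw [h2, ZFSet.pair_inj] at h1
      obtain ⟨rfl, rfl⟩ := h1
      refine ⟨ZFSet.pair_mem_prod.2 ⟨hi, h3⟩, i, hi, p', h3, f', h4, rfl, ?_⟩
      rw [← h2]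
      exact (hFn.ap_mem hi).2
  have hff' : ∀ i ∈ Ω.toZFSet, ∀ y, ZFSet.pair i y ∈ ff ↔ ∃ p, ap F i = ZFSet.pair p y := by
    intro i hi y
    rw [hffe, ZFSet.mem_sep]
    constructor
    · rintro ⟨_, i', _, p, _, f, _, h1, h2⟩
      rw [ZFSet.pair_inj] at h1
      obtain ⟨rfl, rfl⟩ := h1
      exact ⟨p, hFn.ap_eq h2⟩
    · rintro ⟨p, h1⟩
      obtain ⟨p', f', h2, h3, h4, _⟩ := hcomp i hi
      rw [h2, ZFSet.pair_inj] at h1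
      obtain ⟨rfl, rfl⟩ := h1
      refine ⟨ZFSet.pair_mem_prod.2 ⟨hi, h4⟩, i, hi, p', h3, f', h4, rfl, ?_⟩
      rw [← h2]
      exact (hFn.ap_mem hi).2
  have hfpn : Fn fp Ω.toZFSet P := by
    refine ⟨fun z hz => ?_, fun i hi => ?_, fun i hi y _ y' _ h1 h2 => ?_⟩
    · rw [hfpe, ZFSet.mem_sep, ZFSet.mem_prod] at hz
      exact hz.1
    · obtain ⟨p, f, h1, h2, _⟩ := hcomp i hi
      exact ⟨p, h2, (hfp' i hi p).2 ⟨f, h1⟩⟩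
    · obtain ⟨f, h3⟩ := (hfp' i hi y).1 h1
      obtain ⟨f', h4⟩ := (hfp' i hi y').1 h2
      rw [h3, ZFSet.pair_inj] at h4
      exact h4.1
  obtain ⟨p, hpP, hunb⟩ := exists_unb hM hP hR po hΩ hc hfp hfpn
  obtain ⟨g, hFr, hpg⟩ := exists_genZ hM hP hR po hpP
  have hN := hFr.ctm
  have hMN := hFr.sub
  have hΩN := CC.om1 hFr hc hΩ
  obtain ⟨γ, hγ, hγ'⟩ := hFr.mem_g
  have hΩmN : Ω.toZFSet ∈ ExtZ M g := hMN hΩm
  have hfpN : fp ∈ ExtZ M g := hMN hfp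
  have hffN : ff ∈ ExtZ M g := hMN hff
  have hFSN : FS ∈ ExtZ M g := hMN hFS
  obtain ⟨B, hBe⟩ : ∃ B, B = ZFSet.sep (fun i => ∃ q ∈ γ, ZFSet.pair i q ∈ fp) Ω.toZFSet := ⟨_, rfl⟩
  have hB : B ∈ ExtZ M g := by
    rw [hBe]
    refine hN.sep_mem ?_ hΩmN
    (repeat' first
    | exact PD.var _ | exact PD.const ‹_› | refine PD.pair ?_ ?_
    | refine Df.bex ?_ ?_ | refine Df.ball ?_ ?_ | refine Df.eq ?_ ?_ | refine Df.mem ?_ ?_ | refine Df.sub ?_ ?_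
    | refine Dfn.and ?_ ?_ | refine Dfn.or ?_ ?_ | refine Dfn.not ?_ | refine Dfn.imp ?_ ?_)
  have hBs : B ⊆ Ω.toZFSet := by
    intro z hz
    rw [hBe, ZFSet.mem_sep] at hz
    exact hz.1
  have hBm : ∀ i ∈ B, ∃ q f, ap F i = ZFSet.pair q f ∧ q ∈ g := by
    intro i hi
    have hi' := hBs hi
    rw [hBe, ZFSet.mem_sep] at hi
    obtain ⟨_, q, hq, h1⟩ := hi
    obtain ⟨f, h2⟩ := (hfp' i hi' q).1 h1
    exact ⟨q, f, h2, (hγ' q).1 hq⟩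
  have hBu : ¬ Ctb (ExtZ M g) B := by
    rw [ctb_iff_bdd hN hΩN hB hBs]
    rintro ⟨α, hα, h1⟩
    obtain ⟨i, hi, hαi, h2⟩ := hunb g hFr hpg α hα
    have hi' : i.toZFSet ∈ Ω.toZFSet := Ordinal.toZFSet_mem_toZFSet_iff.2 hi
    have h3 : i.toZFSet ∈ B := by
      rw [hBe, ZFSet.mem_sep]
      exact ⟨hi', ap fp i.toZFSet, (hγ' _).2 h2, (hfpn.ap_mem hi').2⟩
    exact absurd (Ordinal.toZFSet_mem_toZFSet_iff.1 (h1 h3)) (not_lt.2 hαi)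
  have hI : vv g O ∈ ExtZ M g := vv_mem hFr hO
  have hT : TG Ω E (vv g O) := by
    intro x hx y hy z hz hxy hyz hxyI
    obtain ⟨q, hq, h1⟩ := mem_vv.1 hxyI
    have hxM : x ∈ M := hM.mem_of_mem (E2_Nd_mem hM hΩ.mem hE) hx
    have hyM : y ∈ M := hM.mem_of_mem (E2_Nd_mem hM hΩ.mem hE) hy
    have hzM : z ∈ M := hM.mem_of_mem (E2_Nd_mem hM hΩ.mem hE) hz
    obtain ⟨r, hr, h2⟩ := hFr.gen_dfn (D := fun r => ZFSet.pair (ZFSet.pair x z) r.1 ∈ O ∨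
      ZFSet.pair (ZFSet.pair y z) r.1 ∈ O) (by
      (repeat' first
    | exact PD.var _ | exact PD.const ‹_› | refine PD.pair ?_ ?_
    | refine Df.bex ?_ ?_ | refine Df.ball ?_ ?_ | refine Df.eq ?_ ?_ | refine Df.mem ?_ ?_ | refine Df.sub ?_ ?_
    | refine Dfn.and ?_ ?_ | refine Dfn.or ?_ ?_ | refine Dfn.not ?_ | refine Dfn.imp ?_ ?_)) hq (by
      intro r hr
      obtain ⟨r', h3, h4⟩ := ht x hx y hy z hz hxy hyz r.1 (ho.op _ _ _ _ h1 hr)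
      exact ⟨⟨r', hM.mem_of_mem hP (po.mem h3).1⟩, h3, h4⟩)
    rcases h2 with h2 | h2
    · exact Or.inl (mem_vv.2 ⟨_, hr, h2⟩)
    · exact Or.inr (mem_vv.2 ⟨_, hr, h2⟩)
  have hno : ∀ C ∈ ExtZ M g, ¬ Chn Ω E (vv g O) C := by
    intro C hC hch
    obtain ⟨q, _, ζ, hζ, h1, _⟩ := fc_of_chain hFr hΩ.mem hE hO ho hC hch
    exact hn q ζ hζ h1
  -- the finite functions on `B`
  obtain ⟨f', hf'e⟩ : ∃ f', f' = ZFSet.sep (fun z => ∃ i ∈ B, ∃ y ∈ FS, z = ZFSet.pair i y) ff := ⟨_, rfl⟩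
  have hf'N : f' ∈ ExtZ M g := by
    rw [hf'e]
    refine hN.sep_mem ?_ hffN
    (repeat' first
    | exact PD.var _ | exact PD.const ‹_› | refine PD.pair ?_ ?_
    | refine Df.bex ?_ ?_ | refine Df.ball ?_ ?_ | refine Df.eq ?_ ?_ | refine Df.mem ?_ ?_ | refine Df.sub ?_ ?_
    | refine Dfn.and ?_ ?_ | refine Dfn.or ?_ ?_ | refine Dfn.not ?_ | refine Dfn.imp ?_ ?_)
  have hf'm : ∀ i ∈ B, ∀ y, ZFSet.pair i y ∈ f' ↔ ∃ p, ap F i = ZFSet.pair p y := by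
    intro i hi y
    rw [hf'e, ZFSet.mem_sep, hff' i (hBs hi)]
    constructor
    · exact fun h => h.1
    · rintro ⟨p, h⟩
      refine ⟨⟨p, h⟩, i, hi, y, ?_, rfl⟩
      obtain ⟨p', f', h2, h3, h4, _⟩ := hcomp i (hBs hi)
      rw [h2, ZFSet.pair_inj] at h
      rw [← h.2]
      exact h4
  have hf'n : Fn f' B (finS (ZFSet.prod (Nd Ω E) omZ)) := by
    rw [← hFSe]
    refine ⟨fun z hz => ?_, fun i hi => ?_, fun i hi y _ y' _ h1 h2 => ?_⟩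
    · rw [hf'e, ZFSet.mem_sep] at hz
      exact hz.2
    · obtain ⟨p, f, h1, _, h2, _⟩ := hcomp i (hBs hi)
      exact ⟨f, h2, (hf'm i hi f).2 ⟨p, h1⟩⟩
    · obtain ⟨f, h3⟩ := (hf'm i hi y).1 h1
      obtain ⟨f', h4⟩ := (hf'm i hi y').1 h2
      rw [h3, ZFSet.pair_inj] at h4
      exact h4.2
  have hap : ∀ i ∈ B, ∀ q f, ap F i = ZFSet.pair q f → ap f' i = f := by
    intro i hi q f h
    exact hf'n.ap_eq ((hf'm i hi f).2 ⟨q, h⟩)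
  obtain ⟨i, hi, j, hj, hij, hQI⟩ := bmr hN hΩN (hMN hE) (ctb_up hMN hEc) hI hT hno hB hBs hBu hf'N hf'n (by
    intro i hi
    obtain ⟨q, f, h1, h2⟩ := hBm i hi
    rw [hap i hi q f h1]
    obtain ⟨q', f', h3, h4, h5, h6, h7⟩ := hcomp i (hBs hi)
    rw [h1, ZFSet.pair_inj] at h3
    obtain ⟨rfl, rfl⟩ := h3
    refine ⟨hFSe ▸ h5, h6, fun x y n hx hy hxy => mem_vv.2 ⟨q, h2, h7 x y n hx hy hxy⟩⟩)
  obtain ⟨q, f, h1, h2⟩ := hBm i hi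
  obtain ⟨q', k, h1', h2'⟩ := hBm j hj
  rw [hap i hi q f h1, hap j hj q' k h1'] at hQI
  obtain ⟨hu, hsv, hbel⟩ := hQI
  obtain ⟨s, hs⟩ := (mem_finS.1 hu).2
  obtain ⟨r₀, hr₀, h3, h4⟩ := hFr.gen.dir q h2 q' h2'
  obtain ⟨r, hr, h5, h6⟩ := E2_down hFr (s ×ˢ s) (fun w r => ∀ x y n, w.1 = ZFSet.pair x n → w.2 = ZFSet.pair y n →
    Bel x y → ZFSet.pair (ZFSet.pair x y) r ∈ O) (by
      intro w r r' h7 h8 x y n h9 h10 h11
      exact ho.op _ _ _ _ (h7 x y n h9 h10 h11) h8) (by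
      rintro ⟨w, w'⟩ hw
      rw [Finset.mem_product] at hw
      by_cases hex : ∃ x y n, w = ZFSet.pair x n ∧ w' = ZFSet.pair y n ∧ Bel x y
      · obtain ⟨x, y, n, h7, h8, h9⟩ := hex
        have h10 : ZFSet.pair x y ∈ vv g O := by
          refine hbel x y n ?_ ?_ h9
          · rw [← h7]; exact (hs _).2 hw.1
          · rw [← h8]; exact (hs _).2 hw.2
        obtain ⟨t, ht', h11⟩ := mem_vv.1 h10
        refine ⟨t, ht', fun x' y' n' h12 h13 h14 => ?_⟩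
        have h12 : w = ZFSet.pair x' n' := h12
        have h13 : w' = ZFSet.pair y' n' := h13
        rw [h7, ZFSet.pair_inj] at h12
        rw [h8, ZFSet.pair_inj] at h13
        rw [← h12.1, ← h13.1]
        exact h11
      · exact ⟨r₀, hr₀, fun x y n h7 h8 h9 => (hex ⟨x, y, n, h7, h8, h9⟩).elim⟩) hr₀
  have hrP : r ∈ P := hFr.gen.sub r hr
  have hmem : ZFSet.pair r (f ∪ k) ∈ QQ Ω E P O := by
    refine E2_QQ.2 ⟨hrP, hu, hsv, fun x y n hx hy hxy => ?_⟩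
    exact h6 (ZFSet.pair x n, ZFSet.pair y n) (Finset.mem_product.2 ⟨(hs _).1 hx, (hs _).1 hy⟩) x y n rfl rfl hxy
  obtain ⟨i', hi', rfl⟩ := Ordinal.mem_toZFSet_iff.1 (hBs hi)
  obtain ⟨j', hj', rfl⟩ := Ordinal.mem_toZFSet_iff.1 (hBs hj)
  refine hanti i' hi' j' hj' (fun h => hij (by rw [h])) (ZFSet.pair r (f ∪ k)) ?_ ?_
  · have h7 := (hFn.ap_mem (hBs hi)).1
    rw [h1] at h7 ⊢
    exact E2_RQ.2 ⟨hmem, h7, po.trans _ _ _ h5 h3, fun z hz => ZFSet.mem_union.2 (Or.inl hz)⟩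
  · have h7 := (hFn.ap_mem (hBs hj)).1
    rw [h1'] at h7 ⊢
    exact E2_RQ.2 ⟨hmem, h7, po.trans _ _ _ h5 h4, fun z hz => ZFSet.mem_union.2 (Or.inr hz)⟩

end Pool.Agent.H17.CF
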