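import Pool.Agent.H17.CF.A.Sub

/-!
# CF-A9: names of chains

`(P, R)` is a preorder, `O` an open name of a set of pairs of nodes. `FC Ω E P R O q ζ` (see FDefs): `q` forces that `ζ` is
an unbounded chain.

PROOF of `chain_of_fc`. Let `g ∋ q` be generic, `C = vv g ζ`. `C ⊆ Nd`: clear. Chain: let `x, y ∈ C`, `Bel x y`, and suppose
`(x, y) ∈ vv g O`: there are `p₁, p₂, p₃ ∈ g` with `(x, p₁), (y, p₂) ∈ ζ`, `((x,y), p₃) ∈ O`. Let `r ∈ g` be below `p₁, p₂, p₃, q`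
(`gen.dir` repeatedly, transitivity `po.trans`). By openness `(x, r), (y, r) ∈ ζ`, `((x,y), r) ∈ O`: contradiction to
`ch`. Unbounded: for `β < Ω` the definable set of the `r'` with `∃ a m, ((a,m), r') ∈ ζ`, `β ∈ a` is dense below `q`
(`unb`; use `Fr.gen_dfn`).

PROOF of `fc_of_chain`. Let `C ∈ M[g]` be an unbounded chain of `vv g O`. Let `ζ ∈ M` be an open simple name of `C`,
`ζ ⊆ Nd × P` (`exists_sname`). Let `D` be the set of the `r ∈ P` such that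
 (i) `FC Ω E P R O r ζ`, or
 (ii) there are `x, y` with `(x, r), (y, r) ∈ ζ`, `((x,y), r) ∈ O`, or
 (iii) there is `β < Ω` such that for no `r' ≤ r` there are `a, m` with `((a,m), r') ∈ ζ`, `β ∈ a`.
`D` is definable over `M` and dense: if no `r' ≤ r` satisfies (ii) or (iii) then `r` satisfies (i) (`ch`: by (ii)
for `r' ≤ r`; `unb`: by (iii)). Let `q ∈ g ∩ D`. (ii) is impossible since then `x, y ∈ C`, `(x,y) ∈ vv g O`, and `Bel x y` by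
`OpN.sub`. (iii) is impossible: `C` has an element `(a, m)`, `β ∈ a`, `((a,m), p) ∈ ζ` for a `p ∈ g`; take `r' ∈ g` below
`p`, `q`. So `FC Ω E P R O q ζ`.

Definability with `PD`, `Df`, `Dfn` (the witnesses `a, m, x, y, β` are elements of `M`: replace the quantifiers over
`ZFSet` by bounded ones: `x ∈ Nd Ω E`; `β.toZFSet` ranges over the elements of `Ω.toZFSet`).
-/

set_option autoImplicit false
set_option linter.unusedVariables false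
set_option linter.unusedSectionVars false
set_option linter.unusedSimpArgs false
set_option linter.unusedTactic false
set_option linter.unreachableTactic false

open Pool.Agent.H17.Omega Pool.Agent.H17.Omega.CTM Pool.Agent.H52.GC Pool.Agent.H7.IG

namespace Pool.Agent.H17.CF

variable {M : Set ZFSet.{0}} {P R : ZFSet.{0}} {g : Set ZFSet.{0}} {Ω : Ordinal.{0}} {E O : ZFSet.{0}}

theorem chain_of_fc (h : Fr M P R g) (hΩ : Ω.toZFSet ∈ M) (hE : E ∈ M) (hO : O ∈ M) (ho : OpN Ω E P R O)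
    {q ζ : ZFSet.{0}} (hζ : ζ ∈ M) (hf : FC Ω E P R O q ζ) (hq : q ∈ g) : Chn Ω E (vv g O) (vv g ζ) := by
  refine ⟨?_, ?_, ?_⟩
  · intro x hx
    obtain ⟨p, hp, hxp⟩ := mem_vv.1 hx
    exact (ZFSet.pair_mem_prod.1 (hf.sub hxp)).1
  · intro x hx y hy _ hxy
    obtain ⟨p1, hp1, h1⟩ := mem_vv.1 hx
    obtain ⟨p2, hp2, h2⟩ := mem_vv.1 hy
    obtain ⟨p3, hp3, h3⟩ := mem_vv.1 hxy
    obtain ⟨r1, hr1, h4, h5⟩ := h.gen.dir _ hp1 _ hp2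
    obtain ⟨r2, hr2, h6, h7⟩ := h.gen.dir _ hp3 _ hq
    obtain ⟨r, hr, h8, h9⟩ := h.gen.dir _ hr1 _ hr2
    exact hf.ch x y r (h.po.trans _ _ _ h9 h7) (hf.op _ _ _ h1 (h.po.trans _ _ _ h8 h4))
      (hf.op _ _ _ h2 (h.po.trans _ _ _ h8 h5)) (ho.op _ _ _ _ h3 (h.po.trans _ _ _ h9 h6))
  · intro β hβ
    have hβM : β.toZFSet ∈ M := h.hM.mem_of_mem hΩ (Ordinal.toZFSet_mem_toZFSet_iff.2 hβ)
    obtain ⟨r, hr, a, m, h1, h2⟩ := h.gen_dfn (D := fun r => ∃ a m : M, ZFSet.pair (ZFSet.pair a.1 m.1) r.1 ∈ ζ ∧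
        β.toZFSet ∈ a.1) (by
      refine Dfn.ex (P := fun v a => ∃ m : M, ZFSet.pair (ZFSet.pair a.1 m.1) (v 0).1 ∈ ζ ∧ β.toZFSet ∈ a.1) ?_
      refine Dfn.ex (P := fun v m => ZFSet.pair (ZFSet.pair (v 1).1 m.1) (v 0).1 ∈ ζ ∧ β.toZFSet ∈ (v 1).1) ?_
      exact Dfn.and (Df.mem (PD.pair (PD.pair (PD.var 1) (PD.var 2)) (PD.var 0)) (PD.const hζ))
        (Df.mem (PD.const hβM) (PD.var 1))) hq (by
      intro r hr
      obtain ⟨r', h1, a, m, h2, h3⟩ := hf.unb r.1 hr β hβ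
      have h4 := ZFSet.pair_mem_prod.1 (hf.sub h2)
      rw [Nd, ZFSet.pair_mem_prod, LvZ, ZFSet.mem_sep] at h4
      exact ⟨⟨r', h.hM.mem_of_mem h.hP h4.2⟩, h1, ⟨a, h.hM.mem_of_mem hΩ h4.1.1.1⟩, ⟨m, h.hM.mem_of_mem hE h4.1.2⟩,
        h2, h3⟩)
    exact ⟨a.1, m.1, mem_vv.2 ⟨r.1, hr, h1⟩, h2⟩

/-- `r` decides that the value of `ζ` is not a chain. -/
def Fc_c1 (Ω : Ordinal.{0}) (E O ζ r : ZFSet.{0}) : Prop :=
  ∃ x ∈ Nd Ω E, ∃ y ∈ Nd Ω E, ZFSet.pair x r ∈ ζ ∧ ZFSet.pair y r ∈ ζ ∧ ZFSet.pair (ZFSet.pair x y) r ∈ O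

/-- `r` decides that the value of `ζ` is bounded. -/
def Fc_c2 (Ω : Ordinal.{0}) (E P R ζ r : ZFSet.{0}) : Prop :=
  ∃ b ∈ Ω.toZFSet, ∀ r' ∈ P, ZFSet.pair r' r ∈ R → ∀ a ∈ LvZ Ω, ∀ m ∈ E,
    ZFSet.pair (ZFSet.pair a m) r' ∈ ζ → ¬ b ∈ a

theorem fc_of_chain (h : Fr M P R g) (hΩ : Ω.toZFSet ∈ M) (hE : E ∈ M) (hO : O ∈ M) (ho : OpN Ω E P R O)
    {C : ZFSet.{0}} (hC : C ∈ ExtZ M g) (hch : Chn Ω E (vv g O) C) :
    ∃ q ∈ g, ∃ ζ ∈ M, FC Ω E P R O q ζ ∧ vv g ζ = C := by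
  have hM := h.hM
  have hom : omZ ∈ M := hM.omZ_mem
  have hL : LvZ Ω ∈ M := hM.sep_mem (Df.sub (PD.const hom) (PD.var _)) hΩ
  have hD : Nd Ω E ∈ M := hM.prod_mem hL hE
  have hPM := h.hP
  have hRM := h.hR
  obtain ⟨hCs, hCc, hCu⟩ := hch
  obtain ⟨ζ, hζ, hζs, hζo, rfl⟩ := exists_sname h hD hC hCs
  obtain ⟨p, hp⟩ := h.gen.ne
  obtain ⟨q, hq, hqD⟩ := h.gen_dfn (D := fun r => Fc_c1 Ω E O ζ r.1 ∨ Fc_c2 Ω E P R ζ r.1 ∨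
      ∀ r' ∈ P, ZFSet.pair r' r.1 ∈ R → ¬ Fc_c1 Ω E O ζ r' ∧ ¬ Fc_c2 Ω E P R ζ r') (by
    unfold Fc_c1 Fc_c2
    (repeat' first
    | exact PD.var _ | exact PD.const ‹_› | refine PD.pair ?_ ?_ | refine PD.singleton ?_
    | refine Df.bex ?_ ?_ | refine Df.ball ?_ ?_ | refine Df.eq ?_ ?_ | refine Df.mem ?_ ?_ | refine Df.sub ?_ ?_
    | refine Dfn.and ?_ ?_ | refine Dfn.or ?_ ?_ | refine Dfn.not ?_ | refine Dfn.imp ?_ ?_)) hp (by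
    intro r hr
    have hrP := (h.po.mem hr).1
    by_cases hc : ∀ r' ∈ P, ZFSet.pair r' r.1 ∈ R → ¬ Fc_c1 Ω E O ζ r' ∧ ¬ Fc_c2 Ω E P R ζ r'
    · exact ⟨r, h.po.refl _ hrP, Or.inr (Or.inr hc)⟩
    · push Not at hc
      obtain ⟨r', hr', h1, h2⟩ := hc
      refine ⟨⟨r', hM.mem_of_mem hPM hr'⟩, h1, ?_⟩
      by_cases h3 : Fc_c1 Ω E O ζ r'
      · exact Or.inl h3
      · exact Or.inr (Or.inl (h2 h3)))
  have hn1 : ∀ r ∈ g, ¬ Fc_c1 Ω E O ζ r := by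
    rintro r hr ⟨x, hx, y, hy, h1, h2, h3⟩
    obtain ⟨x', _, y', _, p', _, hb, he⟩ := ho.sub _ h3
    rw [ZFSet.pair_inj, ZFSet.pair_inj] at he
    obtain ⟨⟨rfl, rfl⟩, rfl⟩ := he
    exact hCc x (mem_vv.2 ⟨r, hr, h1⟩) y (mem_vv.2 ⟨r, hr, h2⟩) hb (mem_vv.2 ⟨r, hr, h3⟩)
  have hn2 : ∀ r ∈ g, ¬ Fc_c2 Ω E P R ζ r := by
    rintro r hr ⟨b, hb, h1⟩
    obtain ⟨β, hβ, rfl⟩ := Ordinal.mem_toZFSet_iff.1 hb
    obtain ⟨a, m, h2, h3⟩ := hCu β hβ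
    obtain ⟨p', hp', h4⟩ := mem_vv.1 h2
    obtain ⟨r', hr', h5, h6⟩ := h.gen.dir _ hr _ hp'
    have h7 := hζo _ _ _ h4 h6
    have h8 := ZFSet.pair_mem_prod.1 (hζs h7)
    rw [Nd, ZFSet.pair_mem_prod] at h8
    exact h1 r' (h.gen.sub r' hr') h5 a h8.1.1 m h8.1.2 h7 h3
  rcases hqD with h1 | h1 | h1
  · exact (hn1 _ hq h1).elim
  · exact (hn2 _ hq h1).elim
  · refine ⟨q.1, hq, ζ, hζ, ⟨h.gen.sub _ hq, hζs, ?_, ?_, ?_⟩, rfl⟩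
    · intro x r r' h2 h3
      exact hζo x r' r h2 h3
    · intro x y r h2 h3 h4 h5
      exact (h1 r (h.po.mem h2).1 h2).1 ⟨x, (ZFSet.pair_mem_prod.1 (hζs h3)).1, y,
        (ZFSet.pair_mem_prod.1 (hζs h4)).1, h3, h4, h5⟩
    · intro r h2 β hβ
      by_contra hcon
      refine (h1 r (h.po.mem h2).1 h2).2 ⟨β.toZFSet, Ordinal.toZFSet_mem_toZFSet_iff.2 hβ, ?_⟩
      intro r' hr' h3 a ha m hm h4 h5
      exact hcon ⟨r', h3, a, m, h4, h5⟩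

end Pool.Agent.H17.CF
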