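import Pool.Agent.H17.CF.FDefs
import Pool.Agent.H7.IG.Tk7

/-!
# CF-A2: countable closure

PROOF of `exists_closed`. `C e := {x ∈ X : (e, x) ∈ r}` is countable in `N` for each `e ∈ finS X`. Define by recursion
on `n` (`CTM.exists_omega_rec` of H17/Omega, or `exists_dep` of H7/IG/Tk2, with values in the set of the
countable subsets of `X` that belong to `N`; it is a set of `N` by separation from the power set)
`A_0 = A`, `A_{n+1} = A_n ∪ {x : ∃ e ∈ finS A_n, (e, x) ∈ r}`. `finS A_n` is countable (`Ctb.fin`) and a countable union of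
countable sets is countable (`ctb_union` of H7/IG/Tk4, or `Ctb.iUnion`). `Z = ⋃ A_n`; a finite subset of
`Z` is contained in some `A_n`. Countability of `Z`: again `ctb_union` or `Ctb.iUnion`.
(`A_n` increasing; alternatively apply `exists_hull` of H7/IG/Tk6 to a large `Y`.)
-/

set_option autoImplicit false
set_option linter.unusedVariables false
set_option linter.unusedSectionVars false
set_option linter.unusedSimpArgs false
set_option linter.unusedTactic false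
set_option linter.unreachableTactic false

open Pool.Agent.H17.Omega Pool.Agent.H17.Omega.CTM Pool.Agent.H52.GC Pool.Agent.H7.IG

namespace Pool.Agent.H17.CF

theorem exists_closed {N : Set ZFSet.{0}} (hN : CTM N) {X r A : ZFSet.{0}} (hX : X ∈ N) (hr : r ∈ N)
    (hA : A ∈ N) (hAX : A ⊆ X) (hAc : Ctb N A)
    (h : ∀ e ∈ finS X, Ctb N (ZFSet.sep (fun x => ZFSet.pair e x ∈ r) X)) :
    ∃ Z ∈ N, A ⊆ Z ∧ Z ⊆ X ∧ Ctb N Z ∧ ∀ e ∈ finS Z, ∀ x ∈ X, ZFSet.pair e x ∈ r → x ∈ Z := by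
  classical
  obtain ⟨Fi, hFi, hFi'⟩ := exists_fin hN hX
  obtain ⟨D, hD, hD'⟩ := hN.exists_pow hX
  obtain ⟨S, hSdef⟩ : ∃ S : N → N → Prop, S = fun x y => ∀ z : N, z.1 ∈ y.1 ↔
      (z.1 ∈ x.1 ∨ (z.1 ∈ (⟨X, hX⟩ : N).1 ∧ ∃ e : N, e.1 ∈ (⟨Fi, hFi⟩ : N).1 ∧ e.1 ⊆ x.1 ∧
        ZFSet.pair e.1 z.1 ∈ (⟨r, hr⟩ : N).1)) := ⟨_, rfl⟩
  have hS : hN.Dfn (fun v : Fin 2 → N => S (v 0) (v 1)) := by
    rw [hSdef]
    (repeat' first
      | exact DT.var _ | exact DT.last | exact DT.const _ | assumption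
      | refine Dfn.pairMem ?_ ?_ ?_ | refine Dfn.isPair ?_ ?_ ?_ | refine Dfn.mem ?_ ?_
      | refine Dfn.eqv ?_ ?_ | refine Dfn.eq ?_ ?_ | refine Dfn.subset ?_ ?_
      | refine Dfn.isEmpty ?_ | refine Dfn.isTrans ?_ | refine Dfn.isOrd ?_ | refine Dfn.isNat ?_
      | refine Dfn.and ?_ ?_ | refine Dfn.or ?_ ?_ | refine Dfn.iff ?_ ?_ | refine Dfn.not ?_
      | refine Dfn.imp ?_ ?_ | refine Dfn.all ?_ | refine Dfn.ex ?_ | exact Dfn.false')
  obtain ⟨g, g0, gD, gS, gM⟩ := hN.exists_omega_rec hS hD (by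
    intro x hx
    have hxX := ((hD' _).1 hx).2
    obtain ⟨b, hb, hb'⟩ := hN.exists_sep (P := fun z => (z.1 ∈ x.1 ∨ (z.1 ∈ (⟨X, hX⟩ : N).1 ∧
        ∃ e : N, e.1 ∈ (⟨Fi, hFi⟩ : N).1 ∧ e.1 ⊆ x.1 ∧ ZFSet.pair e.1 z.1 ∈ (⟨r, hr⟩ : N).1))) (by
      (repeat' first
      | exact DT.var _ | exact DT.last | exact DT.const _ | assumption
      | refine Dfn.pairMem ?_ ?_ ?_ | refine Dfn.isPair ?_ ?_ ?_ | refine Dfn.mem ?_ ?_
      | refine Dfn.eqv ?_ ?_ | refine Dfn.eq ?_ ?_ | refine Dfn.subset ?_ ?_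
      | refine Dfn.isEmpty ?_ | refine Dfn.isTrans ?_ | refine Dfn.isOrd ?_ | refine Dfn.isNat ?_
      | refine Dfn.and ?_ ?_ | refine Dfn.or ?_ ?_ | refine Dfn.iff ?_ ?_ | refine Dfn.not ?_
      | refine Dfn.imp ?_ ?_ | refine Dfn.all ?_ | refine Dfn.ex ?_ | exact Dfn.false')) hX
    refine ⟨⟨b, hb⟩, (hD' b).2 ⟨hb, fun z hz => ((hb' z).1 hz).1⟩, ?_⟩
    rw [hSdef]
    intro z
    change z.1 ∈ b ↔ _
    rw [hb']
    constructor
    · rintro ⟨_, _, h⟩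
      exact h
    · intro h
      refine ⟨?_, z.2, h⟩
      rcases h with h | ⟨h, _⟩
      · exact hxX h
      · exact h) (by
    intro x y y' _ _ _ h1 h2
    rw [hSdef] at h1 h2
    exact Subtype.ext (hN.ext' y.2 y'.2 fun z => (h1 z).trans (h2 z).symm)) ⟨A, hA⟩
    ((hD' A).2 ⟨hA, hAX⟩)
  have gS' : ∀ n, ∀ z : N, z.1 ∈ (g (n + 1)).1 ↔ (z.1 ∈ (g n).1 ∨ (z.1 ∈ X ∧ ∃ e : N, e.1 ∈ Fi ∧
      e.1 ⊆ (g n).1 ∧ ZFSet.pair e.1 z.1 ∈ r)) := by
    intro n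
    have h := gS n
    rw [hSdef] at h
    exact h
  have gX : ∀ n, (g n).1 ⊆ X := fun n => ((hD' _).1 (gD n)).2
  have gmono : ∀ n, (g n).1 ⊆ (g (n + 1)).1 := by
    intro n z hz
    exact (gS' n ⟨z, hN.mem_of_mem (g n).2 hz⟩).2 (Or.inl hz)
  have gmono' : ∀ m n, m ≤ n → (g m).1 ⊆ (g n).1 := by
    intro m n h
    induction h with
    | refl => exact fun z hz => hz
    | step _ ih => exact fun z hz => gmono _ (ih hz)
  have gSm : ∀ n, Ctb N (g n).1 := by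
    intro n
    induction n with
    | zero => rw [g0]; exact hAc
    | succ n ih =>
      obtain ⟨I, hI, hI'⟩ := hN.exists_sep (P := fun e => e.1 ⊆ (g n).1) (by
        (repeat' first
      | exact DT.var _ | exact DT.last | exact DT.const _ | assumption
      | refine Dfn.pairMem ?_ ?_ ?_ | refine Dfn.isPair ?_ ?_ ?_ | refine Dfn.mem ?_ ?_
      | refine Dfn.eqv ?_ ?_ | refine Dfn.eq ?_ ?_ | refine Dfn.subset ?_ ?_
      | refine Dfn.isEmpty ?_ | refine Dfn.isTrans ?_ | refine Dfn.isOrd ?_ | refine Dfn.isNat ?_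
      | refine Dfn.and ?_ ?_ | refine Dfn.or ?_ ?_ | refine Dfn.iff ?_ ?_ | refine Dfn.not ?_
      | refine Dfn.imp ?_ ?_ | refine Dfn.all ?_ | refine Dfn.ex ?_ | exact Dfn.false')) hFi
      have hIc : Ctb N I := by
        refine Ctb.fin hN ih fun e he => ?_
        obtain ⟨h1, _, h2⟩ := (hI' e).1 he
        exact ⟨h2, ((hFi' e).1 h1).2⟩
      obtain ⟨W, hW, hW'⟩ := hN.exists_sep (P := fun z => ∃ e : N, e.1 ∈ (⟨I, hI⟩ : N).1 ∧
          ZFSet.pair e.1 z.1 ∈ (⟨r, hr⟩ : N).1) (by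
        (repeat' first
      | exact DT.var _ | exact DT.last | exact DT.const _ | assumption
      | refine Dfn.pairMem ?_ ?_ ?_ | refine Dfn.isPair ?_ ?_ ?_ | refine Dfn.mem ?_ ?_
      | refine Dfn.eqv ?_ ?_ | refine Dfn.eq ?_ ?_ | refine Dfn.subset ?_ ?_
      | refine Dfn.isEmpty ?_ | refine Dfn.isTrans ?_ | refine Dfn.isOrd ?_ | refine Dfn.isNat ?_
      | refine Dfn.and ?_ ?_ | refine Dfn.or ?_ ?_ | refine Dfn.iff ?_ ?_ | refine Dfn.not ?_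
      | refine Dfn.imp ?_ ?_ | refine Dfn.all ?_ | refine Dfn.ex ?_ | exact Dfn.false')) hX
      have hWc : Ctb N W := by
        refine ctb_union hN hI hr hW hIc ?_ ?_
        · intro e he
          obtain ⟨h1, heN, _⟩ := (hI' e).1 he
          obtain ⟨Y, hY, hY'⟩ := hN.exists_sep (P := fun z => ZFSet.pair (⟨e, heN⟩ : N).1 z.1 ∈ (⟨r, hr⟩ : N).1) (by
            (repeat' first
      | exact DT.var _ | exact DT.last | exact DT.const _ | assumption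
      | refine Dfn.pairMem ?_ ?_ ?_ | refine Dfn.isPair ?_ ?_ ?_ | refine Dfn.mem ?_ ?_
      | refine Dfn.eqv ?_ ?_ | refine Dfn.eq ?_ ?_ | refine Dfn.subset ?_ ?_
      | refine Dfn.isEmpty ?_ | refine Dfn.isTrans ?_ | refine Dfn.isOrd ?_ | refine Dfn.isNat ?_
      | refine Dfn.and ?_ ?_ | refine Dfn.or ?_ ?_ | refine Dfn.iff ?_ ?_ | refine Dfn.not ?_
      | refine Dfn.imp ?_ ?_ | refine Dfn.all ?_ | refine Dfn.ex ?_ | exact Dfn.false')) hX
          refine ⟨Y, hY, (h e (mem_finS.2 ((hFi' e).1 h1))).mono fun z hz => ?_, fun x hx hex => ?_⟩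
          · obtain ⟨h2, _, h3⟩ := (hY' z).1 hz
            exact ZFSet.mem_sep.2 ⟨h2, h3⟩
          · obtain ⟨h2, h3, _⟩ := (hW' x).1 hx
            exact (hY' x).2 ⟨h2, h3, hex⟩
        · intro x hx
          obtain ⟨_, _, e, he, hex⟩ := (hW' x).1 hx
          exact ⟨e.1, he, hex⟩
      refine (tk7_union2 hN (g n).2 hW ih hWc).mono fun z hz => ?_
      have hzN := hN.mem_of_mem (g (n + 1)).2 hz
      rw [ZFSet.mem_union]
      rcases (gS' n ⟨z, hzN⟩).1 hz with h1 | ⟨h1, e, he, heg, h2⟩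
      · exact Or.inl h1
      · exact Or.inr ((hW' z).2 ⟨h1, hzN, e, (hI' e.1).2 ⟨he, e.2, heg⟩, h2⟩)
  -- the union
  obtain ⟨Z, hZ, hZ'⟩ := hN.exists_sep (P := fun z => ∃ n Y : N,
    ZFSet.pair n.1 Y.1 ∈ (⟨_, gM⟩ : N).1 ∧ z.1 ∈ Y.1) (by
      (repeat' first
      | exact DT.var _ | exact DT.last | exact DT.const _ | assumption
      | refine Dfn.pairMem ?_ ?_ ?_ | refine Dfn.isPair ?_ ?_ ?_ | refine Dfn.mem ?_ ?_
      | refine Dfn.eqv ?_ ?_ | refine Dfn.eq ?_ ?_ | refine Dfn.subset ?_ ?_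
      | refine Dfn.isEmpty ?_ | refine Dfn.isTrans ?_ | refine Dfn.isOrd ?_ | refine Dfn.isNat ?_
      | refine Dfn.and ?_ ?_ | refine Dfn.or ?_ ?_ | refine Dfn.iff ?_ ?_ | refine Dfn.not ?_
      | refine Dfn.imp ?_ ?_ | refine Dfn.all ?_ | refine Dfn.ex ?_ | exact Dfn.false')) hX
  have hZmem : ∀ z, z ∈ Z ↔ ∃ n, z ∈ (g n).1 := by
    intro z
    rw [hZ']
    constructor
    · rintro ⟨_, _, n, Y, h1, h2⟩
      have h1 : ZFSet.pair n.1 Y.1 ∈ seqZ fun n => (g n).1 := h1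
      obtain ⟨m, hm⟩ := mem_seqZ.1 h1
      rw [ZFSet.pair_inj] at hm
      have h2 : z ∈ Y.1 := h2
      rw [hm.2] at h2
      exact ⟨m, h2⟩
    · rintro ⟨n, hn⟩
      exact ⟨gX n hn, hN.mem_of_mem (g n).2 hn, nz hN n, g n, pair_mem_seqZ.2 rfl, hn⟩
  have hZX : Z ⊆ X := fun z hz => ((hZ' z).1 hz).1
  refine ⟨Z, hZ, ?_, hZX, ?_, ?_⟩
  · intro z hz
    exact (hZmem z).2 ⟨0, by rw [g0]; exact hz⟩
  · exact Ctb.iUnion hN gM gSm fun z hz => (hZmem z).1 hz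
  · intro e he x hx hex
    obtain ⟨heZ, s, hs⟩ := mem_finS.1 he
    have hbd : ∀ t : Finset ZFSet.{0}, (∀ z ∈ t, z ∈ Z) → ∃ n, ∀ z ∈ t, z ∈ (g n).1 := by
      intro t
      induction t using Finset.induction_on with
      | empty => exact fun _ => ⟨0, fun z hz => absurd hz (Finset.notMem_empty z)⟩
      | insert x t _ ih =>
        intro ht
        obtain ⟨n, hn⟩ := ih fun z hz => ht z (Finset.mem_insert_of_mem hz)
        obtain ⟨m, hm⟩ := (hZmem x).1 (ht x (Finset.mem_insert_self x t))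
        refine ⟨max m n, fun z hz => ?_⟩
        rcases Finset.mem_insert.1 hz with rfl | hz
        · exact gmono' _ _ (le_max_left _ _) hm
        · exact gmono' _ _ (le_max_right _ _) (hn z hz)
    obtain ⟨n, hn⟩ := hbd s fun z hz => heZ ((hs z).2 hz)
    have heg : e ⊆ (g n).1 := fun z hz => hn z ((hs z).1 hz)
    have heFi : e ∈ Fi := (hFi' e).2 ⟨fun z hz => hZX (heZ hz), s, hs⟩
    have hxN := hN.mem_of_mem hX hx
    exact (hZmem x).2 ⟨n + 1, (gS' n ⟨x, hxN⟩).2 (Or.inr ⟨hx, ⟨e, hN.mem_of_mem hFi heFi⟩, heFi, heg, hex⟩)⟩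

end Pool.Agent.H17.CF
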