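import Pool.Agent.H17.CF.FDefs
import Pool.Agent.H7.IG.Tk1
import Pool.Agent.H7.IG.Tk4

/-!
# CF-A5: nice names

`exists_nice`: let `ζ ∈ M` be an open name, `ζ ⊆ A × P`, `(P, R)` ccc. For `a ∈ A` let `Z_a = {p : (a, p) ∈ ζ}`. By `CC` there
is a countable `C_a ⊆ Z_a` in `M` such that every `z ∈ Z_a` is compatible with some `w ∈ C_a`. By `exists_choice` (Tk1;
values in the power set of `P` of `M`) choose `a ↦ C_a` in `M` and put `ζ' = {(a, w) : w ∈ C_a}` (separation from `ζ`).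
Claim: `vv g ζ' = vv g ζ` for every generic `g`. `⊆` is clear. `⊇`: let `(a, z) ∈ ζ`, `z ∈ g`. The definable set
`D = {q : ∃ w ∈ C_a, (q, w) ∈ R}` is dense below `z`: if `r ≤ z` then `(a, r) ∈ ζ` (open), so `r` is compatible
with some `w ∈ C_a`. By `Fr.gen_dfn` there is `q ∈ g ∩ D`, so `w ∈ g` (`gen.up`), `(a, w) ∈ ζ'`.

Definability: with `PD`/`Df` (FX: `PD.pair`, `Df.mem`, `Df.bex`, `Df.ball`, `Dfn.and` ...).
-/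

set_option autoImplicit false
set_option linter.unusedVariables false
set_option linter.unusedSectionVars false
set_option linter.unusedSimpArgs false
set_option linter.unusedTactic false
set_option linter.unreachableTactic false

open Pool.Agent.H17.Omega Pool.Agent.H17.Omega.CTM Pool.Agent.H52.GC Pool.Agent.H7.IG

namespace Pool.Agent.H17.CF

/-- what is chosen: a countable set of conditions that is predense in the fibre -/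
def NiceF (M : Set ZFSet.{0}) (R ζ : ZFSet.{0}) (x y : M) : Prop :=
  Ctb M y.1 ∧ (∀ w : M, w.1 ∈ y.1 → ZFSet.pair x.1 w.1 ∈ ζ) ∧
    ∀ p : M, ZFSet.pair x.1 p.1 ∈ ζ → ∃ w : M, w.1 ∈ y.1 ∧ ∃ r : M, ZFSet.pair r.1 p.1 ∈ R ∧
      ZFSet.pair r.1 w.1 ∈ R

theorem dfn_NiceF {M : Set ZFSet.{0}} {R ζ : ZFSet.{0}} (hM : CTM M) (hR : R ∈ M) (hζ : ζ ∈ M) :
    hM.Dfn (fun v : Fin 2 → M => NiceF M R ζ (v 0) (v 1)) := by
  have hc : hM.Dfn (fun v : Fin 2 → M => Ctb M (v 1).1) :=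
    UD.d1 (P := fun N x => Ctb N x.1) ud_Ctb (show M ∈ CtmC from hM) (DT.var 1)
  have h2 : hM.Dfn (fun v : Fin 2 → M => ∀ w : M, w.1 ∈ (v 1).1 →
      ZFSet.pair (v 0).1 w.1 ∈ (⟨ζ, hζ⟩ : M).1) :=
    Dfn.all (Dfn.imp (Dfn.mem (DT.var _) (DT.var _)) (Dfn.pairMem (DT.var _) (DT.var _) (DT.const _)))
  have h3 : hM.Dfn (fun v : Fin 2 → M => ∀ p : M, ZFSet.pair (v 0).1 p.1 ∈ (⟨ζ, hζ⟩ : M).1 →
      ∃ w : M, w.1 ∈ (v 1).1 ∧ ∃ r : M, ZFSet.pair r.1 p.1 ∈ (⟨R, hR⟩ : M).1 ∧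
      ZFSet.pair r.1 w.1 ∈ (⟨R, hR⟩ : M).1) :=
    Dfn.all (Dfn.imp (Dfn.pairMem (DT.var _) (DT.var _) (DT.const _))
      (Dfn.ex (Dfn.and (Dfn.mem (DT.var _) (DT.var _)) (Dfn.ex (Dfn.and
        (Dfn.pairMem (DT.var _) (DT.var _) (DT.const _))
        (Dfn.pairMem (DT.var _) (DT.var _) (DT.const _)))))))
  exact hc.and (h2.and h3)

theorem exists_nice {M : Set ZFSet.{0}} {P R : ZFSet.{0}} (hM : CTM M) (hP : P ∈ M) (hR : R ∈ M)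
    (hc : CC M P R) {A ζ : ZFSet.{0}} (hA : A ∈ M) (hζ : ζ ∈ M) (hs : ζ ⊆ ZFSet.prod A P)
    (ho : ∀ x p q, ZFSet.pair x q ∈ ζ → ZFSet.pair p q ∈ R → ZFSet.pair x p ∈ ζ) :
    ∃ ζ' ∈ M, ζ' ⊆ ζ ∧ (∀ a ∈ A, Ctb M (ZFSet.sep (fun p => ZFSet.pair a p ∈ ζ') P)) ∧
      ∀ g, Fr M P R g → vv g ζ' = vv g ζ := by
  obtain ⟨pw, hpw, hpw'⟩ := hM.exists_pow hP
  obtain ⟨f, hf, hfn, hf'⟩ := Pool.Agent.H7.IG.exists_choice hM (F := NiceF M R ζ) (dfn_NiceF hM hR hζ)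
    hA hpw (by
    intro x hx
    have hZ : ZFSet.sep (fun p => ZFSet.pair x.1 p ∈ ζ) P ∈ M := by
      refine hM.sep_mem ?_ hP
      exact Dfn.pairMem (DT.const x) (DT.var _) (DT.const ⟨ζ, hζ⟩)
    obtain ⟨C, hC, hCZ, hCc, hC'⟩ := hc _ hZ (fun z hz => (ZFSet.mem_sep.1 hz).1)
    refine ⟨⟨C, hC⟩, (hpw' C).2 ⟨hC, fun z hz => (ZFSet.mem_sep.1 (hCZ hz)).1⟩, hCc, ?_, ?_⟩
    · intro w hw
      exact (ZFSet.mem_sep.1 (hCZ hw)).2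
    · intro p hp
      have h1 := hs hp
      rw [ZFSet.pair_mem_prod] at h1
      obtain ⟨w, hw, r, h2, h3⟩ := hC' p.1 (ZFSet.mem_sep.2 ⟨h1.2, hp⟩)
      exact ⟨⟨w, hM.mem_of_mem hC hw⟩, hw, ⟨r, (hM.of_pair_mem (hM.mem_of_mem hR h2)).1⟩, h2, h3⟩)
  have hD : hM.Dfn (fun v : Fin 1 → M => ∃ x w : M, (v 0).1 = ZFSet.pair x.1 w.1 ∧
      ∃ y : M, ZFSet.pair x.1 y.1 ∈ (⟨f, hf⟩ : M).1 ∧ w.1 ∈ y.1) :=
    Dfn.exPair (P := fun v x w => ∃ y : M, ZFSet.pair x.1 y.1 ∈ (⟨f, hf⟩ : M).1 ∧ w.1 ∈ y.1)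
      (DT.var _) (Dfn.ex (Dfn.and (Dfn.pairMem (DT.var _) (DT.var _) (DT.const _))
        (Dfn.mem (DT.var _) (DT.var _))))
  obtain ⟨ζ', hζ', hζ''⟩ := hM.exists_sep (P := fun z => ∃ x w : M, z.1 = ZFSet.pair x.1 w.1 ∧
      ∃ y : M, ZFSet.pair x.1 y.1 ∈ (⟨f, hf⟩ : M).1 ∧ w.1 ∈ y.1) hD hζ
  have hsub : ζ' ⊆ ζ := fun z hz => ((hζ'' z).1 hz).1
  have hmem : ∀ x w : ZFSet.{0}, ZFSet.pair x w ∈ ζ' ↔ ZFSet.pair x w ∈ ζ ∧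
      ∃ y, ZFSet.pair x y ∈ f ∧ w ∈ y := by
    intro x w
    rw [hζ'']
    constructor
    · rintro ⟨h1, _, x', w', h2, y, h3, h4⟩
      have h2 : ZFSet.pair x w = ZFSet.pair x'.1 w'.1 := h2
      rw [ZFSet.pair_inj] at h2
      obtain ⟨rfl, rfl⟩ := h2
      exact ⟨h1, y.1, h3, h4⟩
    · rintro ⟨h1, y, h3, h4⟩
      have h5 := hM.of_pair_mem (hM.mem_of_mem hζ h1)
      exact ⟨h1, hM.mem_of_mem hζ h1, ⟨x, h5.1⟩, ⟨w, h5.2⟩, rfl,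
        ⟨y, (hM.of_pair_mem (hM.mem_of_mem hf h3)).2⟩, h3, h4⟩
  have hF : ∀ x y, ∀ h : ZFSet.pair x y ∈ f, NiceF M R ζ
      ⟨x, (hM.of_pair_mem (hM.mem_of_mem hf h)).1⟩ ⟨y, (hM.of_pair_mem (hM.mem_of_mem hf h)).2⟩ :=
    fun x y h => hf' ⟨x, (hM.of_pair_mem (hM.mem_of_mem hf h)).1⟩
      ⟨y, (hM.of_pair_mem (hM.mem_of_mem hf h)).2⟩ h
  refine ⟨ζ', hζ', hsub, ?_, ?_⟩
  · intro a ha
    obtain ⟨y, hy, hay⟩ := hfn.tot a ha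
    refine Ctb.mono (hF a y hay).1 ?_
    intro p hp
    obtain ⟨_, y', h1, h2⟩ := (hmem a p).1 (ZFSet.mem_sep.1 hp).2
    obtain ⟨a', ha', y1, hy1, h3⟩ := hfn.sub _ h1
    rw [ZFSet.pair_inj] at h3
    have h4 := hfn.uni a ha y hy y' (by rw [h3.2]; exact hy1) hay h1
    show p ∈ y
    exact h4.symm ▸ h2
  · intro g hg
    ext w
    rw [mem_vv, mem_vv]
    constructor
    · rintro ⟨p, hp, h⟩
      exact ⟨p, hp, hsub h⟩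
    · rintro ⟨p, hp, h⟩
      have hwA : w ∈ A := by
        have h1 := hs h
        rw [ZFSet.pair_mem_prod] at h1
        exact h1.1
      obtain ⟨y, hy, hwy⟩ := hfn.tot w hwA
      obtain ⟨_, hF2, hF3⟩ := hF w y hwy
      have hyM : y ∈ M := (hM.of_pair_mem (hM.mem_of_mem hf hwy)).2
      have hDD : hg.hM.Dfn (fun v : Fin 1 → M => ∃ u : M, u.1 ∈ (⟨y, hyM⟩ : M).1 ∧
          ZFSet.pair (v 0).1 u.1 ∈ (⟨R, hR⟩ : M).1) :=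
        Dfn.ex (Dfn.and (Dfn.mem (DT.var _) (DT.const _))
          (Dfn.pairMem (DT.var _) (DT.var _) (DT.const _)))
      obtain ⟨q, hq, u, hu, hqu⟩ := hg.gen_dfn (D := fun q => ∃ u : M, u.1 ∈ (⟨y, hyM⟩ : M).1 ∧
          ZFSet.pair q.1 u.1 ∈ (⟨R, hR⟩ : M).1) hDD hp (by
        intro r hr
        have h1 : ZFSet.pair w r.1 ∈ ζ := ho w r.1 p h hr
        obtain ⟨u, hu, s, h2, h3⟩ := hF3 r h1
        exact ⟨s, h2, u, hu, h3⟩)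
      refine ⟨u.1, hg.gen.up _ hq _ hqu, (hmem w u.1).2 ⟨hF2 u hu, y, hwy, hu⟩⟩

end Pool.Agent.H17.CF
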