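import Pool.Agent.H17.CF.A.Ccc
import Pool.Agent.H17.CF.A.Card

/-!
# CF-A3b: ccc forcing preserves cardinals and regularity

See the header of CF/A/Ccc.lean for the proofs of `CC.card` and `CC.reg` (they use `CC.cov_fn`, `cvr_prod2`,
`ctb_cvr`, `cvr_union`).
-/

set_option autoImplicit false
set_option linter.unusedVariables false
set_option linter.unusedSectionVars false
set_option linter.unusedSimpArgs false
set_option linter.unusedTactic false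
set_option linter.unreachableTactic false

open Pool.Agent.H17.Omega Pool.Agent.H17.Omega.CTM Pool.Agent.H52.GC Pool.Agent.H7.IG

namespace Pool.Agent.H17.CF

variable {M : Set ZFSet.{0}} {P R : ZFSet.{0}} {g : Set ZFSet.{0}}

theorem pres_omZ : omZ = Ordinal.omega0.toZFSet := by
  ext z
  rw [mem_omZ, Ordinal.mem_toZFSet_iff]
  constructor
  · rintro ⟨n, rfl⟩
    exact ⟨n, Ordinal.natCast_lt_omega0 n, (natZ_eq n).symm⟩
  · rintro ⟨o, ho, rfl⟩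
    obtain ⟨n, rfl⟩ := Ordinal.lt_omega0.1 ho
    exact ⟨n, (natZ_eq n).symm⟩

/-- No finite ordinal covers `ω`. -/
theorem pres_fin {N : Set ZFSet.{0}} {α : Ordinal.{0}} (hα : α < Ordinal.omega0) :
    ¬ Cvr N α.toZFSet Ordinal.omega0.toZFSet := by
  rintro ⟨f, -, h1, h2⟩
  obtain ⟨m, rfl⟩ := Ordinal.lt_omega0.1 hα
  have h3 : ∀ n : ℕ, ∃ k : ℕ, k < m ∧ ZFSet.pair (k : Ordinal.{0}).toZFSet (n : Ordinal.{0}).toZFSet ∈ f := by
    intro n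
    obtain ⟨y, hy, hyn⟩ := h2 (n : Ordinal.{0}).toZFSet
      (Ordinal.toZFSet_mem_toZFSet_iff.2 (Ordinal.natCast_lt_omega0 n))
    obtain ⟨o, ho, rfl⟩ := Ordinal.mem_toZFSet_iff.1 hy
    obtain ⟨k, rfl⟩ := Ordinal.lt_omega0.1 (ho.trans (Ordinal.natCast_lt_omega0 m))
    exact ⟨k, by exact_mod_cast ho, hyn⟩
  choose φ hφ hφ' using h3
  have hinj : Function.Injective (fun n => (⟨φ n, hφ n⟩ : Fin m)) := by
    intro n n' hnn
    have h4 : φ n = φ n' := congrArg Fin.val hnn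
    have h5 := hφ' n'
    rw [← h4] at h5
    have h6 := h1 _ (Ordinal.toZFSet_mem_toZFSet_iff.2 (show ((φ n : ℕ) : Ordinal.{0}) < m by
      exact_mod_cast hφ n)) _ _ (hφ' n) h5
    have h7 := Ordinal.toZFSet_injective h6
    exact_mod_cast h7
  exact not_injective_infinite_finite _ hinj

theorem pres_sec {M : Set ZFSet.{0}} (hM : CTM M) {F a B : ZFSet.{0}} (hF : F ∈ M) (ha : a ∈ M) (hB : B ∈ M) :
    ZFSet.sep (fun b => ZFSet.pair a b ∈ F) B ∈ M := by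
  refine hM.sep_mem (p := fun b => ZFSet.pair a b ∈ F) ?_ hB
  exact Dfn.pairMem (s := fun _ => ⟨a, ha⟩) (r := fun _ => ⟨F, hF⟩) (DT.const _) (DT.var _) (DT.const _)

/-- Coverings of ordinals of the extension by infinite ordinals give coverings in `M`. -/
theorem pres_cvr (h : Fr M P R g) (hc : CC M P R) {α lam : Ordinal.{0}} (hα : α.toZFSet ∈ M)
    (hω : Ordinal.omega0 ≤ α) (hl : lam.toZFSet ∈ M) (hcv : Cvr (ExtZ M g) α.toZFSet lam.toZFSet) :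
    Cvr M α.toZFSet lam.toZFSet := by
  have hM := h.hM
  have hN := h.ctm
  by_cases hne : ∃ x, x ∈ lam.toZFSet
  · obtain ⟨f, hf, hfo⟩ := cvr_onto hN (h.sub hα) (h.sub hl) hcv hne
    obtain ⟨F, hF, hFs, hfF, hFc⟩ := CC.cov_fn h hc hf hα hl hfo.1
    refine cvr_union hM hα hω hα hF hl (cvr_of_subset hM hα fun x hx => hx) ?_ ?_
    · intro i hi
      have hiM := hM.mem_of_mem hα hi
      have hS := pres_sec hM hF hiM hl
      refine ⟨_, hS, ctb_cvr hM hα hω hS (hFc i hi), fun x hx hix => ?_⟩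
      rw [ZFSet.mem_sep]
      exact ⟨hx, hix⟩
    · intro x hx
      obtain ⟨i, hi, hix⟩ := hfo.2 x hx
      exact ⟨i, hi, hfF hix⟩
  · push Not at hne
    exact ⟨natZ 0, hM.natZ_mem_N 0, fun y hy x x' hx hx' => absurd hx (by
      intro hx
      obtain ⟨m, hm, -⟩ := mem_natZ.1 hx
      omega), fun x hx => absurd hx (hne x)⟩

theorem CC.card (h : Fr M P R g) (hc : CC M P R) {κ : Ordinal.{0}} (hκN : κ.toZFSet ∈ M)
    (hκ : Ordinal.omega0 ≤ κ) (hk : ∀ α < κ, ¬ Cvr M α.toZFSet κ.toZFSet) :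
    ∀ α < κ, ¬ Cvr (ExtZ M g) α.toZFSet κ.toZFSet := by
  intro α hα hcv
  rcases hκ.lt_or_eq with h1 | h1
  · have h2 : max α Ordinal.omega0 < κ := max_lt hα h1
    have h3 : (max α Ordinal.omega0).toZFSet ∈ M := h.hM.toZFSet_mem_of_le h2.le hκN
    have h4 : α.toZFSet ∈ M := h.hM.toZFSet_mem_of_le hα.le hκN
    refine hk _ h2 (pres_cvr h hc h3 (le_max_right _ _) hκN ?_)
    refine Cvr.trans h.ctm (h.sub h3) (h.sub h4) (h.sub hκN) ?_ hcv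
    refine cvr_of_subset h.ctm (h.sub h3) fun x hx => ?_
    obtain ⟨o, ho, rfl⟩ := Ordinal.mem_toZFSet_iff.1 hx
    exact Ordinal.toZFSet_mem_toZFSet_iff.2 (ho.trans_le (le_max_left _ _))
  · rw [← h1] at hα hcv
    exact pres_fin hα hcv

/-- Successor cardinals. -/
theorem CC.card2 (h : Fr M P R g) (hc : CC M P R) {κ lam : Ordinal.{0}} (hκN : κ.toZFSet ∈ M)
    (hκ : Ordinal.omega0 ≤ κ) (hl : lam.toZFSet ∈ M) (hk : ¬ Cvr M κ.toZFSet lam.toZFSet) :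
    ¬ Cvr (ExtZ M g) κ.toZFSet lam.toZFSet :=
  fun hcv => hk (pres_cvr h hc hκN hκ hl hcv)

/-- Countable subsets of `κ` are bounded. -/
theorem pres_bdd {M : Set ZFSet.{0}} (hM : CTM M) {κ : Ordinal.{0}} (hκ : Ordinal.omega0 < κ)
    (hr : ∀ α < κ, ∀ f ∈ M, Fn f α.toZFSet κ.toZFSet → ∃ β < κ, ∀ x y, ZFSet.pair x y ∈ f → y ∈ β.toZFSet)
    {S : ZFSet.{0}} (hS : S ∈ M) (hSκ : S ⊆ κ.toZFSet) (hSc : Ctb M S) : ∃ β < κ, S ⊆ β.toZFSet := by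
  by_cases hne : ∃ x, x ∈ S
  · obtain ⟨f, hf, hfo⟩ := cvr_onto hM hM.omZ_mem hS ((ctb_iff_cvr' hM).1 hSc) hne
    rw [pres_omZ] at hfo
    obtain ⟨β, hβ, hb⟩ := hr _ hκ f hf ⟨fun z hz => by
        obtain ⟨x, hx, y, hy, hz⟩ := hfo.1.sub z hz
        exact ⟨x, hx, y, hSκ hy, hz⟩, fun x hx => by
        obtain ⟨y, hy, hxy⟩ := hfo.1.tot x hx
        exact ⟨y, hSκ hy, hxy⟩, fun x hx y hy y' hy' hxy hxy' => by
        have hS1 : ∀ y, ZFSet.pair x y ∈ f → y ∈ S := by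
          intro y hxy
          obtain ⟨x1, hx1, y1, hy1, he⟩ := hfo.1.sub _ hxy
          rw [ZFSet.pair_inj] at he
          rw [he.2]
          exact hy1
        exact hfo.1.uni x hx y (hS1 y hxy) y' (hS1 y' hxy') hxy hxy'⟩
    refine ⟨β, hβ, fun y hy => ?_⟩
    obtain ⟨x, hx, hxy⟩ := hfo.2 y hy
    exact hb x y hxy
  · push Not at hne
    exact ⟨0, lt_trans Ordinal.omega0_pos hκ, fun y hy => absurd hy (hne y)⟩

/-- Regularity. -/
theorem CC.reg (h : Fr M P R g) (hc : CC M P R) {κ : Ordinal.{0}} (hκN : κ.toZFSet ∈ M)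
    (hκ : Ordinal.omega0 < κ)
    (hr : ∀ α < κ, ∀ f ∈ M, Fn f α.toZFSet κ.toZFSet → ∃ β < κ, ∀ x y, ZFSet.pair x y ∈ f → y ∈ β.toZFSet) :
    ∀ α < κ, ∀ f ∈ ExtZ M g, Fn f α.toZFSet κ.toZFSet → ∃ β < κ, ∀ x y, ZFSet.pair x y ∈ f → y ∈ β.toZFSet := by
  intro α hα f hf hfn
  have hM := h.hM
  have hαM : α.toZFSet ∈ M := hM.toZFSet_mem_of_le hα.le hκN
  obtain ⟨F, hF, hFs, hfF, hFc⟩ := CC.cov_fn h hc hf hαM hκN hfn
  obtain ⟨G, hG, hGn, hG'⟩ := H7.IG.exists_choice hM (F := fun x y : M => ∀ b ∈ (⟨κ.toZFSet, hκN⟩ : M).1,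
      ZFSet.pair x.1 b ∈ (⟨F, hF⟩ : M).1 → b ∈ y.1) (by
    (repeat' first
      | exact DT.var _ | exact DT.last | exact DT.const _ | assumption
      | refine Dfn.pairMem ?_ ?_ ?_ | refine Dfn.mem ?_ ?_
      | refine Dfn.imp ?_ ?_ | refine Dfn.ballZ ?_ ?_)) hαM hκN (by
    intro x hx
    have hS := pres_sec hM hF x.2 hκN
    obtain ⟨β, hβ, hb⟩ := pres_bdd hM hκ hr hS (fun b hb => (ZFSet.mem_sep.1 hb).1) (hFc x.1 hx)
    refine ⟨⟨β.toZFSet, hM.toZFSet_mem_of_le hβ.le hκN⟩, Ordinal.toZFSet_mem_toZFSet_iff.2 hβ, fun b hb1 hb2 => ?_⟩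
    exact hb (ZFSet.mem_sep.2 ⟨hb1, hb2⟩))
  obtain ⟨β, hβ, hb⟩ := hr α hα G hG hGn
  refine ⟨β, hβ, fun x y hxy => ?_⟩
  obtain ⟨x1, hx1, y1, hy1, he⟩ := hfn.sub _ hxy
  rw [ZFSet.pair_inj] at he
  obtain ⟨rfl, rfl⟩ := he
  obtain ⟨z, hz, hxz⟩ := hGn.tot x hx1
  have h1 := hG' ⟨x, hM.mem_of_mem hαM hx1⟩ ⟨z, hM.mem_of_mem hκN hz⟩ hxz y hy1 (hfF hxy)
  have h2 := hb x z hxz
  obtain ⟨o, ho, rfl⟩ := Ordinal.mem_toZFSet_iff.1 h2
  obtain ⟨o', ho', rfl⟩ := Ordinal.mem_toZFSet_iff.1 h1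
  exact Ordinal.toZFSet_mem_toZFSet_iff.2 (ho'.trans ho)

end Pool.Agent.H17.CF
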