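import Pool.Agent.H17.CF.A.E1
import Pool.Agent.H17.CF.A.E2

/-!
# CF-A12: disjoint unions of names of tree graphs, trivial names

`DS E E' = {0} × E ∪ {1} × E'`, so a node of `Nd Ω (DS E E')` is `(a, (i, m))` with `i = 0`, `m ∈ E` or `i = 1`, `m ∈ E'`.
`DU`: nodes with different `i` are incomparable, nodes with `i = 0` (`1`) are incomparable as given by `O` (`O'`).

PROOFS.
`du_opn`: from the definitions. `du_tgn`: let `x = (a,(i,m))`, `y = (b,(j,n))`, `z = (d,(k,l))`, `a ∈ b ∈ d`, `((x,y),p) ∈ DU`.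
If `i ≠ k` then `((x,z),p) ∈ DU`, if `j ≠ k` then `((y,z),p) ∈ DU` (take `r = p`, `po.refl`); if `i = j = k` use the `TGN` of `O`
(`i = 0`) or `O'` (`i = 1`).

`du_nofc`: let `FC Ω (DS E E') P R (DU ..) q ζ`. Put `ζ₀ = {((a,m), r) : ((a,(0,m)), r) ∈ ζ}`, `ζ₁` similarly with `1`; both belong
to `M`. Suppose first that for all `r ≤ q` and `β < Ω` there is `r' ≤ r` and `a, m` with `((a,m), r') ∈ ζ₀`, `β ∈ a`: then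
`FC Ω E P R O q ζ₀` (`ch`: if `((x,y), r) ∈ O` then the pair of the corresponding nodes with `i = 0` is in `DU`).
Otherwise there are `r₀ ≤ q`, `β₀ < Ω` such that no `r' ≤ r₀` has such a node of level `> β₀` in `ζ₀`. Then
`FC Ω E' P R O' r₀ ζ₁`: for `r ≤ r₀`, `β < Ω` apply `unb` of `ζ` to `max β β₀`: get `r' ≤ r` and a node `(a, (i, m))`
with `((a,(i,m)), r') ∈ ζ`, `max β β₀ ∈ a`; `i = 0` is impossible, so `i = 1`.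

`cc_of_qq`: `Z ⊆ P` in `M`: apply `CC` to `{(p, ∅) : p ∈ Z} ⊆ QQ`; the first components of the countable subset work
(`Ctb.image`).

`cc_prod`: `cc_of_qq`, then `qq_nochain` for `O` and `O'`, `du_nofc`, `qq_ccc` for `DU`.

`cc_full`: `OF Ω E P` = all `((x,y),p)` with `Bel x y`. Use `qq_ccc`: `FC .. q ζ` is impossible: by `unb` (twice) there are
`r ≤ q` and nodes `x, y` with `Bel x y`, `(x, r), (y, r) ∈ ζ` (first `x` with `r₁ ≤ q`, then `y` above the level of `x`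
with `r ≤ r₁`, openness), but `((x,y), r) ∈ OF`. (The level of `x` is `β.toZFSet` for an ordinal `β < Ω`:
`Ordinal.mem_toZFSet_iff`.)
-/

set_option autoImplicit false
set_option linter.unusedVariables false
set_option linter.unusedSectionVars false
set_option linter.unusedSimpArgs false
set_option linter.unusedTactic false
set_option linter.unreachableTactic false

open Pool.Agent.H17.Omega Pool.Agent.H17.Omega.CTM Pool.Agent.H52.GC Pool.Agent.H7.IG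

namespace Pool.Agent.H17.CF

/-- The trivial name: all pairs of nodes on different levels are incomparable. -/
noncomputable def OF (Ω : Ordinal.{0}) (E P : ZFSet.{0}) : ZFSet.{0} :=
  ZFSet.sep (fun z => ∃ x y p, z = ZFSet.pair (ZFSet.pair x y) p ∧ Bel x y)
    (ZFSet.prod (ZFSet.prod (Nd Ω E) (Nd Ω E)) P)

variable {M : Set ZFSet.{0}} (hM : CTM M) {P R : ZFSet.{0}} (hP : P ∈ M) (hR : R ∈ M) (po : Pre P R)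
  {Ω : Ordinal.{0}} (hΩ : IsOm1 M Ω) {E E' O O' : ZFSet.{0}} (hE : E ∈ M) (hE' : E' ∈ M)

include hM hP hR po hΩ hE hE'

omit hM hP hR po hΩ hE hE' in
theorem A12_DS {k : ZFSet.{0}} : k ∈ DS E E' ↔ (∃ m ∈ E, k = ZFSet.pair (natZ 0) m) ∨
    ∃ m ∈ E', k = ZFSet.pair (natZ 1) m := by
  rw [DS, ZFSet.mem_union, ZFSet.mem_prod, ZFSet.mem_prod]
  constructor
  · rintro (⟨i, hi, m, hm, h⟩ | ⟨i, hi, m, hm, h⟩)
    · rw [ZFSet.mem_singleton] at hi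
      exact Or.inl ⟨m, hm, by rw [h, hi]⟩
    · rw [ZFSet.mem_singleton] at hi
      exact Or.inr ⟨m, hm, by rw [h, hi]⟩
  · rintro (⟨m, hm, h⟩ | ⟨m, hm, h⟩)
    · exact Or.inl ⟨_, ZFSet.mem_singleton.2 rfl, m, hm, h⟩
    · exact Or.inr ⟨_, ZFSet.mem_singleton.2 rfl, m, hm, h⟩

omit hM hP hR po hΩ hE hE' in
theorem A12_01 : (natZ 0 : ZFSet.{0}) ≠ natZ 1 := fun h => absurd (natZ_inj.1 h) (by omega)

omit hM hP hR po hΩ hE hE' in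
theorem A12_Nd {a k : ZFSet.{0}} : ZFSet.pair a k ∈ Nd Ω E ↔ a ∈ LvZ Ω ∧ k ∈ E := by
  rw [Nd, ZFSet.pair_mem_prod]

omit hM hP hR po hΩ hE hE' in
theorem A12_Nd' {x : ZFSet.{0}} (h : x ∈ Nd Ω E) : ∃ a k, x = ZFSet.pair a k ∧ a ∈ LvZ Ω ∧ k ∈ E := by
  rw [Nd, ZFSet.mem_prod] at h
  obtain ⟨a, ha, k, hk, h⟩ := h
  exact ⟨a, k, h, ha, hk⟩

omit hM hP hR po hΩ hE hE' in
/-- Nodes of the disjoint union. -/
theorem A12_ND {x : ZFSet.{0}} (h : x ∈ Nd Ω (DS E E')) :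
    (∃ a m, x = ZFSet.pair a (ZFSet.pair (natZ 0) m) ∧ a ∈ LvZ Ω ∧ m ∈ E) ∨
      ∃ a m, x = ZFSet.pair a (ZFSet.pair (natZ 1) m) ∧ a ∈ LvZ Ω ∧ m ∈ E' := by
  obtain ⟨a, k, rfl, ha, hk⟩ := A12_Nd' h
  rcases A12_DS.1 hk with ⟨m, hm, rfl⟩ | ⟨m, hm, rfl⟩
  · exact Or.inl ⟨a, m, rfl, ha, hm⟩
  · exact Or.inr ⟨a, m, rfl, ha, hm⟩

omit hM hP hR po hΩ hE hE' in
theorem A12_nd0 {a m : ZFSet.{0}} (ha : a ∈ LvZ Ω) (hm : m ∈ E) :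
    ZFSet.pair a (ZFSet.pair (natZ 0) m) ∈ Nd Ω (DS E E') :=
  A12_Nd.2 ⟨ha, A12_DS.2 (Or.inl ⟨m, hm, rfl⟩)⟩

omit hM hP hR po hΩ hE hE' in
theorem A12_nd1 {a m : ZFSet.{0}} (ha : a ∈ LvZ Ω) (hm : m ∈ E') :
    ZFSet.pair a (ZFSet.pair (natZ 1) m) ∈ Nd Ω (DS E E') :=
  A12_Nd.2 ⟨ha, A12_DS.2 (Or.inr ⟨m, hm, rfl⟩)⟩

omit hM hP hR po hΩ hE hE' in
theorem A12_DU {a i m b j n p : ZFSet.{0}} :
    ZFSet.pair (ZFSet.pair (ZFSet.pair a (ZFSet.pair i m)) (ZFSet.pair b (ZFSet.pair j n))) p ∈ DU Ω E E' P O O' ↔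
    ZFSet.pair a (ZFSet.pair i m) ∈ Nd Ω (DS E E') ∧ ZFSet.pair b (ZFSet.pair j n) ∈ Nd Ω (DS E E') ∧ p ∈ P ∧ a ∈ b ∧
    (i ≠ j ∨ (i = natZ 0 ∧ j = natZ 0 ∧ ZFSet.pair (ZFSet.pair (ZFSet.pair a m) (ZFSet.pair b n)) p ∈ O) ∨
      (i = natZ 1 ∧ j = natZ 1 ∧ ZFSet.pair (ZFSet.pair (ZFSet.pair a m) (ZFSet.pair b n)) p ∈ O')) := by
  rw [DU, ZFSet.mem_sep, ZFSet.pair_mem_prod, ZFSet.pair_mem_prod]
  constructor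
  · rintro ⟨⟨⟨h1, h2⟩, h3⟩, a', i', m', b', j', n', p', h4, h5, h6⟩
    rw [ZFSet.pair_inj, ZFSet.pair_inj, ZFSet.pair_inj, ZFSet.pair_inj, ZFSet.pair_inj, ZFSet.pair_inj] at h4
    obtain ⟨⟨⟨rfl, rfl, rfl⟩, rfl, rfl, rfl⟩, rfl⟩ := h4
    exact ⟨h1, h2, h3, h5, h6⟩
  · rintro ⟨h1, h2, h3, h5, h6⟩
    exact ⟨⟨⟨h1, h2⟩, h3⟩, a, i, m, b, j, n, p, rfl, h5, h6⟩

omit hM hP hR po hΩ hE hE' in
theorem A12_DU' {z : ZFSet.{0}} (h : z ∈ DU Ω E E' P O O') : ∃ a i m b j n p,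
    z = ZFSet.pair (ZFSet.pair (ZFSet.pair a (ZFSet.pair i m)) (ZFSet.pair b (ZFSet.pair j n))) p := by
  rw [DU, ZFSet.mem_sep] at h
  obtain ⟨_, a, i, m, b, j, n, p, h, _⟩ := h
  exact ⟨a, i, m, b, j, n, p, h⟩

omit hM hP hR po hΩ hE hE' in
theorem A12_bel {a k b l : ZFSet.{0}} : Bel (ZFSet.pair a k) (ZFSet.pair b l) ↔ a ∈ b := by
  constructor
  · rintro ⟨a', m, b', n, h1, h2, h3⟩
    rw [ZFSet.pair_inj] at h1 h2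
    rw [h1.1, h2.1]
    exact h3
  · exact fun h => ⟨a, k, b, l, rfl, rfl, h⟩

omit hM hP hR po hΩ hE hE' in
theorem A12_lv {a : ZFSet.{0}} (h : a ∈ LvZ Ω) : ∃ β < Ω, a = β.toZFSet := by
  rw [LvZ, ZFSet.mem_sep, Ordinal.mem_toZFSet_iff] at h
  obtain ⟨⟨β, hβ, h1⟩, _⟩ := h
  exact ⟨β, hβ, h1.symm⟩

omit hM hP hR po hΩ hE hE' in
theorem A12_lv_trans {a b d : ZFSet.{0}} (hd : d ∈ LvZ Ω) (h1 : a ∈ b) (h2 : b ∈ d) : a ∈ d := by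
  obtain ⟨β, hβ, rfl⟩ := A12_lv hd
  exact (ZFSet.isOrdinal_toZFSet β).isTransitive.mem_trans h1 h2

theorem DS_mem : DS E E' ∈ M :=
  hM.union_mem (hM.prod_mem ((PD.singleton (PD.const (n := 0) (hN := hM) (hM.natZ_mem_N 0))).1 Fin.elim0) hE)
    (hM.prod_mem ((PD.singleton (PD.const (n := 0) (hN := hM) (hM.natZ_mem_N 1))).1 Fin.elim0) hE')

omit hP hR po hΩ hE' in
theorem A12_ctb (i : ℕ) (hEc : Ctb M E) : Ctb M (ZFSet.prod {natZ i} E) := by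
  have hi : (natZ i : ZFSet.{0}) ∈ M := hM.natZ_mem_N i
  refine Ctb.image hM hEc hE (F := fun x y => y.1 = ZFSet.pair (natZ i) x.1) ?_ ?_ ?_
  · (repeat' first
    | exact PD.var _ | exact PD.const ‹_› | refine PD.pair ?_ ?_
    | refine Df.bex ?_ ?_ | refine Df.ball ?_ ?_ | refine Df.eq ?_ ?_ | refine Df.mem ?_ ?_ | refine Df.sub ?_ ?_
    | refine Dfn.and ?_ ?_ | refine Dfn.or ?_ ?_ | refine Dfn.not ?_ | refine Dfn.imp ?_ ?_)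
  · intro x _ y y' h1 h2
    exact Subtype.ext (h1.trans h2.symm)
  · intro y hy
    rw [ZFSet.mem_prod] at hy
    obtain ⟨j, hj, m, hm, rfl⟩ := hy
    rw [ZFSet.mem_singleton] at hj
    subst hj
    exact ⟨⟨m, hM.mem_of_mem hE hm⟩, ⟨_, hM.pair_mem hi (hM.mem_of_mem hE hm)⟩, hm, rfl, rfl⟩

theorem DS_ctb (hEc : Ctb M E) (hEc' : Ctb M E') : Ctb M (DS E E') := by
  refine tk7_union2 hM ?_ ?_ (A12_ctb hM hE 0 hEc) (A12_ctb hM hE' 1 hEc')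
  · exact hM.prod_mem ((PD.singleton (PD.const (n := 0) (hN := hM) (hM.natZ_mem_N 0))).1 Fin.elim0) hE
  · exact hM.prod_mem ((PD.singleton (PD.const (n := 0) (hN := hM) (hM.natZ_mem_N 1))).1 Fin.elim0) hE'

omit hM hP hR po hΩ hE hE' in
/-- bounded form of the definition of `DU` -/
def A12_B (L D E E' P O O' z : ZFSet.{0}) : Prop :=
  ∃ a ∈ L, ∃ k ∈ D, ∃ b ∈ L, ∃ l ∈ D, ∃ p ∈ P, z = ZFSet.pair (ZFSet.pair (ZFSet.pair a k) (ZFSet.pair b l)) p ∧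
    a ∈ b ∧ ((∃ m ∈ E, ∃ n ∈ E', k = ZFSet.pair (natZ 0) m ∧ l = ZFSet.pair (natZ 1) n) ∨
      (∃ m ∈ E', ∃ n ∈ E, k = ZFSet.pair (natZ 1) m ∧ l = ZFSet.pair (natZ 0) n) ∨
      (∃ m ∈ E, ∃ n ∈ E, k = ZFSet.pair (natZ 0) m ∧ l = ZFSet.pair (natZ 0) n ∧
        ZFSet.pair (ZFSet.pair (ZFSet.pair a m) (ZFSet.pair b n)) p ∈ O) ∨
      (∃ m ∈ E', ∃ n ∈ E', k = ZFSet.pair (natZ 1) m ∧ l = ZFSet.pair (natZ 1) n ∧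
        ZFSet.pair (ZFSet.pair (ZFSet.pair a m) (ZFSet.pair b n)) p ∈ O'))

theorem DU_mem (hO : O ∈ M) (hO' : O' ∈ M) : DU Ω E E' P O O' ∈ M := by
  have hL : LvZ Ω ∈ M := E2_Lv_mem hM hΩ.mem
  have hD : DS E E' ∈ M := DS_mem hM hP hR po hΩ hE hE'
  have hN : Nd Ω (DS E E') ∈ M := E2_Nd_mem hM hΩ.mem hD
  have h0 : (natZ 0 : ZFSet.{0}) ∈ M := hM.natZ_mem_N 0
  have h1 : (natZ 1 : ZFSet.{0}) ∈ M := hM.natZ_mem_N 1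
  have h2 : ZFSet.sep (A12_B (LvZ Ω) (DS E E') E E' P O O')
      (ZFSet.prod (ZFSet.prod (Nd Ω (DS E E')) (Nd Ω (DS E E'))) P) ∈ M := by
    refine hM.sep_mem ?_ (hM.prod_mem (hM.prod_mem hN hN) hP)
    unfold A12_B
    (repeat' first
    | exact PD.var _ | exact PD.const ‹_› | refine PD.pair ?_ ?_
    | refine Df.bex ?_ ?_ | refine Df.ball ?_ ?_ | refine Df.eq ?_ ?_ | refine Df.mem ?_ ?_ | refine Df.sub ?_ ?_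
    | refine Dfn.and ?_ ?_ | refine Dfn.or ?_ ?_ | refine Dfn.not ?_ | refine Dfn.imp ?_ ?_)
  have e : DU Ω E E' P O O' = ZFSet.sep (A12_B (LvZ Ω) (DS E E') E E' P O O')
      (ZFSet.prod (ZFSet.prod (Nd Ω (DS E E')) (Nd Ω (DS E E'))) P) := by
    ext z
    rw [ZFSet.mem_sep]
    constructor
    · intro hz
      obtain ⟨a, i, m, b, j, n, p, rfl⟩ := A12_DU' hz
      obtain ⟨h3, h4, h5, h6, h7⟩ := A12_DU.1 hz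
      refine ⟨ZFSet.pair_mem_prod.2 ⟨ZFSet.pair_mem_prod.2 ⟨h3, h4⟩, h5⟩, ?_⟩
      rw [A12_Nd] at h3 h4
      refine ⟨a, h3.1, _, h3.2, b, h4.1, _, h4.2, p, h5, rfl, h6, ?_⟩
      rcases A12_DS.1 h3.2 with ⟨m', hm, h8⟩ | ⟨m', hm, h8⟩ <;>
        rcases A12_DS.1 h4.2 with ⟨n', hn, h9⟩ | ⟨n', hn, h9⟩ <;>
          rw [ZFSet.pair_inj] at h8 h9 <;> obtain ⟨rfl, rfl⟩ := h8 <;> obtain ⟨rfl, rfl⟩ := h9
      · rcases h7 with h7 | ⟨_, _, h7⟩ | ⟨h7, _⟩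
        · exact absurd rfl h7
        · exact Or.inr (Or.inr (Or.inl ⟨m, hm, n, hn, rfl, rfl, h7⟩))
        · exact absurd h7 A12_01
      · exact Or.inl ⟨m, hm, n, hn, rfl, rfl⟩
      · exact Or.inr (Or.inl ⟨m, hm, n, hn, rfl, rfl⟩)
      · rcases h7 with h7 | ⟨h7, _⟩ | ⟨_, _, h7⟩
        · exact absurd rfl h7
        · exact absurd h7.symm A12_01
        · exact Or.inr (Or.inr (Or.inr ⟨m, hm, n, hn, rfl, rfl, h7⟩))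
    · rintro ⟨_, a, ha, k, hk, b, hb, l, hl, p, hp, rfl, h3, h4⟩
      rcases h4 with ⟨m, hm, n, hn, rfl, rfl⟩ | ⟨m, hm, n, hn, rfl, rfl⟩ | ⟨m, hm, n, hn, rfl, rfl, h4⟩ |
        ⟨m, hm, n, hn, rfl, rfl, h4⟩
      · exact A12_DU.2 ⟨A12_nd0 ha hm, A12_nd1 hb hn, hp, h3, Or.inl A12_01⟩
      · exact A12_DU.2 ⟨A12_nd1 ha hm, A12_nd0 hb hn, hp, h3, Or.inl A12_01.symm⟩
      · exact A12_DU.2 ⟨A12_nd0 ha hm, A12_nd0 hb hn, hp, h3, Or.inr (Or.inl ⟨rfl, rfl, h4⟩)⟩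
      · exact A12_DU.2 ⟨A12_nd1 ha hm, A12_nd1 hb hn, hp, h3, Or.inr (Or.inr ⟨rfl, rfl, h4⟩)⟩
  rw [e]
  exact h2

theorem du_opn (ho : OpN Ω E P R O) (ho' : OpN Ω E' P R O') : OpN Ω (DS E E') P R (DU Ω E E' P O O') := by
  constructor
  · intro z hz
    obtain ⟨a, i, m, b, j, n, p, rfl⟩ := A12_DU' hz
    obtain ⟨h3, h4, h5, h6, h7⟩ := A12_DU.1 hz
    exact ⟨_, h3, _, h4, p, h5, A12_bel.2 h6, rfl⟩
  · intro x y p q hq hpq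
    obtain ⟨a, i, m, b, j, n, p', h1⟩ := A12_DU' hq
    rw [ZFSet.pair_inj, ZFSet.pair_inj] at h1
    obtain ⟨⟨rfl, rfl⟩, rfl⟩ := h1
    obtain ⟨h3, h4, h5, h6, h7⟩ := A12_DU.1 hq
    refine A12_DU.2 ⟨h3, h4, (po.mem hpq).1, h6, ?_⟩
    rcases h7 with h7 | ⟨h7, h8, h9⟩ | ⟨h7, h8, h9⟩
    · exact Or.inl h7
    · exact Or.inr (Or.inl ⟨h7, h8, ho.op _ _ _ _ h9 hpq⟩)
    · exact Or.inr (Or.inr ⟨h7, h8, ho'.op _ _ _ _ h9 hpq⟩)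

theorem du_tgn (ho : OpN Ω E P R O) (ho' : OpN Ω E' P R O') (ht : TGN Ω E R O) (ht' : TGN Ω E' R O') :
    TGN Ω (DS E E') R (DU Ω E E' P O O') := by
  intro x hx y hy z hz hxy hyz p hp
  have hpP : p ∈ P := by
    obtain ⟨x', _, y', _, p', hp', _, h⟩ := (du_opn hM hP hR po hΩ hE hE' ho ho').sub _ hp
    rw [ZFSet.pair_inj] at h
    rw [h.2]
    exact hp'
  have hpp := po.refl p hpP
  rcases A12_ND hx with ⟨a, m, rfl, ha, hm⟩ | ⟨a, m, rfl, ha, hm⟩ <;>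
    rcases A12_ND hz with ⟨d, l, rfl, hd, hl⟩ | ⟨d, l, rfl, hd, hl⟩ <;>
      rcases A12_ND hy with ⟨b, n, rfl, hb, hn⟩ | ⟨b, n, rfl, hb, hn⟩ <;>
        rw [A12_bel] at hxy hyz
  · obtain ⟨_, _, _, _, h7⟩ := A12_DU.1 hp
    rcases h7 with h7 | ⟨_, _, h7⟩ | ⟨h7, _⟩
    · exact absurd rfl h7
    · obtain ⟨r, hr, h8⟩ := ht _ (A12_Nd.2 ⟨ha, hm⟩) _ (A12_Nd.2 ⟨hb, hn⟩) _ (A12_Nd.2 ⟨hd, hl⟩)
        (A12_bel.2 hxy) (A12_bel.2 hyz) p h7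
      refine ⟨r, hr, ?_⟩
      rcases h8 with h8 | h8
      · exact Or.inl (A12_DU.2 ⟨hx, hz, (po.mem hr).1, A12_lv_trans hd hxy hyz, Or.inr (Or.inl ⟨rfl, rfl, h8⟩)⟩)
      · exact Or.inr (A12_DU.2 ⟨hy, hz, (po.mem hr).1, hyz, Or.inr (Or.inl ⟨rfl, rfl, h8⟩)⟩)
    · exact absurd h7 A12_01
  · exact ⟨p, hpp, Or.inr (A12_DU.2 ⟨hy, hz, hpP, hyz, Or.inl A12_01.symm⟩)⟩
  · exact ⟨p, hpp, Or.inl (A12_DU.2 ⟨hx, hz, hpP, A12_lv_trans hd hxy hyz, Or.inl A12_01⟩)⟩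
  · exact ⟨p, hpp, Or.inl (A12_DU.2 ⟨hx, hz, hpP, A12_lv_trans hd hxy hyz, Or.inl A12_01⟩)⟩
  · exact ⟨p, hpp, Or.inl (A12_DU.2 ⟨hx, hz, hpP, A12_lv_trans hd hxy hyz, Or.inl A12_01.symm⟩)⟩
  · exact ⟨p, hpp, Or.inl (A12_DU.2 ⟨hx, hz, hpP, A12_lv_trans hd hxy hyz, Or.inl A12_01.symm⟩)⟩
  · exact ⟨p, hpp, Or.inr (A12_DU.2 ⟨hy, hz, hpP, hyz, Or.inl A12_01⟩)⟩
  · obtain ⟨_, _, _, _, h7⟩ := A12_DU.1 hp
    rcases h7 with h7 | ⟨h7, _⟩ | ⟨_, _, h7⟩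
    · exact absurd rfl h7
    · exact absurd h7.symm A12_01
    · obtain ⟨r, hr, h8⟩ := ht' _ (A12_Nd.2 ⟨ha, hm⟩) _ (A12_Nd.2 ⟨hb, hn⟩) _ (A12_Nd.2 ⟨hd, hl⟩)
        (A12_bel.2 hxy) (A12_bel.2 hyz) p h7
      refine ⟨r, hr, ?_⟩
      rcases h8 with h8 | h8
      · exact Or.inl (A12_DU.2 ⟨hx, hz, (po.mem hr).1, A12_lv_trans hd hxy hyz, Or.inr (Or.inr ⟨rfl, rfl, h8⟩)⟩)
      · exact Or.inr (A12_DU.2 ⟨hy, hz, (po.mem hr).1, hyz, Or.inr (Or.inr ⟨rfl, rfl, h8⟩)⟩)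

omit hM hP hR po hΩ hE hE' in
/-- The part of a name with nodes of kind `i`. -/
noncomputable def A12_z (Ω : Ordinal.{0}) (E P : ZFSet.{0}) (i : ℕ) (ζ : ZFSet.{0}) : ZFSet.{0} :=
  ZFSet.sep (fun z => ∃ a ∈ LvZ Ω, ∃ m ∈ E, ∃ r ∈ P, z = ZFSet.pair (ZFSet.pair a m) r ∧
    ZFSet.pair (ZFSet.pair a (ZFSet.pair (natZ i) m)) r ∈ ζ) (ZFSet.prod (Nd Ω E) P)

omit hM hP hR po hΩ hE hE' in
theorem A12_mz {i : ℕ} {ζ a m r : ZFSet.{0}} : ZFSet.pair (ZFSet.pair a m) r ∈ A12_z Ω E P i ζ ↔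
    a ∈ LvZ Ω ∧ m ∈ E ∧ r ∈ P ∧ ZFSet.pair (ZFSet.pair a (ZFSet.pair (natZ i) m)) r ∈ ζ := by
  rw [A12_z, ZFSet.mem_sep, ZFSet.pair_mem_prod, A12_Nd]
  constructor
  · rintro ⟨_, a', ha, m', hm, r', hr, h1, h2⟩
    rw [ZFSet.pair_inj, ZFSet.pair_inj] at h1
    obtain ⟨⟨rfl, rfl⟩, rfl⟩ := h1
    exact ⟨ha, hm, hr, h2⟩
  · rintro ⟨ha, hm, hr, h2⟩
    exact ⟨⟨⟨ha, hm⟩, hr⟩, a, ha, m, hm, r, hr, rfl, h2⟩

omit hM hP hR po hΩ hE hE' in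
theorem A12_mz' {i : ℕ} {ζ x r : ZFSet.{0}} (h : ZFSet.pair x r ∈ A12_z Ω E P i ζ) :
    ∃ a m, x = ZFSet.pair a m := by
  rw [A12_z, ZFSet.mem_sep] at h
  obtain ⟨_, a, _, m, _, r', _, h1, _⟩ := h
  rw [ZFSet.pair_inj] at h1
  exact ⟨a, m, h1.1⟩

omit hR po hE' in
theorem A12_zm {i : ℕ} {ζ : ZFSet.{0}} (hζ : ζ ∈ M) : A12_z Ω E P i ζ ∈ M := by
  have hL : LvZ Ω ∈ M := E2_Lv_mem hM hΩ.mem
  have hi : (natZ i : ZFSet.{0}) ∈ M := hM.natZ_mem_N i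
  refine hM.sep_mem ?_ (hM.prod_mem (E2_Nd_mem hM hΩ.mem hE) hP)
  (repeat' first
    | exact PD.var _ | exact PD.const ‹_› | refine PD.pair ?_ ?_
    | refine Df.bex ?_ ?_ | refine Df.ball ?_ ?_ | refine Df.eq ?_ ?_ | refine Df.mem ?_ ?_ | refine Df.sub ?_ ?_
    | refine Dfn.and ?_ ?_ | refine Dfn.or ?_ ?_ | refine Dfn.not ?_ | refine Dfn.imp ?_ ?_)

omit hM hP hR hΩ hE hE' in
/-- The part of kind `i` of a chain. -/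
theorem A12_fc {i : ℕ} {D OD q q' ζ : ZFSet.{0}} (h : FC Ω D P R OD q ζ) (hq : ZFSet.pair q' q ∈ R)
    (hO : ∀ a m b n r, ZFSet.pair (ZFSet.pair (ZFSet.pair a m) (ZFSet.pair b n)) r ∈ O →
      ZFSet.pair (ZFSet.pair (ZFSet.pair a (ZFSet.pair (natZ i) m)) (ZFSet.pair b (ZFSet.pair (natZ i) n))) r ∈ OD)
    (hu : ∀ r, ZFSet.pair r q' ∈ R → ∀ β < Ω, ∃ r', ZFSet.pair r' r ∈ R ∧
      ∃ a m, ZFSet.pair (ZFSet.pair a (ZFSet.pair (natZ i) m)) r' ∈ ζ ∧ a ∈ LvZ Ω ∧ m ∈ E ∧ β.toZFSet ∈ a) :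
    FC Ω E P R O q' (A12_z Ω E P i ζ) := by
  refine ⟨(po.mem hq).1, fun z hz => (ZFSet.mem_sep.1 hz).1, ?_, ?_, ?_⟩
  · intro x r r' hx hr
    obtain ⟨a, m, rfl⟩ := A12_mz' hx
    obtain ⟨h1, h2, h3, h4⟩ := A12_mz.1 hx
    exact A12_mz.2 ⟨h1, h2, (po.mem hr).1, h.op _ _ _ h4 hr⟩
  · intro x y r hr hx hy hxy
    obtain ⟨a, m, rfl⟩ := A12_mz' hx
    obtain ⟨b, n, rfl⟩ := A12_mz' hy
    exact h.ch _ _ r (po.trans _ _ _ hr hq) (A12_mz.1 hx).2.2.2 (A12_mz.1 hy).2.2.2 (hO _ _ _ _ _ hxy)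
  · intro r hr β hβ
    obtain ⟨r', h1, a, m, h2, h3, h4, h5⟩ := hu r hr β hβ
    exact ⟨r', h1, a, m, A12_mz.2 ⟨h3, h4, (po.mem h1).1, h2⟩, h5⟩

theorem du_nofc (hO : O ∈ M) (hO' : O' ∈ M) (ho : OpN Ω E P R O) (ho' : OpN Ω E' P R O')
    (hn : ∀ q, ∀ ζ ∈ M, ¬ FC Ω E P R O q ζ) (hn' : ∀ q, ∀ ζ ∈ M, ¬ FC Ω E' P R O' q ζ) :
    ∀ q, ∀ ζ ∈ M, ¬ FC Ω (DS E E') P R (DU Ω E E' P O O') q ζ := by
  intro q ζ hζ h
  have key : ∀ {a m b n r : ZFSet.{0}} {E1 O1 : ZFSet.{0}}, OpN Ω E1 P R O1 →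
      ZFSet.pair (ZFSet.pair (ZFSet.pair a m) (ZFSet.pair b n)) r ∈ O1 →
      a ∈ LvZ Ω ∧ m ∈ E1 ∧ b ∈ LvZ Ω ∧ n ∈ E1 ∧ r ∈ P ∧ a ∈ b := by
    intro a m b n r E1 O1 h1 h2
    obtain ⟨x, hx, y, hy, p, hp, h3, h4⟩ := h1.sub _ h2
    rw [ZFSet.pair_inj, ZFSet.pair_inj] at h4
    obtain ⟨⟨rfl, rfl⟩, rfl⟩ := h4
    rw [A12_Nd] at hx hy
    rw [A12_bel] at h3
    exact ⟨hx.1, hx.2, hy.1, hy.2, hp, h3⟩
  by_cases hc : ∀ r, ZFSet.pair r q ∈ R → ∀ β < Ω, ∃ r', ZFSet.pair r' r ∈ R ∧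
      ∃ a m, ZFSet.pair (ZFSet.pair a (ZFSet.pair (natZ 0) m)) r' ∈ ζ ∧ a ∈ LvZ Ω ∧ m ∈ E ∧ β.toZFSet ∈ a
  · refine hn q _ (A12_zm hM hP hΩ hE hζ) (A12_fc po h (po.refl _ h.q_mem) ?_ hc)
    intro a m b n r h1
    obtain ⟨h2, h3, h4, h5, h6, h7⟩ := key ho h1
    exact A12_DU.2 ⟨A12_nd0 h2 h3, A12_nd0 h4 h5, h6, h7, Or.inr (Or.inl ⟨rfl, rfl, h1⟩)⟩
  · push Not at hc
    obtain ⟨r₀, hr₀, β₀, hβ₀, h0⟩ := hc
    refine hn' r₀ _ (A12_zm (i := 1) hM hP hΩ hE' hζ) (A12_fc po h hr₀ ?_ ?_)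
    · intro a m b n r h1
      obtain ⟨h2, h3, h4, h5, h6, h7⟩ := key ho' h1
      exact A12_DU.2 ⟨A12_nd1 h2 h3, A12_nd1 h4 h5, h6, h7, Or.inr (Or.inr ⟨rfl, rfl, h1⟩)⟩
    · intro r hr β hβ
      obtain ⟨r', hr', a, k, hk, hka⟩ := h.unb r (po.trans _ _ _ hr hr₀) (max β β₀) (max_lt hβ hβ₀)
      have hND := (ZFSet.pair_mem_prod.1 (h.sub hk)).1
      have hle : ∀ γ : Ordinal.{0}, γ ≤ max β β₀ → a ∈ LvZ Ω → γ.toZFSet ∈ a := by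
        intro γ hγ ha
        obtain ⟨α, hα, rfl⟩ := A12_lv ha
        rw [Ordinal.toZFSet_mem_toZFSet_iff] at hka ⊢
        exact lt_of_le_of_lt hγ hka
      rcases A12_ND hND with ⟨a', m, h1, ha, hm⟩ | ⟨a', m, h1, ha, hm⟩
      · rw [ZFSet.pair_inj] at h1
        obtain ⟨rfl, rfl⟩ := h1
        exact absurd (hle β₀ (le_max_right _ _) ha) (h0 r' (po.trans _ _ _ hr' hr) a m hk ha hm)
      · rw [ZFSet.pair_inj] at h1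
        obtain ⟨rfl, rfl⟩ := h1
        exact ⟨r', hr', a, m, hk, ha, hm, hle β (le_max_left _ _) ha⟩

omit hE' in
theorem cc_of_qq (hO : O ∈ M) (hc : CC M (QQ Ω E P O) (RQ Ω E P R O)) : CC M P R := by
  intro Z hZ hZP
  have hem : (∅ : ZFSet.{0}) ∈ M := hM.empty_mem
  have hs : ({∅} : ZFSet.{0}) ∈ M := (PD.singleton (PD.const (n := 0) (hN := hM) hem)).1 Fin.elim0
  have hQ : ∀ p ∈ P, ZFSet.pair p ∅ ∈ QQ Ω E P O := by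
    intro p hp
    refine E2_QQ.2 ⟨hp, mem_finS.2 ⟨fun z hz => (ZFSet.notMem_empty _ hz).elim, ∅, fun z => by simp⟩, ?_, ?_⟩
    · intro x m n h1 _
      exact (ZFSet.notMem_empty _ h1).elim
    · intro x y n h1 _ _
      exact (ZFSet.notMem_empty _ h1).elim
  obtain ⟨C, hC, hCs, hCc, h1⟩ := hc (ZFSet.prod Z {∅}) (hM.prod_mem hZ hs) (by
    intro z hz
    rw [ZFSet.mem_prod] at hz
    obtain ⟨p, hp, e, he, rfl⟩ := hz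
    rw [ZFSet.mem_singleton] at he
    rw [he]
    exact hQ p (hZP hp))
  have hD : ZFSet.sep (fun w => ZFSet.pair w ∅ ∈ C) Z ∈ M := by
    refine hM.sep_mem ?_ hZ
    (repeat' first
    | exact PD.var _ | exact PD.const ‹_› | refine PD.pair ?_ ?_
    | refine Df.bex ?_ ?_ | refine Df.ball ?_ ?_ | refine Df.eq ?_ ?_ | refine Df.mem ?_ ?_ | refine Df.sub ?_ ?_
    | refine Dfn.and ?_ ?_ | refine Dfn.or ?_ ?_ | refine Dfn.not ?_ | refine Dfn.imp ?_ ?_)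
  refine ⟨_, hD, fun z hz => (ZFSet.mem_sep.1 hz).1, ?_, ?_⟩
  · refine Ctb.image hM hCc hC (F := fun x y => x.1 = ZFSet.pair y.1 ∅) ?_ ?_ ?_
    · (repeat' first
    | exact PD.var _ | exact PD.const ‹_› | refine PD.pair ?_ ?_
    | refine Df.bex ?_ ?_ | refine Df.ball ?_ ?_ | refine Df.eq ?_ ?_ | refine Df.mem ?_ ?_ | refine Df.sub ?_ ?_
    | refine Dfn.and ?_ ?_ | refine Dfn.or ?_ ?_ | refine Dfn.not ?_ | refine Dfn.imp ?_ ?_)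
    · intro x _ y y' h2 h3
      rw [h2, ZFSet.pair_inj] at h3
      exact Subtype.ext h3.1
    · intro y hy
      rw [ZFSet.mem_sep] at hy
      exact ⟨⟨_, hM.mem_of_mem hC hy.2⟩, ⟨y, hM.mem_of_mem hZ hy.1⟩, hy.2, rfl, rfl⟩
  · intro z hz
    obtain ⟨w, hw, r, hr1, hr2⟩ := h1 (ZFSet.pair z ∅) (ZFSet.pair_mem_prod.2 ⟨hz, ZFSet.mem_singleton.2 rfl⟩)
    have h2 := hCs hw
    rw [ZFSet.mem_prod] at h2
    obtain ⟨w', hw', e, he, rfl⟩ := h2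
    rw [ZFSet.mem_singleton] at he
    subst he
    have hrQ : r ∈ QQ Ω E P O := by
      rw [RQ, ZFSet.mem_sep, ZFSet.pair_mem_prod] at hr1
      exact hr1.1.1
    obtain ⟨p, f, rfl⟩ := E2_QQ' hrQ
    exact ⟨w', ZFSet.mem_sep.2 ⟨hw', hw⟩, p, (E2_RQ.1 hr1).2.2.1, (E2_RQ.1 hr2).2.2.1⟩

theorem cc_prod (hEc : Ctb M E) (hEc' : Ctb M E') (hO : O ∈ M) (hO' : O' ∈ M) (ho : OpN Ω E P R O)
    (ho' : OpN Ω E' P R O') (ht : TGN Ω E R O) (ht' : TGN Ω E' R O')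
    (hc : CC M (QQ Ω E P O) (RQ Ω E P R O)) (hc' : CC M (QQ Ω E' P O') (RQ Ω E' P R O')) :
    CC M (QQ Ω (DS E E') P (DU Ω E E' P O O')) (RQ Ω (DS E E') P R (DU Ω E E' P O O')) := by
  refine qq_ccc hM hP hR po hΩ (DS_mem hM hP hR po hΩ hE hE') (DS_ctb hM hP hR po hΩ hE hE' hEc hEc')
    (DU_mem hM hP hR po hΩ hE hE' hO hO') (du_opn hM hP hR po hΩ hE hE' ho ho')
    (du_tgn hM hP hR po hΩ hE hE' ho ho' ht ht') (cc_of_qq hM hP hR po hΩ hE hO hc) ?_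
  refine du_nofc hM hP hR po hΩ hE hE' hO hO' ho ho' ?_ ?_
  · intro q ζ hζ
    exact qq_nochain hM hP hR po hΩ hE hO hc hζ
  · intro q ζ hζ
    exact qq_nochain hM hP hR po hΩ hE' hO' hc' hζ

omit hM hP hR po hΩ hE hE' in
theorem A12_OF {x y p : ZFSet.{0}} : ZFSet.pair (ZFSet.pair x y) p ∈ OF Ω E P ↔
    x ∈ Nd Ω E ∧ y ∈ Nd Ω E ∧ p ∈ P ∧ Bel x y := by
  rw [OF, ZFSet.mem_sep, ZFSet.pair_mem_prod, ZFSet.pair_mem_prod]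
  constructor
  · rintro ⟨⟨⟨h1, h2⟩, h3⟩, x', y', p', h4, h5⟩
    rw [ZFSet.pair_inj, ZFSet.pair_inj] at h4
    obtain ⟨⟨rfl, rfl⟩, rfl⟩ := h4
    exact ⟨h1, h2, h3, h5⟩
  · rintro ⟨h1, h2, h3, h5⟩
    exact ⟨⟨⟨h1, h2⟩, h3⟩, x, y, p, rfl, h5⟩

omit hE' in
theorem OF_mem : OF Ω E P ∈ M := by
  have hL : LvZ Ω ∈ M := E2_Lv_mem hM hΩ.mem
  have hD : Nd Ω E ∈ M := E2_Nd_mem hM hΩ.mem hE
  have h1 : ZFSet.sep (fun z => ∃ x ∈ Nd Ω E, ∃ y ∈ Nd Ω E, ∃ p ∈ P, z = ZFSet.pair (ZFSet.pair x y) p ∧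
      E2_Bel (LvZ Ω) E x y) (ZFSet.prod (ZFSet.prod (Nd Ω E) (Nd Ω E)) P) ∈ M := by
    refine hM.sep_mem ?_ (hM.prod_mem (hM.prod_mem hD hD) hP)
    unfold E2_Bel
    (repeat' first
    | exact PD.var _ | exact PD.const ‹_› | refine PD.pair ?_ ?_
    | refine Df.bex ?_ ?_ | refine Df.ball ?_ ?_ | refine Df.eq ?_ ?_ | refine Df.mem ?_ ?_ | refine Df.sub ?_ ?_
    | refine Dfn.and ?_ ?_ | refine Dfn.or ?_ ?_ | refine Dfn.not ?_ | refine Dfn.imp ?_ ?_)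
  have e : OF Ω E P = ZFSet.sep (fun z => ∃ x ∈ Nd Ω E, ∃ y ∈ Nd Ω E, ∃ p ∈ P,
      z = ZFSet.pair (ZFSet.pair x y) p ∧
      E2_Bel (LvZ Ω) E x y) (ZFSet.prod (ZFSet.prod (Nd Ω E) (Nd Ω E)) P) := by
    ext z
    rw [OF, ZFSet.mem_sep, ZFSet.mem_sep]
    constructor
    · rintro ⟨h2, x, y, p, rfl, h3⟩
      rw [ZFSet.pair_mem_prod, ZFSet.pair_mem_prod] at h2
      obtain ⟨⟨h4, h5⟩, h6⟩ := h2
      exact ⟨ZFSet.pair_mem_prod.2 ⟨ZFSet.pair_mem_prod.2 ⟨h4, h5⟩, h6⟩, x, h4, y, h5, p, h6, rfl,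
        (E2_Bel_iff h4 h5).2 h3⟩
    · rintro ⟨h2, x, h4, y, h5, p, _, h6, h3⟩
      exact ⟨h2, x, y, p, h6, (E2_Bel_iff h4 h5).1 h3⟩
  rw [e]
  exact h1

omit hE' in
theorem of_opn : OpN Ω E P R (OF Ω E P) := by
  constructor
  · intro z hz
    have hz' := hz
    rw [OF, ZFSet.mem_sep] at hz'
    obtain ⟨_, x, y, p, rfl, _⟩ := hz'
    obtain ⟨h1, h2, h3, h4⟩ := A12_OF.1 hz
    exact ⟨x, h1, y, h2, p, h3, h4, rfl⟩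
  · intro x y p q hq hpq
    obtain ⟨h1, h2, h3, h4⟩ := A12_OF.1 hq
    exact A12_OF.2 ⟨h1, h2, (po.mem hpq).1, h4⟩

omit hE' in
theorem of_tgn : TGN Ω E R (OF Ω E P) := by
  intro x hx y hy z hz hxy hyz p hp
  have hpP := (A12_OF.1 hp).2.2.1
  exact ⟨p, po.refl _ hpP, Or.inr (A12_OF.2 ⟨hy, hz, hpP, hyz⟩)⟩

omit hE' in
theorem cc_full (hEc : Ctb M E) (hc : CC M P R) : CC M (QQ Ω E P (OF Ω E P)) (RQ Ω E P R (OF Ω E P)) := by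
  refine qq_ccc hM hP hR po hΩ hE hEc (OF_mem hM hP hR po hΩ hE) (of_opn hM hP hR po hΩ hE)
    (of_tgn hM hP hR po hΩ hE) hc ?_
  intro q ζ hζ h
  have h0 : (0 : Ordinal.{0}) < Ω := by
    have := IsOm1.omega_lt hM hΩ 0
    simpa using this
  obtain ⟨r₁, hr₁, a, m, h1, h2⟩ := h.unb q (po.refl _ h.q_mem) 0 h0
  have hx := (ZFSet.pair_mem_prod.1 (h.sub h1)).1
  obtain ⟨β, hβ, rfl⟩ := A12_lv (A12_Nd.1 hx).1
  obtain ⟨r, hr, b, n, h3, h4⟩ := h.unb r₁ hr₁ β hβ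
  have hy := (ZFSet.pair_mem_prod.1 (h.sub h3)).1
  exact h.ch _ _ r (po.trans _ _ _ hr hr₁) (h.op _ _ _ h1 hr) h3
    (A12_OF.2 ⟨hx, hy, (po.mem hr).1, A12_bel.2 h4⟩)

end Pool.Agent.H17.CF
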