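import Pool.Agent.H17.CF.FDefs

/-!
# CF-A1: simple names

PROOFS.
`vv_mem`: by `h.mem_g` there is `γ ∈ M[g]` with the elements of `g`; `M[g]` is a ctm (`h.ctm`), `ζ ∈ M[g]`
(`h.sub`); `vv g ζ` is obtained by separation in `M[g]` from `⋃ ⋃ ζ` (`CTM.sUnion_mem`, `CTM.sep_mem`, or `PD.sep`,
`PD.sUnion`): the predicate `∃ p ∈ γ, (w, p) ∈ ζ` is definable (`Df.bex`, `Df.mem`, `PD.pair`).

`exists_sname`: let `Y = evZ g τ`, `τ ∈ M`. Use `h.exists_Q` to get a poset type `Q`, `c : Q → ZFSet`, `G` generic and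
`PosetIn M Q c`; `PosetIn.exists_PR` gives `PR M c P' R'`. By `exists_check` (FX/Names) there is a definable
`F : M → M` with `ev c G (F a) = a` for all generic `G` (look at its statement), and by `exists_fmem` (FX/Po) the
relation `q` forces `a ∈ b` is definable; `fmem_truth` (FX/Atom) says that `ev c G a ∈ ev c G b` iff some
`p ∈ G` forces it. Put `ζ := {(a, c q) : a ∈ A, q ∈ Q, q forces check a ∈ τ}`, in `M` by separation from
`A × P`. It is downward closed since forcing is monotone (`fmem` is monotone: see FX/Po or `Fc.mono`).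
Alternatively use the general forcing relation `Fc M c φ f q` with the formula `φ = (x₀ ∈ x₁)`: `Fc.mono`,
`Fc.dfn`, `truth`, `Fc.decide`.
-/

set_option autoImplicit false
set_option linter.unusedVariables false
set_option linter.unusedSectionVars false
set_option linter.unusedSimpArgs false
set_option linter.unusedTactic false
set_option linter.unreachableTactic false

open Pool.Agent.H17.Omega Pool.Agent.H17.Omega.CTM Pool.Agent.H52.GC Pool.Agent.H7.IG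

namespace Pool.Agent.H17.CF

variable {M : Set ZFSet.{0}} {P R : ZFSet.{0}} {g : Set ZFSet.{0}}

/-- Values of simple names belong to the extension. -/
theorem vv_mem (h : Fr M P R g) {ζ : ZFSet.{0}} (hζ : ζ ∈ M) : vv g ζ ∈ ExtZ M g := by
  obtain ⟨γ, hγ, hγ'⟩ := h.mem_g
  have hζN : ζ ∈ ExtZ M g := h.sub hζ
  have h1 : ZFSet.sep (fun w => ∃ p ∈ γ, ZFSet.pair w p ∈ ζ) (ZFSet.sUnion (ZFSet.sUnion ζ)) ∈ ExtZ M g := by
    refine h.ctm.sep_mem ?_ (h.ctm.sUnion_mem (h.ctm.sUnion_mem hζN))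
    (repeat' first
    | exact PD.var _ | exact PD.const ‹_› | refine PD.pair ?_ ?_
    | refine Df.bex ?_ ?_ | refine Df.ball ?_ ?_ | refine Df.eq ?_ ?_ | refine Df.mem ?_ ?_ | refine Df.sub ?_ ?_
    | refine Dfn.and ?_ ?_ | refine Dfn.or ?_ ?_ | refine Dfn.not ?_ | refine Dfn.imp ?_ ?_)
  have e : vv g ζ = ZFSet.sep (fun w => ∃ p ∈ γ, ZFSet.pair w p ∈ ζ) (ZFSet.sUnion (ZFSet.sUnion ζ)) := by
    ext w
    rw [vv, ZFSet.mem_sep, ZFSet.mem_sep]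
    refine and_congr_right fun _ => exists_congr fun p => ?_
    rw [hγ']
  rw [e]
  exact h1

/-- Subsets of sets of the ground model have simple open names. -/
theorem exists_sname (h : Fr M P R g) {A Y : ZFSet.{0}} (hA : A ∈ M) (hY : Y ∈ ExtZ M g) (hYA : Y ⊆ A) :
    ∃ ζ ∈ M, ζ ⊆ ZFSet.prod A P ∧
      (∀ x p q, ZFSet.pair x q ∈ ζ → ZFSet.pair p q ∈ R → ZFSet.pair x p ∈ ζ) ∧ vv g ζ = Y := by
  obtain ⟨Q, inst, c, G, hQ, hG, hc, hle, hg, he⟩ := h.exists_Q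
  have hM := h.hM
  rw [he] at hY
  obtain ⟨τ, hτ, rfl⟩ := hY
  have hPR : PR M c P R := by
    refine ⟨h.hP, h.hR, hQ.inj, hc, fun z => ?_⟩
    constructor
    · intro hz
      obtain ⟨a, ha, b, hb, rfl⟩ := h.po.rel z hz
      obtain ⟨p, rfl⟩ := (hc a).1 ha
      obtain ⟨q, rfl⟩ := (hc b).1 hb
      exact ⟨p, q, (hle p q).2 hz, rfl⟩
    · rintro ⟨p, q, h1, rfl⟩
      exact (hle p q).1 h1
  obtain ⟨F, hF, hF'⟩ := exists_check hM hPR
  obtain ⟨MF, hMF, hMF'⟩ := exists_fmem hM hPR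
  have hd : hM.Dfn (fun v : Fin 1 → M => ∃ x w a : M, (v 0).1 = ZFSet.pair x.1 w.1 ∧ F x = a ∧
      MF w a ⟨τ, hτ⟩) := by
    refine Dfn.ex (Dfn.ex (Dfn.ex (Dfn.and ?_ (Dfn.and ?_ ?_))))
    · exact Dfn.isPair (DT.var _) (DT.var _) (DT.var _)
    · exact Dfn.subst2 (P := fun x a => F x = a) hF (DT.var _) (DT.var _)
    · exact Dfn.subst3 (P := MF) hMF (DT.var _) (DT.var _) (DT.const _)
  obtain ⟨ζ, hζ, hζ'⟩ := hM.exists_sep (P := fun z => ∃ x w a : M, z.1 = ZFSet.pair x.1 w.1 ∧ F x = a ∧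
    MF w a ⟨τ, hτ⟩) hd (hM.prod_mem hA h.hP)
  have hm : ∀ (x : M) (q : Q), ZFSet.pair x.1 (c q) ∈ ζ ↔ x.1 ∈ A ∧
      Name.fmem (nm c (F x).1) (nm c τ) q := by
    intro x q
    have hcq : c q ∈ P := (hc _).2 ⟨q, rfl⟩
    have hcM : c q ∈ M := hM.mem_of_mem h.hP hcq
    rw [hζ']
    constructor
    · rintro ⟨h1, _, x', w, a, h2, h3, h4⟩
      have h2 : ZFSet.pair x.1 (c q) = ZFSet.pair x'.1 w.1 := h2
      rw [ZFSet.pair_inj] at h2
      have e : x = x' := Subtype.ext h2.1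
      subst e
      subst h3
      exact ⟨(ZFSet.pair_mem_prod.1 h1).1, (hMF' q w (F x) ⟨τ, hτ⟩ h2.2.symm).1 h4⟩
    · rintro ⟨h1, h2⟩
      exact ⟨ZFSet.pair_mem_prod.2 ⟨h1, hcq⟩, hM.pair_mem x.2 hcM, x, ⟨c q, hcM⟩, F x, rfl, rfl,
        (hMF' q ⟨c q, hcM⟩ (F x) ⟨τ, hτ⟩ rfl).2 h2⟩
  have hsub : ζ ⊆ ZFSet.prod A P := fun z hz => ((hζ' z).1 hz).1
  refine ⟨ζ, hζ, hsub, ?_, ?_⟩
  · intro x p q hxq hpq
    have hx : x ∈ M := hM.mem_of_mem hA (ZFSet.pair_mem_prod.1 (hsub hxq)).1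
    obtain ⟨q', rfl⟩ := (hc q).1 (h.po.mem hpq).2
    obtain ⟨p', rfl⟩ := (hc p).1 (h.po.mem hpq).1
    obtain ⟨h1, h2⟩ := (hm ⟨x, hx⟩ q').1 hxq
    exact (hm ⟨x, hx⟩ p').2 ⟨h1, Name.fmem_mono ((hle _ _).2 hpq) h2⟩
  · ext w
    rw [mem_vv]
    constructor
    · rintro ⟨p, hp, hwp⟩
      obtain ⟨q, hq, rfl⟩ := (hg p).1 hp
      have hw : w ∈ M := hM.mem_of_mem hA (ZFSet.pair_mem_prod.1 (hsub hwp)).1
      obtain ⟨h1, h2⟩ := (hm ⟨w, hw⟩ q).1 hwp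
      have h3 := (fmem_truth hM hQ hG (F ⟨w, hw⟩).2 hτ).2 ⟨q, hq, h2⟩
      rwa [hF' ⟨w, hw⟩ G hG.ne] at h3
    · intro hw
      have hwM : w ∈ M := hM.mem_of_mem hA (hYA hw)
      have h3 : ev c G (F ⟨w, hwM⟩).1 ∈ ev c G τ := by
        rw [hF' ⟨w, hwM⟩ G hG.ne]
        exact hw
      obtain ⟨q, hq, h4⟩ := (fmem_truth hM hQ hG (F ⟨w, hwM⟩).2 hτ).1 h3
      exact ⟨c q, (hg _).2 ⟨q, hq, rfl⟩, (hm ⟨w, hwM⟩ q).2 ⟨hYA hw, h4⟩⟩

end Pool.Agent.H17.CF
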