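import Pool.Agent.H17.CF.FDefs
import Pool.Agent.H7.IG.Tk5

/-!
# CF-A7: a uniform ultrafilter on `ω₁` inside a ctm

PROOF. In `N`: call `S ∈ N`, a set of subsets of `Ω`, good if every finite intersection of elements of `S` is unbounded
in `Ω`; precisely: for every finite `e ⊆ S` and `β < Ω` there is `i`, `β ≤ i < Ω`, with `i ∈ x` for all `x ∈ e`.
The set `S₀ = {Ω \ β : β < Ω}` is good. By the Tukey / Zorn lemma in a ctm (`CTM.exists_maximal` in H17/Omega; look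
at its exact form; goodness has finite character) there is a maximal good `U ⊇ S₀`, `U ∈ N`, `U ⊆ 𝒫(Ω) ∩ N`.
Closed under intersections and supersets by maximality (adding `x ∩ y`, or a superset, keeps goodness). If
`X ⊆ Ω`, `X ∈ N`, neither `X` nor `Ω \ X` in `U`: there are finite `e, e' ⊆ U` and `β, β'` such that
`⋂ e ∩ X` has no element `≥ β` and `⋂ e' ∩ (Ω \ X)` none `≥ β'`; then `⋂ (e ∪ e')` has no element `≥ max β β'`: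
contradiction. (If `exists_maximal` is inconvenient: enumerate `𝒫(Ω) ∩ N` by an ordinal (`exists_enum`, Tk1) and
use `exists_dep` (Tk2) to decide the sets one after the other.)
-/

set_option autoImplicit false
set_option linter.unusedVariables false
set_option linter.unusedSectionVars false
set_option linter.unusedSimpArgs false
set_option linter.unusedTactic false
set_option linter.unreachableTactic false

open Pool.Agent.H17.Omega Pool.Agent.H17.Omega.CTM Pool.Agent.H52.GC Pool.Agent.H7.IG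

namespace Pool.Agent.H17.CF

/-- `ℱ` is a filter on `Ω'` (in the model with the power set `p` of `Ω'`) of unbounded sets that contains the
sets with bounded complement. -/
def ult_Flt (p Ω' ℱ : ZFSet.{0}) : Prop :=
  (∀ X ∈ ℱ, X ∈ p) ∧ (∀ X ∈ ℱ, ∀ Y ∈ ℱ, ∀ Z ∈ p, (∀ w ∈ X, w ∈ Y → w ∈ Z) → Z ∈ ℱ) ∧
  (∀ X ∈ ℱ, ∀ β ∈ Ω', ∃ i ∈ X, ¬ i ∈ β) ∧
  (∀ β ∈ Ω', ∀ Z ∈ p, (∀ w ∈ Ω', (¬ w ∈ β) → w ∈ Z) → Z ∈ ℱ)

theorem ult_Flt_dfn {N : Set ZFSet.{0}} (hN : CTM N) (p Ω' : N) :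
    hN.Dfn (fun v : Fin 1 → N => ult_Flt p.1 Ω'.1 (v 0).1) := by
  unfold ult_Flt
  (repeat' first
      | exact DT.var _ | exact DT.last | exact DT.const _ | assumption
      | refine Dfn.pairMem ?_ ?_ ?_ | refine Dfn.isPair ?_ ?_ ?_ | refine Dfn.mem ?_ ?_
      | refine Dfn.eqv ?_ ?_ | refine Dfn.eq ?_ ?_ | refine Dfn.subset ?_ ?_
      | refine Dfn.isEmpty ?_ | refine Dfn.isTrans ?_ | refine Dfn.isOrd ?_ | refine Dfn.isNat ?_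
      | refine Dfn.isUpair ?_ ?_ ?_ | refine Dfn.isInsert ?_ ?_ ?_
      | refine Dfn.and ?_ ?_ | refine Dfn.or ?_ ?_ | refine Dfn.iff ?_ ?_ | refine Dfn.not ?_
      | refine Dfn.imp ?_ ?_ | refine Dfn.all ?_ | refine Dfn.ex ?_ | exact Dfn.false'
      | refine Dfn.ballZ ?_ ?_ | refine Dfn.bexZ ?_ ?_ | exact Dfn.const _)

theorem exists_ult {N : Set ZFSet.{0}} (hN : CTM N) {Ω : Ordinal.{0}} (hΩ : IsOm1 N Ω) :
    ∃ U ∈ N, (∀ X ∈ U, X ⊆ Ω.toZFSet) ∧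
      (∀ X ∈ N, X ⊆ Ω.toZFSet → X ∈ U ∨ Ω.toZFSet \ X ∈ U) ∧
      (∀ X ∈ U, ∀ Y ∈ U, X ∩ Y ∈ U) ∧ (∀ X ∈ U, ∀ Y ∈ N, X ⊆ Y → Y ⊆ Ω.toZFSet → Y ∈ U) ∧
      (∀ X ∈ U, ∀ β < Ω, ∃ i < Ω, β ≤ i ∧ i.toZFSet ∈ X) ∧
      ∀ β < Ω, Ω.toZFSet \ β.toZFSet ∈ U := by
  obtain ⟨ΩN, hΩN⟩ : ∃ z : N, z.1 = Ω.toZFSet := ⟨⟨_, hΩ.mem⟩, rfl⟩
  obtain ⟨p₀, hp₀, hp'⟩ := hN.exists_pow hΩ.mem
  obtain ⟨p, hpe⟩ : ∃ z : N, z.1 = p₀ := ⟨⟨_, hp₀⟩, rfl⟩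
  subst hpe
  -- separation
  have hsep : ∀ (P : N → Prop), hN.Dfn (fun v : Fin 1 → N => P (v 0)) → ∀ a : N,
      ∃ b : N, ∀ z : N, z.1 ∈ b.1 ↔ z.1 ∈ a.1 ∧ P z := by
    intro P hP a
    obtain ⟨b, hb, hb'⟩ := hN.exists_sep hP a.2
    exact ⟨⟨b, hb⟩, fun z => by
      rw [hb']
      exact and_congr_right fun _ => ⟨fun ⟨_, h⟩ => h, fun h => ⟨z.2, h⟩⟩⟩
  have hmax := CTM.exists_maximal hN p.2 (S := fun s => ∃ ℱ : N, s.1 ⊆ ℱ.1 ∧ ult_Flt p.1 ΩN.1 ℱ.1) (by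
    show hN.Dfn (fun v : Fin 1 → N => ∃ ℱ : N, (v 0).1 ⊆ ℱ.1 ∧ ult_Flt p.1 ΩN.1 ℱ.1)
    refine Dfn.ex (Dfn.and (Dfn.subset (DT.var _) (DT.var _)) ?_)
    exact Dfn.subst1 (P := fun x => ult_Flt p.1 ΩN.1 x.1) (ult_Flt_dfn hN p ΩN) (DT.var _)) (by
    intro C hC hCc U hU
    by_cases hC0 : C.1 = ∅
    · -- the filter of the sets with bounded complement
      obtain ⟨𝒢, h𝒢⟩ := hsep (fun Z => ∃ β ∈ ΩN.1, ∀ w ∈ ΩN.1, (¬ w ∈ β) → w ∈ Z.1) (by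
        (repeat' first
          | exact DT.var _ | exact DT.last | exact DT.const _ | assumption
          | refine Dfn.mem ?_ ?_
          | refine Dfn.and ?_ ?_ | refine Dfn.or ?_ ?_ | refine Dfn.iff ?_ ?_ | refine Dfn.not ?_
          | refine Dfn.imp ?_ ?_ | refine Dfn.all ?_ | refine Dfn.ex ?_ | exact Dfn.false'
          | refine Dfn.ballZ ?_ ?_ | refine Dfn.bexZ ?_ ?_ | exact Dfn.const _)) p
      have h𝒢' : ∀ Z, Z ∈ 𝒢.1 ↔ Z ∈ p.1 ∧ ∃ β ∈ ΩN.1, ∀ w ∈ ΩN.1, (¬ w ∈ β) → w ∈ Z := by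
        intro Z
        constructor
        · intro h; exact (h𝒢 ⟨Z, hN.mem_of_mem 𝒢.2 h⟩).1 h
        · intro h; exact (h𝒢 ⟨Z, hN.mem_of_mem p.2 h.1⟩).2 h
      refine ⟨𝒢, ?_, fun X hX => ((h𝒢' X).1 hX).1, ?_, ?_, ?_⟩
      · intro z hz
        rw [hU, hC0] at hz
        simp at hz
      · intro X hX Y hY Z hZ hXYZ
        obtain ⟨_, β, hβ, h1⟩ := (h𝒢' X).1 hX
        obtain ⟨_, γ, hγ, h2⟩ := (h𝒢' Y).1 hY
        rw [h𝒢']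
        refine ⟨hZ, ?_⟩
        rw [hΩN] at hβ hγ
        obtain ⟨b, hb, rfl⟩ := Ordinal.mem_toZFSet_iff.1 hβ
        obtain ⟨c, hc, rfl⟩ := Ordinal.mem_toZFSet_iff.1 hγ
        refine ⟨(max b c).toZFSet, by rw [hΩN]; exact Ordinal.toZFSet_mem_toZFSet_iff.2 (max_lt hb hc),
          fun w hw hw' => ?_⟩
        rw [hΩN] at hw
        obtain ⟨x, hx, rfl⟩ := Ordinal.mem_toZFSet_iff.1 hw
        rw [Ordinal.toZFSet_mem_toZFSet_iff, not_lt] at hw'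
        refine hXYZ _ (h1 _ (by rw [hΩN]; exact hw) ?_) (h2 _ (by rw [hΩN]; exact hw) ?_)
        · rw [Ordinal.toZFSet_mem_toZFSet_iff, not_lt]; exact (le_max_left _ _).trans hw'
        · rw [Ordinal.toZFSet_mem_toZFSet_iff, not_lt]; exact (le_max_right _ _).trans hw'
      · intro X hX β hβ
        obtain ⟨_, γ, hγ, h1⟩ := (h𝒢' X).1 hX
        rw [hΩN] at hβ hγ
        obtain ⟨b, hb, rfl⟩ := Ordinal.mem_toZFSet_iff.1 hβ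
        obtain ⟨c, hc, rfl⟩ := Ordinal.mem_toZFSet_iff.1 hγ
        have hbc : (max b c).toZFSet ∈ ΩN.1 := by
          rw [hΩN]
          exact Ordinal.toZFSet_mem_toZFSet_iff.2 (max_lt hb hc)
        refine ⟨(max b c).toZFSet, h1 _ hbc ?_, ?_⟩
        · rw [Ordinal.toZFSet_mem_toZFSet_iff, not_lt]; exact le_max_right _ _
        · rw [Ordinal.toZFSet_mem_toZFSet_iff, not_lt]; exact le_max_left _ _
      · intro β hβ Z hZ h1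
        exact (h𝒢' Z).2 ⟨hZ, β, hβ, h1⟩
    · -- the union of the generated filters
      have hne : ∃ s₀ : N, s₀.1 ∈ C.1 := by
        rw [ZFSet.eq_empty] at hC0
        push Not at hC0
        obtain ⟨y, hy⟩ := hC0
        exact ⟨⟨y, hN.mem_of_mem C.2 hy⟩, hy⟩
      obtain ⟨s₀, hs₀⟩ := hne
      obtain ⟨𝒢, h𝒢⟩ := hsep (fun Z => ∃ s : N, s.1 ∈ C.1 ∧ ∀ ℱ : N, ult_Flt p.1 ΩN.1 ℱ.1 →
          s.1 ⊆ ℱ.1 → Z.1 ∈ ℱ.1) (by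
        refine Dfn.ex (Dfn.and (Dfn.mem (DT.var _) (DT.const C)) (Dfn.all (Dfn.imp ?_ (Dfn.imp
          (Dfn.subset (DT.var _) (DT.var _)) (Dfn.mem (DT.var _) (DT.var _))))))
        exact Dfn.subst1 (P := fun x => ult_Flt p.1 ΩN.1 x.1) (ult_Flt_dfn hN p ΩN) (DT.var _)) p
      refine ⟨𝒢, ?_, ?_, ?_, ?_, ?_⟩
      · intro y hy
        rw [hU, ZFSet.mem_sUnion] at hy
        obtain ⟨s, hs, hys⟩ := hy
        have hsN := hN.mem_of_mem C.2 hs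
        have hyN := hN.mem_of_mem hsN hys
        obtain ⟨⟨ℱ, h1, h2⟩, h3⟩ := hC ⟨s, hsN⟩ hs
        exact (h𝒢 ⟨y, hyN⟩).2 ⟨h3 hys, ⟨s, hsN⟩, hs, fun ℱ' _ h4 => h4 hys⟩
      · intro X hX
        exact ((h𝒢 ⟨X, hN.mem_of_mem 𝒢.2 hX⟩).1 hX).1
      · intro X hX Y hY Z hZ hXYZ
        obtain ⟨_, s, hs, h1⟩ := (h𝒢 ⟨X, hN.mem_of_mem 𝒢.2 hX⟩).1 hX
        obtain ⟨_, t, ht, h2⟩ := (h𝒢 ⟨Y, hN.mem_of_mem 𝒢.2 hY⟩).1 hY
        refine (h𝒢 ⟨Z, hN.mem_of_mem p.2 hZ⟩).2 ⟨hZ, ?_⟩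
        rcases hCc s.1 hs t.1 ht with hst | hst
        · exact ⟨t, ht, fun ℱ hℱ h3 => hℱ.2.1 X (h1 ℱ hℱ fun z hz => h3 (hst hz)) Y (h2 ℱ hℱ h3) Z hZ hXYZ⟩
        · exact ⟨s, hs, fun ℱ hℱ h3 => hℱ.2.1 X (h1 ℱ hℱ h3) Y (h2 ℱ hℱ fun z hz => h3 (hst hz)) Z hZ hXYZ⟩
      · intro X hX
        obtain ⟨_, s, hs, h1⟩ := (h𝒢 ⟨X, hN.mem_of_mem 𝒢.2 hX⟩).1 hX
        obtain ⟨⟨ℱ, h2, h3⟩, _⟩ := hC s hs
        exact h3.2.2.1 X (h1 ℱ h3 h2)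
      · intro β hβ Z hZ h1
        exact (h𝒢 ⟨Z, hN.mem_of_mem p.2 hZ⟩).2 ⟨hZ, s₀, hs₀, fun ℱ hℱ _ => hℱ.2.2.2 β hβ Z hZ h1⟩)
  obtain ⟨U, hUp, ⟨ℱ, hUℱ, hℱ⟩, hmx⟩ := hmax
  have hUF : U = ℱ := by
    apply Subtype.ext
    apply ZFSet.ext
    intro z
    refine ⟨fun h => hUℱ h, fun h => ?_⟩
    have hzN := hN.mem_of_mem ℱ.2 h
    refine hmx z (hℱ.1 z h) ⟨_, hN.insert_mem hzN U.2⟩ rfl ⟨ℱ, ?_, hℱ⟩
    intro w hw
    have hw : w ∈ insert z U.1 := hw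
    rw [ZFSet.mem_insert_iff] at hw
    rcases hw with rfl | hw
    · exact h
    · exact hUℱ hw
  subst hUF
  obtain ⟨f1, f2, f3, f4⟩ := hℱ
  have hdiff : ∀ X : N, (ΩN.1 \ X.1) ∈ p.1 := by
    intro X
    obtain ⟨b, hb⟩ := hsep (fun z => ¬ z.1 ∈ X.1) (Dfn.not (Dfn.mem (DT.var _) (DT.const X))) ΩN
    have e : ΩN.1 \ X.1 = b.1 := by
      ext z
      rw [ZFSet.mem_sdiff]
      constructor
      · rintro ⟨h1, h2⟩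
        exact (hb ⟨z, hN.mem_of_mem ΩN.2 h1⟩).2 ⟨h1, h2⟩
      · intro h
        exact (hb ⟨z, hN.mem_of_mem b.2 h⟩).1 h
    rw [e, hp']
    refine ⟨b.2, fun z hz => ?_⟩
    have := ((hb ⟨z, hN.mem_of_mem b.2 hz⟩).1 hz).1
    rwa [hΩN] at this
  have hsub : ∀ X ∈ U.1, X ⊆ Ω.toZFSet := fun X hX => ((hp' X).1 (f1 X hX)).2
  have hint : ∀ X Y : N, X.1 ∈ p.1 → X.1 ∩ Y.1 ∈ p.1 := by
    intro X Y hX
    obtain ⟨b, hb⟩ := hsep (fun z => z.1 ∈ Y.1) (Dfn.mem (DT.var _) (DT.const Y)) X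
    have e : X.1 ∩ Y.1 = b.1 := by
      ext z
      rw [ZFSet.mem_inter]
      constructor
      · rintro ⟨h1, h2⟩
        exact (hb ⟨z, hN.mem_of_mem X.2 h1⟩).2 ⟨h1, h2⟩
      · intro h
        exact (hb ⟨z, hN.mem_of_mem b.2 h⟩).1 h
    rw [e, hp']
    refine ⟨b.2, fun z hz => ?_⟩
    exact ((hp' X.1).1 hX).2 ((hb ⟨z, hN.mem_of_mem b.2 hz⟩).1 hz).1
  refine ⟨U.1, U.2, hsub, ?_, ?_, ?_, ?_, ?_⟩
  · intro X hX hXΩ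
    have hXp : X ∈ p.1 := (hp' X).2 ⟨hX, hXΩ⟩
    rw [← hΩN]
    by_contra hcon
    push Not at hcon
    obtain ⟨h1, h2⟩ := hcon
    -- the filter generated by `U` and `X`
    obtain ⟨𝒢, h𝒢⟩ := hsep (fun Z => ∃ W ∈ U.1, ∀ w ∈ W, w ∈ (⟨X, hX⟩ : N).1 → w ∈ Z.1) (by
        (repeat' first
          | exact DT.var _ | exact DT.last | exact DT.const _ | assumption
          | refine Dfn.mem ?_ ?_
          | refine Dfn.and ?_ ?_ | refine Dfn.or ?_ ?_ | refine Dfn.iff ?_ ?_ | refine Dfn.not ?_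
          | refine Dfn.imp ?_ ?_ | refine Dfn.all ?_ | refine Dfn.ex ?_ | exact Dfn.false'
          | refine Dfn.ballZ ?_ ?_ | refine Dfn.bexZ ?_ ?_ | exact Dfn.const _)) p
    have hΩp : ΩN.1 ∈ p.1 := (hp' _).2 ⟨ΩN.2, by rw [hΩN]⟩
    have hΩU : ΩN.1 ∈ U.1 ∨ ΩN.1 = ∅ := by
      by_cases h0 : ΩN.1 = ∅
      · exact Or.inr h0
      · left
        rw [ZFSet.eq_empty] at h0
        push Not at h0
        obtain ⟨β, hβ⟩ := h0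
        exact f4 β hβ _ hΩp fun w hw _ => hw
    rcases hΩU with hΩU | hΩ0
    · have hUG : ∀ Z ∈ U.1, Z ∈ 𝒢.1 := fun Z hZ =>
        (h𝒢 ⟨Z, hN.mem_of_mem U.2 hZ⟩).2 ⟨f1 Z hZ, Z, hZ, fun w hw _ => hw⟩
      have hXG : X ∈ 𝒢.1 := (h𝒢 ⟨X, hX⟩).2 ⟨hXp, ΩN.1, hΩU, fun w _ hw => hw⟩
      refine h1 (hmx X hXp ⟨_, hN.insert_mem hX U.2⟩ rfl ⟨𝒢, ?_, ?_, ?_, ?_, ?_⟩)
      · intro w hw
        have hw : w ∈ insert X U.1 := hw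
        rw [ZFSet.mem_insert_iff] at hw
        rcases hw with rfl | hw
        · exact hXG
        · exact hUG w hw
      · intro Z hZ
        exact ((h𝒢 ⟨Z, hN.mem_of_mem 𝒢.2 hZ⟩).1 hZ).1
      · intro Y hY Z hZ V hV hYZV
        obtain ⟨hYp, W, hW, h3⟩ := (h𝒢 ⟨Y, hN.mem_of_mem 𝒢.2 hY⟩).1 hY
        obtain ⟨hZp, W', hW', h4⟩ := (h𝒢 ⟨Z, hN.mem_of_mem 𝒢.2 hZ⟩).1 hZ
        have hWN := hN.mem_of_mem U.2 hW
        have hWN' := hN.mem_of_mem U.2 hW'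
        refine (h𝒢 ⟨V, hN.mem_of_mem p.2 hV⟩).2 ⟨hV, W ∩ W', f2 W hW W' hW' _
          (hint ⟨W, hWN⟩ ⟨W', hWN'⟩ (f1 W hW)) (fun w hw hw' => ZFSet.mem_inter.2 ⟨hw, hw'⟩), ?_⟩
        intro w hw hwX
        rw [ZFSet.mem_inter] at hw
        exact hYZV w (h3 w hw.1 hwX) (h4 w hw.2 hwX)
      · intro Y hY β hβ
        obtain ⟨hYp, W, hW, h3⟩ := (h𝒢 ⟨Y, hN.mem_of_mem 𝒢.2 hY⟩).1 hY
        by_contra hcon
        push Not at hcon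
        -- `W ∩ X ⊆ β`, so `W ∩ (Ω ∖ β) ⊆ Ω ∖ X`
        have hβN := hN.mem_of_mem ΩN.2 hβ
        have h5 : ΩN.1 \ β ∈ U.1 := f4 β hβ _ (hdiff ⟨β, hβN⟩) fun w hw hw' =>
          ZFSet.mem_sdiff.2 ⟨hw, hw'⟩
        refine h2 (f2 W hW _ h5 _ (hdiff ⟨X, hX⟩) fun w hw hw' => ?_)
        rw [ZFSet.mem_sdiff] at hw' ⊢
        exact ⟨hw'.1, fun hwX => hw'.2 (hcon w (h3 w hw hwX))⟩
      · intro β hβ Z hZ h3
        exact hUG Z (f4 β hβ Z hZ h3)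
    · have h0 := hΩ.omega_lt hN 0
      have h3 : ((0 : ℕ) : Ordinal.{0}).toZFSet ∈ ΩN.1 := by
        rw [hΩN]
        exact Ordinal.toZFSet_mem_toZFSet_iff.2 h0
      rw [hΩ0] at h3
      exact ZFSet.notMem_empty _ h3
  · intro X hX Y hY
    exact f2 X hX Y hY _ (hint ⟨X, hN.mem_of_mem U.2 hX⟩ ⟨Y, hN.mem_of_mem U.2 hY⟩ (f1 X hX))
      fun w hw hw' => ZFSet.mem_inter.2 ⟨hw, hw'⟩
  · intro X hX Y hY hXY hYΩ
    exact f2 X hX X hX Y ((hp' Y).2 ⟨hY, hYΩ⟩) fun w hw _ => hXY hw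
  · intro X hX β hβ
    obtain ⟨i, hi, hiβ⟩ := f3 X hX β.toZFSet (by rw [hΩN]; exact Ordinal.toZFSet_mem_toZFSet_iff.2 hβ)
    obtain ⟨x, hx, rfl⟩ := Ordinal.mem_toZFSet_iff.1 (hsub X hX hi)
    rw [Ordinal.toZFSet_mem_toZFSet_iff, not_lt] at hiβ
    exact ⟨x, hx, hiβ, hi⟩
  · intro β hβ
    have hβΩ : β.toZFSet ∈ ΩN.1 := by rw [hΩN]; exact Ordinal.toZFSet_mem_toZFSet_iff.2 hβ
    rw [← hΩN]
    exact f4 _ hβΩ _ (hdiff ⟨_, hN.mem_of_mem ΩN.2 hβΩ⟩) fun w hw hw' => ZFSet.mem_sdiff.2 ⟨hw, hw'⟩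

end Pool.Agent.H17.CF
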